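import Mathlib

/-! Counting functions on finite types, with dummy coordinates. -/

set_option linter.unusedSectionVars false
set_option linter.unusedSimpArgs false

open Finset

namespace Pool.Agent.H53.C9

open Classical in
/-- number of elements satisfying `P`, as a real number -/
noncomputable def N {α : Type*} [Fintype α] (P : α → Prop) : ℝ :=
  ((univ.filter P).card : ℝ)

open Classical in
theorem N_eq_sum {α : Type*} [Fintype α] (P : α → Prop) :
    N P = ∑ a, if P a then (1 : ℝ) else 0 := by
  unfold N
  rw [Finset.sum_boole]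

theorem N_eq_card {α : Type*} [Fintype α] (P : α → Prop) [DecidablePred P] :
    N P = ((univ.filter P).card : ℝ) := by
  unfold N; congr!

theorem N_eq_sum' {α : Type*} [Fintype α] (P : α → Prop) [DecidablePred P] :
    N P = ∑ a, if P a then (1 : ℝ) else 0 := by
  rw [N_eq_card, Finset.sum_boole]

theorem N_nonneg {α : Type*} [Fintype α] (P : α → Prop) : 0 ≤ N P := by
  unfold N; positivity

theorem N_mono {α : Type*} [Fintype α] {P Q : α → Prop} (h : ∀ a, P a → Q a) : N P ≤ N Q := by
  classical
  unfold N
  exact_mod_cast Finset.card_le_card (Finset.monotone_filter_right _ (fun a _ => h a))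

theorem N_congr {α : Type*} [Fintype α] {P Q : α → Prop} (h : ∀ a, P a ↔ Q a) : N P = N Q :=
  le_antisymm (N_mono fun a => (h a).1) (N_mono fun a => (h a).2)

theorem N_le_card {α : Type*} [Fintype α] (P : α → Prop) : N P ≤ Fintype.card α := by
  classical
  unfold N
  exact_mod_cast Finset.card_le_univ _

theorem N_true {α : Type*} [Fintype α] : N (fun _ : α => True) = Fintype.card α := by
  unfold N; simp

theorem N_or_le {α : Type*} [Fintype α] (P Q : α → Prop) :
    N (fun a => P a ∨ Q a) ≤ N P + N Q := by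
  classical
  rw [N_eq_sum, N_eq_sum, N_eq_sum, ← Finset.sum_add_distrib]
  apply Finset.sum_le_sum
  intro a _
  by_cases h1 : P a <;> by_cases h2 : Q a <;> simp [h1, h2]

theorem N_add_le {α : Type*} [Fintype α] {P Q R : α → Prop} (hP : ∀ a, P a → R a)
    (hQ : ∀ a, Q a → R a) (hd : ∀ a, P a → Q a → False) : N P + N Q ≤ N R := by
  classical
  rw [N_eq_sum, N_eq_sum, N_eq_sum, ← Finset.sum_add_distrib]
  apply Finset.sum_le_sum
  intro a _
  by_cases h1 : P a
  · by_cases h2 : Q a
    · exact (hd a h1 h2).elim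
    · simp [h1, h2, hP a h1]
  · by_cases h2 : Q a
    · simp [h1, h2, hQ a h2]
    · simp only [h1, h2, if_false, add_zero]
      split_ifs <;> norm_num

theorem N_split {α : Type*} [Fintype α] (P Q : α → Prop) :
    N P = N (fun a => P a ∧ Q a) + N (fun a => P a ∧ ¬ Q a) := by
  classical
  rw [N_eq_sum, N_eq_sum, N_eq_sum, ← Finset.sum_add_distrib]
  apply Finset.sum_congr rfl
  intro a _
  by_cases h1 : P a <;> by_cases h2 : Q a <;> simp [h1, h2]

theorem N_exists_le {α ι : Type*} [Fintype α] [Fintype ι] (P : ι → α → Prop) :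
    N (fun a => ∃ i, P i a) ≤ ∑ i, N (P i) := by
  classical
  simp only [N_eq_sum]
  rw [Finset.sum_comm]
  apply Finset.sum_le_sum
  intro a _
  by_cases h : ∃ i, P i a
  · obtain ⟨i, hi⟩ := h
    have h1 : ∃ i, P i a := ⟨i, hi⟩
    simp only [h1, if_true]
    have h2 : (if P i a then (1:ℝ) else 0) ≤ ∑ j, if P j a then (1:ℝ) else 0 :=
      Finset.single_le_sum (f := fun j => if P j a then (1:ℝ) else 0)
        (fun j _ => by split_ifs <;> norm_num) (Finset.mem_univ i)
    rw [if_pos hi] at h2
    exact h2
  · simp only [h, if_false]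
    apply Finset.sum_nonneg
    intro j _
    split_ifs <;> norm_num

theorem N_le_of_inj {α β : Type*} [Fintype α] [Fintype β] {P : α → Prop} {Q : β → Prop}
    (e : α → β) (he : ∀ a, P a → Q (e a))
    (hinj : ∀ a a', P a → P a' → e a = e a' → a = a') : N P ≤ N Q := by
  classical
  unfold N
  norm_cast
  apply Finset.card_le_card_of_injOn e
  · intro a ha
    simp only [coe_filter, mem_univ, true_and, Set.mem_ofPred_eq] at ha ⊢
    exact he a ha
  · intro a ha a' ha' h
    simp only [coe_filter, mem_univ, true_and, Set.mem_ofPred_eq] at ha ha'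
    exact hinj a a' ha ha' h

theorem N_equiv {α β : Type*} [Fintype α] [Fintype β] (e : α ≃ β) (Q : β → Prop) :
    N (fun a => Q (e a)) = N Q := by
  classical
  rw [N_eq_sum, N_eq_sum]
  exact Equiv.sum_comp e (fun b => if Q b then (1:ℝ) else 0)

theorem N_prod {α β : Type*} [Fintype α] [Fintype β] (P : α → Prop) (Q : β → Prop) :
    N (fun p : α × β => P p.1 ∧ Q p.2) = N P * N Q := by
  classical
  rw [N_eq_sum, N_eq_sum, N_eq_sum, Finset.sum_mul_sum, Fintype.sum_prod_type]
  apply Finset.sum_congr rfl; intro a _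
  apply Finset.sum_congr rfl; intro b _
  by_cases h1 : P a <;> by_cases h2 : Q b <;> simp [h1, h2]

theorem N_prod_left {α β : Type*} [Fintype α] [Fintype β] (P : α → Prop) :
    N (fun p : α × β => P p.1) = N P * Fintype.card β := by
  rw [← N_true, ← N_prod]
  exact N_congr (by simp)

theorem N_fiber {α β : Type*} [Fintype α] [Fintype β] (P : α × β → Prop) :
    N P = ∑ a, N (fun b => P (a, b)) := by
  classical
  simp only [N_eq_sum]
  rw [Fintype.sum_prod_type]

theorem N_sum_type {α β : Type*} [Fintype α] [Fintype β] (P : α ⊕ β → Prop) :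
    N P = N (fun a => P (Sum.inl a)) + N (fun b => P (Sum.inr b)) := by
  classical
  simp only [N_eq_sum]
  rw [Fintype.sum_sum_type]

theorem N_mem {α : Type*} [Fintype α] (S : Finset α) : N (fun a => a ∈ S) = S.card := by
  classical
  unfold N
  congr 2
  ext a; simp

section maps

variable {W V : Type*} [Fintype W] [Fintype V] [DecidableEq W] [DecidableEq V]

theorem extend_invol {M : Type*} (φ : W → V) (hφ : Function.Injective φ) :
    Function.Involutive (fun p : (V → M) × (W → M) => (Function.extend φ p.2 p.1, p.1 ∘ φ)) := by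
  classical
  rintro ⟨s, ψ⟩
  ext v
  · by_cases hv : ∃ a, φ a = v
    · obtain ⟨a, rfl⟩ := hv
      simp [hφ.extend_apply]
    · simp only
      rw [Function.extend_apply' _ _ _ hv, Function.extend_apply' _ _ _ hv]
  · simp [hφ.extend_apply]

theorem sum_comp_inj {M : Type*} [Fintype M] [DecidableEq M] (φ : W → V)
    (hφ : Function.Injective φ) (F : (W → M) → ℝ) :
    (∑ s : V → M, F (s ∘ φ)) * (Fintype.card M : ℝ) ^ Fintype.card W
      = (Fintype.card M : ℝ) ^ Fintype.card V * ∑ ψ : W → M, F ψ := by
  have h1 : ∑ p : (V → M) × (W → M), F (p.1 ∘ φ) = ∑ p : (V → M) × (W → M), F p.2 := by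
    rw [← Equiv.sum_comp (extend_invol (M := M) φ hφ).toPerm (fun p => F p.2)]
    rfl
  rw [Fintype.sum_prod_type, Fintype.sum_prod_type] at h1
  simp only [Finset.sum_const, Finset.card_univ, Fintype.card_pi, Finset.prod_const,
    nsmul_eq_mul, Nat.cast_pow] at h1
  rw [← h1, Finset.sum_mul]
  apply Finset.sum_congr rfl
  intro s _
  ring

theorem update_invol (a : W) :
    Function.Involutive (fun p : (W → V) × V => (Function.update p.1 a p.2, p.1 a)) := by
  rintro ⟨φ, v⟩
  simp

theorem sum_update' (a : W) (g : (W → V) → V → ℝ) :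
    ∑ φ : W → V, ∑ v : V, g (Function.update φ a v) (φ a) = ∑ φ : W → V, ∑ v : V, g φ v := by
  have h1 : ∑ p : (W → V) × V, g (Function.update p.1 a p.2) (p.1 a)
      = ∑ p : (W → V) × V, g p.1 p.2 := by
    rw [← Equiv.sum_comp (update_invol (V := V) a).toPerm (fun p => g p.1 p.2)]
    rfl
  rwa [Fintype.sum_prod_type, Fintype.sum_prod_type] at h1

theorem sum_update (a : W) (F : (W → V) → ℝ) :
    ∑ φ : W → V, ∑ v : V, F (Function.update φ a v) = (Fintype.card V : ℝ) * ∑ φ : W → V, F φ := by
  rw [sum_update' a (fun φ _ => F φ)]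
  simp [Finset.mul_sum]

/-- fixing one coordinate in a set -/
theorem N_coord (a : W) (P : (W → V) → Prop) (hP : ∀ φ v, P (Function.update φ a v) ↔ P φ)
    (C : Finset V) :
    N (fun φ => P φ ∧ φ a ∈ C) * Fintype.card V = C.card * N P := by
  classical
  rw [N_eq_sum, N_eq_sum, mul_comm, ← sum_update a, Finset.mul_sum]
  apply Finset.sum_congr rfl
  intro φ _
  simp only [hP, Function.update_self]
  by_cases h : P φ
  · simp only [h, true_and, if_true, mul_one]
    rw [Finset.sum_boole]
    congr 2
    ext v; simp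
  · simp [h]

theorem N_coordP (a : W) (P : (W → V) → Prop) (hP : ∀ φ v, P (Function.update φ a v) ↔ P φ)
    (C : V → Prop) :
    N (fun φ => P φ ∧ C (φ a)) * Fintype.card V = N C * N P := by
  classical
  have := N_coord a P hP (univ.filter C)
  simp only [mem_filter, mem_univ, true_and] at this
  rw [this]
  rfl

theorem N_coord_eq (a : W) (P : (W → V) → Prop) (hP : ∀ φ v, P (Function.update φ a v) ↔ P φ)
    (x : V) :
    N (fun φ => P φ ∧ φ a = x) * Fintype.card V = N P := by
  have := N_coord a P hP {x}
  simpa using this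

/-- a coordinate equal to a function of the others -/
theorem N_coord_fun (a : W) (t : (W → V) → V) (ht : ∀ φ v, t (Function.update φ a v) = t φ) :
    N (fun φ => φ a = t φ) * Fintype.card V = (Fintype.card V : ℝ) ^ Fintype.card W := by
  classical
  rw [N_eq_sum, mul_comm, ← sum_update a]
  simp only [ht, Function.update_self]
  simp

theorem card_maps : (Fintype.card (W → V) : ℝ) = (Fintype.card V : ℝ) ^ Fintype.card W := by
  simp

/-- two coordinates in a relation -/
theorem N_pair (a b : W) (hab : a ≠ b) (R : V → V → Prop) :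
    N (fun φ : W → V => R (φ a) (φ b)) * (Fintype.card V : ℝ) ^ 2
      = N (fun p : V × V => R p.1 p.2) * (Fintype.card V : ℝ) ^ Fintype.card W := by
  classical
  have h1 : N (fun φ : W → V => R (φ a) (φ b)) * (Fintype.card V : ℝ) ^ 2
      = ∑ φ : W → V, ∑ v, ∑ w, if R v w then (1:ℝ) else 0 := by
    rw [N_eq_sum, mul_comm, pow_two, mul_assoc, ← sum_update b, ← sum_update a]
    apply Finset.sum_congr rfl
    intro φ _
    apply Finset.sum_congr rfl
    intro v _
    apply Finset.sum_congr rfl
    intro w _
    rw [Function.update_self, Function.update_of_ne hab, Function.update_self]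
  rw [h1, N_eq_sum, Fintype.sum_prod_type]
  rw [Finset.sum_const, Finset.card_univ, nsmul_eq_mul, card_maps]
  ring

/-- almost all maps are injective -/
theorem N_not_inj [Nonempty V] :
    N (fun φ : W → V => ¬ Function.Injective φ) * Fintype.card V
      ≤ (Fintype.card W : ℝ) ^ 2 * (Fintype.card V : ℝ) ^ Fintype.card W := by
  classical
  have h1 : N (fun φ : W → V => ¬ Function.Injective φ)
      ≤ N (fun φ : W → V => ∃ p : W × W, p.1 ≠ p.2 ∧ φ p.1 = φ p.2) := by
    apply N_mono
    intro φ hφ
    rw [Function.Injective] at hφ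
    push Not at hφ
    obtain ⟨a, b, h, hab⟩ := hφ
    exact ⟨(a, b), hab, h⟩
  have h2 := N_exists_le (fun (p : W × W) (φ : W → V) => p.1 ≠ p.2 ∧ φ p.1 = φ p.2)
  have h3 : ∀ p : W × W, N (fun φ : W → V => p.1 ≠ p.2 ∧ φ p.1 = φ p.2) * Fintype.card V
      ≤ (Fintype.card V : ℝ) ^ Fintype.card W := by
    rintro ⟨a, b⟩
    by_cases hab : a = b
    · have : N (fun φ : W → V => a ≠ b ∧ φ a = φ b) = 0 := by
        rw [N_eq_sum]; simp [hab]
      simp only [this, zero_mul]
      positivity
    · have h4 := N_coord_fun (V := V) a (fun φ => φ b) (by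
        intro φ v; rw [Function.update_of_ne (Ne.symm hab)])
      rw [← h4]
      apply mul_le_mul_of_nonneg_right _ (by positivity)
      apply N_mono
      intro φ h; exact h.2
  calc N (fun φ : W → V => ¬ Function.Injective φ) * Fintype.card V
      ≤ (∑ p : W × W, N (fun φ : W → V => p.1 ≠ p.2 ∧ φ p.1 = φ p.2)) * Fintype.card V := by
        apply mul_le_mul_of_nonneg_right (h1.trans h2) (by positivity)
    _ = ∑ p : W × W, N (fun φ : W → V => p.1 ≠ p.2 ∧ φ p.1 = φ p.2) * Fintype.card V := by
        rw [Finset.sum_mul]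
    _ ≤ ∑ _p : W × W, (Fintype.card V : ℝ) ^ Fintype.card W :=
        Finset.sum_le_sum (fun p _ => h3 p)
    _ = _ := by simp [pow_two]

end maps

end Pool.Agent.H53.C9
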