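import Pool.Agent.H53.C9.Gain

/-! Degree regularity of extremal graphs. -/

set_option linter.unusedSectionVars false
set_option linter.unusedSimpArgs false

open Finset

namespace Pool.Agent.H53.C9

variable {W V : Type*} [Fintype W] [Fintype V] [DecidableEq W] [DecidableEq V]

/-- number of injective homomorphisms hitting `x` -/
noncomputable def Dg (H : SimpleGraph W) (G : SimpleGraph V) (x : V) : ℝ :=
  N (fun φ : W → V => (Function.Injective φ ∧ hom H G φ) ∧ ∃ a, φ a = x)

theorem pair_hit [Nonempty V] (H : SimpleGraph W) (G : SimpleGraph V) (x y : V) (hxy : x ≠ y) :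
    N (fun φ : W → V => ((Function.Injective φ ∧ hom H G φ) ∧ ∃ a, φ a = x) ∧ ∃ b, φ b = y)
      ≤ (Fintype.card W : ℝ) ^ 2 * ((Fintype.card V : ℝ) ^ Fintype.card W
          / (Fintype.card V : ℝ) ^ 2) := by
  have h0 : (0:ℝ) < Fintype.card V := by exact_mod_cast (Fintype.card_pos (α := V))
  refine le_trans (N_mono (Q := fun φ : W → V => ∃ p : W × W, p.1 ≠ p.2 ∧ φ p.1 = x ∧ φ p.2 = y)
    ?_) ?_
  · rintro φ ⟨⟨-, a, ha⟩, b, hb⟩
    refine ⟨(a, b), ?_, ha, hb⟩
    rintro (rfl : a = b)
    exact hxy (ha.symm.trans hb)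
  refine (N_exists_le (fun (p : W × W) (φ : W → V) => p.1 ≠ p.2 ∧ φ p.1 = x ∧ φ p.2 = y)).trans ?_
  have h1 : ∀ p : W × W, N (fun φ : W → V => p.1 ≠ p.2 ∧ φ p.1 = x ∧ φ p.2 = y)
      ≤ (Fintype.card V : ℝ) ^ Fintype.card W / (Fintype.card V : ℝ) ^ 2 := by
    rintro ⟨a, b⟩
    by_cases hab : a = b
    · have : N (fun φ : W → V => a ≠ b ∧ φ a = x ∧ φ b = y) = 0 := by
        rw [N_eq_sum]; simp [hab]
      simp only [this]
      positivity
    · rw [le_div_iff₀ (by positivity)]
      have h2 := N_coord_eq (V := V) a (fun _ => True) (by simp) x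
      have h3 := N_coord_eq (V := V) b (fun φ => True ∧ φ a = x) (by
        intro φ v; rw [Function.update_of_ne hab]) y
      rw [← h3, N_true, card_maps] at h2
      rw [← h2]
      rw [pow_two, ← mul_assoc]
      apply mul_le_mul_of_nonneg_right _ (by positivity)
      apply mul_le_mul_of_nonneg_right _ (by positivity)
      apply N_mono
      rintro φ ⟨-, h1, h2⟩
      exact ⟨⟨trivial, h1⟩, h2⟩
  refine (Finset.sum_le_sum (fun p _ => h1 p)).trans (le_of_eq ?_)
  rw [Finset.sum_const, Finset.card_univ, Fintype.card_prod, nsmul_eq_mul]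
  push_cast
  ring

theorem Ext.exch [Nonempty V] {H : SimpleGraph W} {G : SimpleGraph V} (hG : Ext H G) (x y : V) :
    Dg H G x ≤ Dg H G y + (Fintype.card W : ℝ) ^ 2 * ((Fintype.card V : ℝ) ^ Fintype.card W
          / (Fintype.card V : ℝ) ^ 2) := by
  classical
  by_cases hxy : x = y
  · subst hxy
    have : 0 ≤ (Fintype.card W : ℝ) ^ 2 * ((Fintype.card V : ℝ) ^ Fintype.card W
          / (Fintype.card V : ℝ) ^ 2) := by positivity
    linarith
  set G' := G.comap (Function.update id y x) with hG'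
  have h1 : ij H G' ≤ ij H G := hG.max _ (hG.tf.comap _)
  -- A
  have hA : N (fun φ : W → V => (Function.Injective φ ∧ hom H G φ) ∧ ¬ ∃ b, φ b = y)
      ≤ N (fun φ : W → V => (Function.Injective φ ∧ hom H G' φ) ∧ ¬ ∃ b, φ b = y) := by
    apply N_mono
    rintro φ ⟨⟨h1, h2⟩, h3⟩
    refine ⟨⟨h1, ?_⟩, h3⟩
    intro a b hab
    rw [hG', SimpleGraph.comap_adj]
    push Not at h3
    rw [Function.update_of_ne (h3 a), Function.update_of_ne (h3 b)]
    exact h2 a b hab
  have hB : N (fun φ : W → V => ((Function.Injective φ ∧ hom H G φ) ∧ ∃ a, φ a = x) ∧ ¬ ∃ b, φ b = y)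
      ≤ N (fun φ : W → V => (Function.Injective φ ∧ hom H G' φ) ∧ ∃ b, φ b = y) := by
    apply N_le_of_inj (fun φ => Equiv.swap x y ∘ φ)
    · rintro φ ⟨⟨⟨h1, h2⟩, c, h3⟩, h4⟩
      push Not at h4
      refine ⟨⟨(Equiv.swap x y).injective.comp h1, ?_⟩, c, by simp [h3]⟩
      have key : ∀ a, Function.update id y x (Equiv.swap x y (φ a)) = φ a := by
        intro a
        by_cases ha : φ a = x
        · rw [ha, Equiv.swap_apply_left, Function.update_self]
        · rw [Equiv.swap_apply_of_ne_of_ne ha (h4 a), Function.update_of_ne (h4 a)]; rfl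
      intro a b hab
      rw [hG', SimpleGraph.comap_adj, Function.comp, Function.comp, key, key]
      exact h2 a b hab
    · intro φ φ' _ _ h
      funext a
      exact (Equiv.swap x y).injective (congrFun h a)
  have hs1 := N_split (fun φ : W → V => Function.Injective φ ∧ hom H G φ) (fun φ => ∃ b, φ b = y)
  have hs2 := N_split (fun φ : W → V => Function.Injective φ ∧ hom H G' φ) (fun φ => ∃ b, φ b = y)
  have hs3 := N_split (fun φ : W → V => (Function.Injective φ ∧ hom H G φ) ∧ ∃ a, φ a = x)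
    (fun φ => ∃ b, φ b = y)
  have hp := pair_hit H G x y hxy
  unfold ij at h1
  unfold Dg
  linarith

theorem sum_Dg (H : SimpleGraph W) (G : SimpleGraph V) :
    ∑ x, Dg H G x = Fintype.card W * ij H G := by
  classical
  simp only [Dg, ij, N_eq_sum]
  rw [Finset.sum_comm, Finset.mul_sum]
  apply Finset.sum_congr rfl
  intro φ _
  by_cases h : Function.Injective φ ∧ hom H G φ
  · simp only [h, true_and, if_true, mul_one]
    rw [Finset.sum_boole]
    have : (univ.filter (fun x => ∃ a, φ a = x)) = univ.image φ := by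
      ext x; simp
    rw [this, Finset.card_image_of_injective _ h.1, Finset.card_univ]
  · simp [h]

theorem phom_update (H : SimpleGraph W) (G : SimpleGraph V) (u : W) (S : V → Prop) (φ : W → V)
    (v : V) : phom H G u S (Function.update φ u v) ↔ phom H G u S φ := by
  unfold phom
  constructor
  · rintro ⟨h1, h2⟩
    refine ⟨fun a b ha hb hab => ?_, fun a ha => ?_⟩
    · have := h1 a b ha hb hab
      rwa [Function.update_of_ne ha, Function.update_of_ne hb] at this
    · have := h2 a ha
      rwa [Function.update_of_ne ha.ne'] at this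
  · rintro ⟨h1, h2⟩
    refine ⟨fun a b ha hb hab => ?_, fun a ha => ?_⟩
    · rw [Function.update_of_ne ha, Function.update_of_ne hb]
      exact h1 a b ha hb hab
    · rw [Function.update_of_ne ha.ne']
      exact h2 a ha

theorem hom_iff_phom (H : SimpleGraph W) (G : SimpleGraph V) (u : W) (φ : W → V) :
    hom H G φ ↔ phom H G u (G.Adj (φ u)) φ := by
  constructor
  · intro h
    exact ⟨fun a b _ _ hab => h a b hab, fun a ha => h u a ha⟩
  · rintro ⟨h1, h2⟩ a b hab
    by_cases ha : a = u
    · subst ha; exact h2 b hab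
    · by_cases hb : b = u
      · subst hb; exact (h2 a hab.symm).symm
      · exact h1 a b ha hb hab

theorem hom_coord (H : SimpleGraph W) (G : SimpleGraph V) (u : W) (y : V) :
    N (fun φ : W → V => hom H G φ ∧ φ u = y) * Fintype.card V = F H G u (G.Adj y) := by
  unfold F
  rw [← N_coord_eq u (fun φ => phom H G u (G.Adj y) φ) (phom_update H G u _) y]
  congr 1
  apply N_congr
  intro φ
  rw [hom_iff_phom H G u φ]
  constructor
  · rintro ⟨h1, rfl⟩; exact ⟨h1, rfl⟩
  · rintro ⟨h1, rfl⟩; exact ⟨h1, rfl⟩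

theorem Dg_le (H : SimpleGraph W) (G : SimpleGraph V) (y : V) :
    Dg H G y * Fintype.card V ≤ ∑ u, F H G u (G.Adj y) := by
  have h1 : Dg H G y ≤ ∑ u, N (fun φ : W → V => hom H G φ ∧ φ u = y) := by
    refine le_trans ?_ (N_exists_le (fun (u : W) (φ : W → V) => hom H G φ ∧ φ u = y))
    apply N_mono
    rintro φ ⟨⟨-, h⟩, a, ha⟩
    exact ⟨a, h, ha⟩
  calc _ ≤ (∑ u, N (fun φ : W → V => hom H G φ ∧ φ u = y)) * Fintype.card V :=
        mul_le_mul_of_nonneg_right h1 (by positivity)
    _ = _ := by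
        rw [Finset.sum_mul]
        exact Finset.sum_congr rfl (fun u _ => hom_coord H G u y)

/-- regularity -/
theorem Ext.reg [Nonempty V] {H : SimpleGraph W} {G : SimpleGraph V} (hG : Ext H G)
    (hW : 1 ≤ Fintype.card W) (y : V) :
    Fintype.card W * T H * (Fintype.card V : ℝ) ^ Fintype.card W
      - 2 * (Fintype.card W : ℝ) ^ 3 * (Fintype.card V : ℝ) ^ Fintype.card W / Fintype.card V
      ≤ ∑ u, F H G u (G.Adj y) := by
  classical
  have h0 : (0:ℝ) < Fintype.card V := by exact_mod_cast (Fintype.card_pos (α := V))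
  obtain ⟨x, -, hx⟩ : ∃ x ∈ (univ : Finset V),
      (Fintype.card W * ij H G) / Fintype.card V ≤ Dg H G x := by
    apply Finset.exists_le_of_sum_le Finset.univ_nonempty
    rw [sum_Dg, Finset.sum_const, Finset.card_univ, nsmul_eq_mul]
    apply le_of_eq
    field_simp
  have h1 := hG.exch x y
  have h2 := Dg_le H G y
  have h3 := hG.ij_ge'
  set X := (Fintype.card V : ℝ) ^ Fintype.card W with hX
  set n := (Fintype.card V : ℝ) with hn
  set h := (Fintype.card W : ℝ) with hh
  have hh1 : (1:ℝ) ≤ h := by rw [hh]; exact_mod_cast hW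
  have hX0 : 0 < X := by positivity
  have h4 : h * ij H G / n * n ≤ Dg H G y * n + h ^ 2 * (X / n ^ 2) * n := by
    nlinarith
  have h5 : h * ij H G / n * n = h * ij H G := by field_simp
  have h6 : h ^ 2 * (X / n ^ 2) * n = h ^ 2 * X / n := by field_simp
  rw [h5, h6] at h4
  have h7 : h * (T H * X - h ^ 2 * X / n) ≤ h * ij H G :=
    mul_le_mul_of_nonneg_left h3 (by positivity)
  have h8 : h * (h ^ 2 * X / n) = h ^ 3 * X / n := by ring
  have h9 : h ^ 2 * X / n ≤ h ^ 3 * X / n := by
    apply div_le_div_of_nonneg_right _ h0.le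
    apply mul_le_mul_of_nonneg_right _ hX0.le
    nlinarith [sq_nonneg h]
  have h10 : 2 * h ^ 3 * X / n = h ^ 3 * X / n + h ^ 3 * X / n := by ring
  rw [h10]
  nlinarith

end Pool.Agent.H53.C9
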