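import Pool.Agent.H53.C9.Rich

/-! Dense pairs contain many complete bipartite patterns. -/

set_option linter.unusedSectionVars false
set_option linter.unusedSimpArgs false

open Finset

namespace Pool.Agent.H53.C9

variable {W V : Type*} [Fintype W] [Fintype V] [DecidableEq W] [DecidableEq V]

theorem pow_mean {α : Type*} [Fintype α] (f : α → ℝ) (hf : ∀ a, 0 ≤ f a) (h : ℕ) (hh : 1 ≤ h) :
    (∑ a, f a) ^ h * Fintype.card α ≤ (Fintype.card α : ℝ) ^ h * ∑ a, f a ^ h := by
  obtain ⟨k, rfl⟩ : ∃ k, h = k + 1 := ⟨h - 1, by omega⟩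
  have := pow_sum_le_card_mul_sum_pow (s := univ) (f := f) (fun i _ => hf i) k
  rw [Finset.card_univ] at this
  calc (∑ a, f a) ^ (k + 1) * Fintype.card α
      ≤ ((Fintype.card α : ℝ) ^ k * ∑ a, f a ^ (k + 1)) * Fintype.card α :=
        mul_le_mul_of_nonneg_right this (by positivity)
    _ = _ := by ring

theorem N_pi (Q : V → Prop) :
    N (fun g : W → V => ∀ b, Q (g b)) = (N Q) ^ Fintype.card W := by
  classical
  rw [N_eq_card, N_eq_card]
  have : (univ.filter (fun g : W → V => ∀ b, Q (g b))) = Fintype.piFinset (fun _ => univ.filter Q) := by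
    ext g; simp
  rw [this, Fintype.card_piFinset]
  simp

theorem pairs_ge [Nonempty V] (G : SimpleGraph V) (A B : V → Prop) (c : ℝ) (hc : 0 ≤ c)
    (hW : 1 ≤ Fintype.card W)
    (hE : c * (Fintype.card V : ℝ) ^ 2 ≤ EE G A B) :
    c ^ (Fintype.card W ^ 2) * ((Fintype.card V : ℝ) ^ Fintype.card W) ^ 2
      ≤ N (fun q : (W → V) × (W → V) =>
        (∀ b, B (q.1 b)) ∧ ∀ a, A (q.2 a) ∧ ∀ b, G.Adj (q.2 a) (q.1 b)) := by
  classical
  set h := Fintype.card W with hh
  set n : ℝ := (Fintype.card V : ℝ) with hn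
  have hn0 : 0 < n := by rw [hn]; exact_mod_cast (Fintype.card_pos (α := V))
  set X := n ^ h with hX
  have hX0 : 0 < X := by positivity
  -- step 1
  let f : V → ℝ := fun a => if A a then N (fun b => B b ∧ G.Adj a b) else 0
  have hf : ∀ a, 0 ≤ f a := by
    intro a; simp only [f]; split_ifs
    · exact N_nonneg _
    · exact le_rfl
  let cd : (W → V) → ℝ := fun g => if ∀ b, B (g b) then N (fun a => A a ∧ ∀ b, G.Adj a (g b)) else 0
  have hcd : ∀ g, 0 ≤ cd g := by
    intro g; simp only [cd]; split_ifs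
    · exact N_nonneg _
    · exact le_rfl
  have hfE : ∑ a, f a = EE G A B := by
    unfold EE
    rw [N_fiber]
    apply Finset.sum_congr rfl
    intro a _
    simp only [f]
    split_ifs with ha
    · apply N_congr; intro b; simp [ha]
    · rw [N_eq_sum]; simp [ha]
  have hY1 : ∑ a, f a ^ h = ∑ g, cd g := by
    have e1 : ∀ a, f a ^ h = N (fun g : W → V => A a ∧ ∀ b, B (g b) ∧ G.Adj a (g b)) := by
      intro a
      simp only [f]
      split_ifs with ha
      · rw [hh, ← N_pi (W := W)]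
        apply N_congr; intro g; simp [ha]
      · rw [zero_pow (by omega), N_eq_sum]; simp [ha]
    have e2 : ∀ g : W → V, cd g = N (fun a => A a ∧ ∀ b, B (g b) ∧ G.Adj a (g b)) := by
      intro g
      simp only [cd]
      split_ifs with hg
      · apply N_congr; intro a
        constructor
        · rintro ⟨h1, h2⟩; exact ⟨h1, fun b => ⟨hg b, h2 b⟩⟩
        · rintro ⟨h1, h2⟩; exact ⟨h1, fun b => (h2 b).2⟩
      · rw [N_eq_sum]
        symm
        apply Finset.sum_eq_zero
        intro a _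
        rw [if_neg]
        rintro ⟨-, h2⟩
        exact hg (fun b => (h2 b).1)
    rw [Finset.sum_congr rfl (fun a _ => e1 a), Finset.sum_congr rfl (fun g _ => e2 g)]
    simp only [N_eq_sum]
    rw [Finset.sum_comm]
  have hY2 : ∑ g, cd g ^ h = N (fun q : (W → V) × (W → V) =>
        (∀ b, B (q.1 b)) ∧ ∀ a, A (q.2 a) ∧ ∀ b, G.Adj (q.2 a) (q.1 b)) := by
    rw [N_fiber]
    apply Finset.sum_congr rfl
    intro g _
    simp only [cd]
    split_ifs with hg
    · rw [hh, ← N_pi (W := W)]
      apply N_congr; intro f'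
      constructor
      · intro h1; exact ⟨hg, h1⟩
      · rintro ⟨_, h1⟩; exact h1
    · rw [zero_pow (by omega), N_eq_sum]
      symm
      apply Finset.sum_eq_zero
      intro a _
      rw [if_neg]
      rintro ⟨h1, -⟩
      exact hg h1
  have m1 := pow_mean f hf h hW
  have m2 := pow_mean cd hcd h hW
  rw [hfE, hY1] at m1
  rw [hY2, card_maps] at m2
  rw [← hn] at m1 m2
  rw [← hh, ← hX] at m2
  set Y1 := ∑ g, cd g with hY1'
  have m3 : c ^ h * X * n ≤ Y1 := by
    have : (c * n ^ 2) ^ h * n ≤ n ^ h * Y1 :=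
      (mul_le_mul_of_nonneg_right (pow_le_pow_left₀ (by positivity) hE h) hn0.le).trans m1
    have e : (c * n ^ 2) ^ h * n = X * (c ^ h * X * n) := by
      rw [hX]; ring
    rw [e] at this
    exact le_of_mul_le_mul_left this hX0
  have m4 : X ^ h * (c ^ (h ^ 2) * X ^ 2) ≤ X ^ h * N (fun q : (W → V) × (W → V) =>
        (∀ b, B (q.1 b)) ∧ ∀ a, A (q.2 a) ∧ ∀ b, G.Adj (q.2 a) (q.1 b)) := by
    refine le_trans ?_ m2
    calc X ^ h * (c ^ (h ^ 2) * X ^ 2) = (c ^ h * X * n) ^ h * X := by
          rw [mul_pow, mul_pow, ← pow_mul, ← hX]; ring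
      _ ≤ Y1 ^ h * X := by
          apply mul_le_mul_of_nonneg_right _ hX0.le
          exact pow_le_pow_left₀ (by positivity) m3 h
  exact le_of_mul_le_mul_left m4 (by positivity)

/-- many maps with the `L`-part in `A` completely joined to the `R`-part in `B` -/
theorem emb_ge [Nonempty V] (G : SimpleGraph V) (A B : V → Prop) (c : ℝ) (hc : 0 ≤ c)
    (hW : 1 ≤ Fintype.card W)
    (hE : c * (Fintype.card V : ℝ) ^ 2 ≤ EE G A B) (L R : W → Prop) (hLR : ∀ a, L a → R a → False) :
    c ^ (Fintype.card W ^ 2) * (Fintype.card V : ℝ) ^ Fintype.card W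
      ≤ N (fun φ : W → V => (∀ a, L a → A (φ a)) ∧ (∀ b, R b → B (φ b)) ∧
        ∀ a b, L a → R b → G.Adj (φ a) (φ b)) := by
  classical
  have h1 := pairs_ge (W := W) G A B c hc hW hE
  set X := (Fintype.card V : ℝ) ^ Fintype.card W with hX
  have hn0 : (0:ℝ) < Fintype.card V := by exact_mod_cast (Fintype.card_pos (α := V))
  have hX0 : 0 < X := by positivity
  have h2 : N (fun q : (W → V) × (W → V) =>
        (∀ b, B (q.1 b)) ∧ ∀ a, A (q.2 a) ∧ ∀ b, G.Adj (q.2 a) (q.1 b))
      ≤ N (fun φ : W → V => (∀ a, L a → A (φ a)) ∧ (∀ b, R b → B (φ b)) ∧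
        ∀ a b, L a → R b → G.Adj (φ a) (φ b)) * X := by
    rw [hX, ← card_maps (W := W) (V := V), ← N_prod_left]
    apply N_le_of_inj (fun q : (W → V) × (W → V) =>
      ((fun a => if L a then q.2 a else q.1 a), (fun a => if L a then q.1 a else q.2 a)))
    · rintro ⟨g, f⟩ ⟨h1, h2⟩
      simp only at h1 h2 ⊢
      refine ⟨fun a ha => ?_, fun b hb => ?_, fun a b ha hb => ?_⟩
      · rw [if_pos ha]; exact (h2 a).1
      · rw [if_neg (fun hL => hLR b hL hb)]; exact h1 b
      · rw [if_pos ha, if_neg (fun hL => hLR b hL hb)]; exact (h2 a).2 b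
    · rintro ⟨g, f⟩ ⟨g', f'⟩ _ _ h
      simp only [Prod.mk.injEq] at h
      obtain ⟨h1, h2⟩ := h
      ext a
      · have e1 := congrFun h1 a
        have e2 := congrFun h2 a
        by_cases hL : L a
        · simpa [hL] using e2
        · simpa [hL] using e1
      · have e1 := congrFun h1 a
        have e2 := congrFun h2 a
        by_cases hL : L a
        · simpa [hL] using e1
        · simpa [hL] using e2
  have h3 := h1.trans h2
  have h4 : c ^ (Fintype.card W ^ 2) * X ^ 2 = (c ^ (Fintype.card W ^ 2) * X) * X := by ring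
  rw [h4] at h3
  exact le_of_mul_le_mul_right h3 hX0

end Pool.Agent.H53.C9
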