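import Pool.Agent.H53.C9.Key

/-! The gain lemma and degree regularity. -/

set_option linter.unusedSectionVars false
set_option linter.unusedSimpArgs false

open Finset

namespace Pool.Agent.H53.C9

variable {W V : Type*} [Fintype W] [Fintype V] [DecidableEq W] [DecidableEq V]

/-- the constant of the gain lemma -/
noncomputable def gc (h : ℕ) (γ : ℝ) : ℝ := γ ^ 2 / (18 * (h : ℝ) ^ 2 * 4 ^ h)

theorem gain_aux (h : ℕ) (hh : 1 ≤ h) (n m t X A B SF D E γ : ℝ) (hn0 : 0 < n) (hX : 0 < X)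
    (ht0 : 0 ≤ t) (ht1 : t ≤ 1) (hγ0 : 0 < γ) (hγ1 : γ ≤ 1) (hm0 : 0 < m)
    (hm1 : m ≤ γ / (4 * 4 ^ h) * n) (hm2 : γ / (4 * 4 ^ h) * n ≤ 2 * m)
    (hm3 : 4 * h ^ 2 ≤ γ * m) (hE : 0 ≤ E)
    (hA : t * X - h ^ 2 * X / n ≤ A)
    (hF : (h * t + γ) * X ≤ SF)
    (hD : D = h ^ 2 * (E * X / n ^ 2))
    (hB : B ≤ X * (1 + h * (m / n) + 4 ^ h * (m / n) ^ 2))
    (hkey : (A - D) * n + (SF - h * D) * m ≤ (t * B) * n) :
    gc h γ * n ^ 2 ≤ E := by
  have h4 : (0:ℝ) < 4 ^ h := by positivity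
  have hhR : (1:ℝ) ≤ h := by exact_mod_cast hh
  have hD0 : 0 ≤ D := by rw [hD]; positivity
  have hm4 : 4 ^ h * (m / n) ≤ γ / 4 := by
    rw [mul_div_assoc', div_le_iff₀ hn0]
    calc 4 ^ h * m ≤ 4 ^ h * (γ / (4 * 4 ^ h) * n) := by
          apply mul_le_mul_of_nonneg_left hm1 h4.le
      _ = γ / 4 * n := by field_simp
  -- first consequence
  have e1 : t * B * n ≤ t * X * n + t * X * h * m + X * (γ / 4) * m := by
    have : t * B * n ≤ t * (X * (1 + h * (m / n) + 4 ^ h * (m / n) ^ 2)) * n := by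
      apply mul_le_mul_of_nonneg_right _ hn0.le
      exact mul_le_mul_of_nonneg_left hB ht0
    refine this.trans ?_
    have e2 : t * (X * (1 + h * (m / n) + 4 ^ h * (m / n) ^ 2)) * n
        = t * X * n + t * X * h * m + t * (X * (4 ^ h * (m / n)) * m) := by
      field_simp
    rw [e2]
    have e3 : t * (X * (4 ^ h * (m / n)) * m) ≤ X * (γ / 4) * m := by
      calc t * (X * (4 ^ h * (m / n)) * m) ≤ 1 * (X * (4 ^ h * (m / n)) * m) := by
            apply mul_le_mul_of_nonneg_right ht1 (by positivity)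
        _ ≤ X * (γ / 4) * m := by
            rw [one_mul]
            apply mul_le_mul_of_nonneg_right _ hm0.le
            exact mul_le_mul_of_nonneg_left hm4 hX.le
    linarith
  have e4 : (t * X - h ^ 2 * X / n - D) * n + ((h * t + γ) * X - h * D) * m
      ≤ t * X * n + t * X * h * m + X * (γ / 4) * m := by
    refine le_trans (add_le_add ?_ ?_) (hkey.trans e1)
    · apply mul_le_mul_of_nonneg_right _ hn0.le; linarith
    · apply mul_le_mul_of_nonneg_right _ hm0.le; linarith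
  have e5 : (t * X - h ^ 2 * X / n - D) * n = t * X * n - h ^ 2 * X - D * n := by
    field_simp
  rw [e5] at e4
  have e6 : 3 / 4 * γ * X * m ≤ h ^ 2 * X + D * (n + h * m) := by nlinarith
  -- bounds on n in terms of m
  have e7 : n ≤ m * (8 * 4 ^ h / γ) := by
    have := hm2
    rw [div_mul_eq_mul_div, div_le_iff₀ (by positivity)] at this
    rw [mul_div_assoc', le_div_iff₀ hγ0]
    nlinarith
  have h5 : (h:ℝ) ≤ 4 ^ h / γ := by
    have : (h:ℝ) ≤ 4 ^ h := by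
      have : h < 4 ^ h := Nat.lt_pow_self (by norm_num)
      exact_mod_cast this.le
    rw [le_div_iff₀ hγ0]
    nlinarith
  have e8 : n + h * m ≤ m * (9 * 4 ^ h / γ) := by
    have : m * (9 * 4 ^ h / γ) = m * (8 * 4 ^ h / γ) + 4 ^ h / γ * m := by ring
    rw [this]
    have := mul_le_mul_of_nonneg_right h5 hm0.le
    linarith
  have e9 : h ^ 2 * X ≤ γ / 4 * X * m := by nlinarith
  have e10 : γ / 2 * X * m ≤ D * (m * (9 * 4 ^ h / γ)) := by
    have := mul_le_mul_of_nonneg_left e8 hD0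
    nlinarith
  have e11 : γ / 2 * X ≤ D * (9 * 4 ^ h / γ) := by
    have : (γ / 2 * X) * m ≤ (D * (9 * 4 ^ h / γ)) * m := by linarith
    exact le_of_mul_le_mul_right this hm0
  rw [hD] at e11
  have e12 : γ / 2 * X * n ^ 2 ≤ h ^ 2 * E * (9 * 4 ^ h / γ) * X := by
    have : h ^ 2 * (E * X / n ^ 2) * (9 * 4 ^ h / γ) = (h ^ 2 * E * (9 * 4 ^ h / γ) * X) / n ^ 2 := by
      field_simp
    rw [this, le_div_iff₀ (by positivity)] at e11
    exact e11
  have e13 : γ / 2 * n ^ 2 ≤ h ^ 2 * E * (9 * 4 ^ h / γ) := by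
    have : (γ / 2 * n ^ 2) * X ≤ (h ^ 2 * E * (9 * 4 ^ h / γ)) * X := by linarith
    exact le_of_mul_le_mul_right this hX
  unfold gc
  rw [div_mul_eq_mul_div, div_le_iff₀ (by positivity)]
  rw [mul_div_assoc', le_div_iff₀ hγ0] at e13
  nlinarith

theorem Ext.gain [Nonempty V] {H : SimpleGraph W} {G : SimpleGraph V} (hG : Ext H G)
    (hW : 1 ≤ Fintype.card W) (γ : ℝ) (hγ0 : 0 < γ) (hγ1 : γ ≤ 1)
    (hn : 32 * 4 ^ Fintype.card W * (Fintype.card W : ℝ) ^ 2 / γ ^ 2 ≤ Fintype.card V)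
    (S : V → Prop)
    (hF : (Fintype.card W * T H + γ) * (Fintype.card V : ℝ) ^ Fintype.card W
      ≤ ∑ u, F H G u S) :
    gc (Fintype.card W) γ * (Fintype.card V : ℝ) ^ 2 ≤ E2 G S := by
  set h := Fintype.card W with hh
  set n : ℝ := (Fintype.card V : ℝ) with hnn
  have hn0 : 0 < n := by rw [hnn]; exact_mod_cast (Fintype.card_pos (α := V))
  have h4 : (0:ℝ) < 4 ^ h := by positivity
  have h41 : (1:ℝ) ≤ 4 ^ h := one_le_pow₀ (by norm_num)
  have hhR : (1:ℝ) ≤ h := by exact_mod_cast hW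
  set μ : ℝ := γ / (4 * 4 ^ h) with hμ
  have hμ0 : 0 < μ := by positivity
  have hμ1 : μ ≤ 1 := by
    rw [hμ, div_le_one (by positivity)]; linarith
  have hμn : 8 * (h:ℝ) ^ 2 / γ ≤ μ * n := by
    calc 8 * (h:ℝ) ^ 2 / γ = μ * (32 * 4 ^ h * (h:ℝ) ^ 2 / γ ^ 2) := by
          rw [hμ]; field_simp; norm_num
      _ ≤ μ * n := mul_le_mul_of_nonneg_left hn hμ0.le
  have h8 : (8:ℝ) ≤ 8 * (h:ℝ) ^ 2 / γ := by
    rw [le_div_iff₀ hγ0]; nlinarith
  have hf1 : (⌊μ * n⌋₊ : ℝ) ≤ μ * n := Nat.floor_le (by positivity)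
  have hf2 : μ * n < ⌊μ * n⌋₊ + 1 := Nat.lt_floor_add_one _
  have hf3 : (0:ℝ) < (⌊μ * n⌋₊ : ℝ) := by linarith
  refine gain_aux h hW n (⌊μ * n⌋₊ : ℝ) (T H) (n ^ h) (hm H G) ((n + (⌊μ * n⌋₊ : ℝ)) ^ h)
    (∑ u, F H G u S) _ (E2 G S) γ hn0 (by positivity) (T_nonneg H) (T_le_one H) hγ0 hγ1 hf3 hf1
    (by linarith) ?_ (N_nonneg _) (hG.ij_ge'.trans (ij_le_hm H G)) hF rfl ?_
    (key1 H G hG.tf S ⌊μ * n⌋₊ _ rfl)
  · have h9 : 8 * (h:ℝ) ^ 2 / γ ≤ 2 * (⌊μ * n⌋₊ : ℝ) := by linarith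
    rw [div_le_iff₀ hγ0] at h9
    linarith
  · have h10 : n + (⌊μ * n⌋₊ : ℝ) = n * (1 + (⌊μ * n⌋₊ : ℝ) / n) := by field_simp
    rw [h10, mul_pow]
    apply mul_le_mul_of_nonneg_left _ (by positivity)
    apply one_add_pow_le
    · positivity
    · rw [div_le_one hn0]
      nlinarith

end Pool.Agent.H53.C9
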