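import Pool.Agent.H53.C9.Lim

/-! The key inequality: adding new vertices with a prescribed neighbourhood. -/

set_option linter.unusedSectionVars false
set_option linter.unusedSimpArgs false

open Finset

namespace Pool.Agent.H53.C9

variable {W V : Type*} [Fintype W] [Fintype V] [DecidableEq W] [DecidableEq V]

/-- ordered adjacent pairs inside `S` -/
noncomputable def E2 (G : SimpleGraph V) (S : V → Prop) : ℝ :=
  N (fun p : V × V => S p.1 ∧ S p.2 ∧ G.Adj p.1 p.2)

/-- ordered adjacent pairs between `A` and `B` -/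
noncomputable def EE (G : SimpleGraph V) (A B : V → Prop) : ℝ :=
  N (fun p : V × V => A p.1 ∧ B p.2 ∧ G.Adj p.1 p.2)

/-- partial homomorphisms, `u` being a free coordinate, with the neighbours of `u` mapped to `S` -/
def phom {W V : Type*} (H : SimpleGraph W) (G : SimpleGraph V) (u : W) (S : V → Prop)
    (φ : W → V) : Prop :=
  (∀ a b, a ≠ u → b ≠ u → H.Adj a b → G.Adj (φ a) (φ b)) ∧ (∀ a, H.Adj u a → S (φ a))

noncomputable def F (H : SimpleGraph W) (G : SimpleGraph V) (u : W) (S : V → Prop) : ℝ :=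
  N (fun φ : W → V => phom H G u S φ)

/-- delete the edges inside `S` -/
def del {V : Type*} (G : SimpleGraph V) (S : V → Prop) : SimpleGraph V where
  Adj x y := G.Adj x y ∧ ¬ (S x ∧ S y)
  symm := ⟨fun _ _ h => ⟨h.1.symm, fun h' => h.2 ⟨h'.2, h'.1⟩⟩⟩
  loopless := ⟨fun _ h => h.1.ne rfl⟩

/-- add `m` new vertices joined to `S` -/
def addv {V : Type*} (G : SimpleGraph V) (S : V → Prop) (m : ℕ) : SimpleGraph (V ⊕ Fin m) where
  Adj x y := match x, y with
    | Sum.inl x, Sum.inl y => (del G S).Adj x y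
    | Sum.inl x, Sum.inr _ => S x
    | Sum.inr _, Sum.inl y => S y
    | Sum.inr _, Sum.inr _ => False
  symm := ⟨by
    rintro (x | x) (y | y) h
    · exact SimpleGraph.Adj.symm h
    · exact h
    · exact h
    · exact h⟩
  loopless := ⟨by
    rintro (x | x) h
    · exact (del G S).irrefl h
    · exact h⟩

theorem addv_TF {V : Type*} (G : SimpleGraph V) (hG : TF G) (S : V → Prop) (m : ℕ) :
    TF (addv G S m) := by
  rintro (x | x) (y | y) (z | z) h1 h2 h3
  · exact hG x y z h1.1 h2.1 h3.1
  · exact h1.2 ⟨h3, h2⟩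
  · exact h3.2 ⟨h1, h2⟩
  · exact h2
  · exact h2.2 ⟨h1, h3⟩
  · exact h3
  · exact h1
  · exact h1

theorem bad_le (H : SimpleGraph W) (G : SimpleGraph V) (S : V → Prop) [Nonempty V] :
    N (fun φ : W → V => ∃ p : W × W, H.Adj p.1 p.2 ∧ S (φ p.1) ∧ S (φ p.2) ∧ G.Adj (φ p.1) (φ p.2))
      ≤ (Fintype.card W : ℝ) ^ 2 * (E2 G S * (Fintype.card V : ℝ) ^ Fintype.card W
          / (Fintype.card V : ℝ) ^ 2) := by
  have h0 : (0:ℝ) < Fintype.card V := by exact_mod_cast (Fintype.card_pos (α := V))
  refine (N_exists_le (fun (p : W × W) (φ : W → V) =>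
    H.Adj p.1 p.2 ∧ S (φ p.1) ∧ S (φ p.2) ∧ G.Adj (φ p.1) (φ p.2))).trans ?_
  have h1 : ∀ p : W × W, N (fun φ : W → V =>
      H.Adj p.1 p.2 ∧ S (φ p.1) ∧ S (φ p.2) ∧ G.Adj (φ p.1) (φ p.2))
      ≤ E2 G S * (Fintype.card V : ℝ) ^ Fintype.card W / (Fintype.card V : ℝ) ^ 2 := by
    rintro ⟨a, b⟩
    by_cases hab : H.Adj a b
    · rw [le_div_iff₀ (by positivity)]
      have := N_pair (V := V) a b hab.ne (fun x y => S x ∧ S y ∧ G.Adj x y)
      unfold E2
      rw [← this]
      apply mul_le_mul_of_nonneg_right _ (by positivity)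
      apply N_mono
      intro φ h; exact h.2
    · have : N (fun φ : W → V => H.Adj a b ∧ S (φ a) ∧ S (φ b) ∧ G.Adj (φ a) (φ b)) = 0 := by
        rw [N_eq_sum]; simp [hab]
      simp only [this]
      have := N_nonneg (fun p : V × V => S p.1 ∧ S p.2 ∧ G.Adj p.1 p.2)
      unfold E2
      positivity
  refine (Finset.sum_le_sum (fun p _ => h1 p)).trans (le_of_eq ?_)
  rw [Finset.sum_const, Finset.card_univ, Fintype.card_prod, nsmul_eq_mul]
  push_cast
  ring

theorem key0 [Nonempty V] (H : SimpleGraph W) (G : SimpleGraph V) (hG : TF G) (S : V → Prop)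
    (m : ℕ) :
    hm H (del G S) * Fintype.card V + (∑ u, F H (del G S) u S) * m
      ≤ (T H * ((Fintype.card V : ℝ) + m) ^ Fintype.card W) * Fintype.card V := by
  classical
  have hT := hm_le_T H _ (addv_TF G hG S m)
  rw [Fintype.card_sum, Fintype.card_fin, Nat.cast_add] at hT
  refine le_trans ?_ (mul_le_mul_of_nonneg_right hT (by positivity))
  unfold hm
  rw [← N_prod_left, ← N_prod_left]
  have h2 : (∑ u, F H (del G S) u S) * m
      = N (fun q : W × ((W → V) × Fin m) => phom H (del G S) q.1 S q.2.1) := by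
    rw [N_fiber, Finset.sum_mul]
    apply Finset.sum_congr rfl
    intro u _
    simp only
    rw [N_prod_left (β := Fin m) (fun φ : W → V => phom H (del G S) u S φ), Fintype.card_fin]
    rfl
  rw [h2]
  refine le_trans (le_of_eq (N_sum_type (fun q : ((W → V) × V) ⊕ (W × ((W → V) × Fin m)) =>
    Sum.elim (fun q : (W → V) × V => hom H (del G S) q.1)
      (fun q : W × ((W → V) × Fin m) => phom H (del G S) q.1 S q.2.1) q)).symm) ?_
  apply N_le_of_inj (fun q : ((W → V) × V) ⊕ (W × ((W → V) × Fin m)) =>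
    Sum.elim (fun q : (W → V) × V => ((fun a => Sum.inl (q.1 a) : W → V ⊕ Fin m), q.2))
      (fun q : W × ((W → V) × Fin m) =>
        (Function.update (fun a => Sum.inl (q.2.1 a) : W → V ⊕ Fin m) q.1 (Sum.inr q.2.2),
          q.2.1 q.1)) q)
  · rintro (⟨φ, v⟩ | ⟨u, φ, j⟩) h
    · simp only [Sum.elim_inl] at h ⊢
      intro a b hab
      exact h a b hab
    · simp only [Sum.elim_inr] at h ⊢
      intro a b hab
      by_cases ha : a = u
      · subst ha
        have hb : b ≠ a := hab.ne'
        rw [Function.update_self, Function.update_of_ne hb]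
        exact h.2 b hab
      · by_cases hb : b = u
        · subst hb
          rw [Function.update_self, Function.update_of_ne ha]
          exact h.2 a hab.symm
        · rw [Function.update_of_ne ha, Function.update_of_ne hb]
          exact h.1 a b ha hb hab
  · rintro (⟨φ, v⟩ | ⟨u, φ, j⟩) (⟨φ', v'⟩ | ⟨u', φ', j'⟩) _ _ h
    · simp only [Sum.elim_inl, Prod.mk.injEq] at h
      obtain ⟨h1, h2⟩ := h
      subst h2
      have : φ = φ' := by
        funext a
        exact Sum.inl_injective (congrFun h1 a)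
      rw [this]
    · simp only [Sum.elim_inl, Sum.elim_inr, Prod.mk.injEq] at h
      have := congrFun h.1 u'
      rw [Function.update_self] at this
      exact absurd this (by simp)
    · simp only [Sum.elim_inl, Sum.elim_inr, Prod.mk.injEq] at h
      have := congrFun h.1 u
      rw [Function.update_self] at this
      exact absurd this (by simp)
    · simp only [Sum.elim_inr, Prod.mk.injEq] at h
      obtain ⟨h1, h2⟩ := h
      have huu : u = u' := by
        by_contra hne
        have := congrFun h1 u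
        rw [Function.update_self, Function.update_of_ne hne] at this
        exact absurd this (by simp)
      subst huu
      have h3 := congrFun h1 u
      rw [Function.update_self, Function.update_self] at h3
      have hj := Sum.inr_injective h3
      subst hj
      have : φ = φ' := by
        funext a
        by_cases ha : a = u
        · rw [ha]; exact h2
        · have h4 := congrFun h1 a
          rw [Function.update_of_ne ha, Function.update_of_ne ha] at h4
          exact Sum.inl_injective h4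
      rw [this]

/-- the key inequality -/
theorem key1 [Nonempty V] (H : SimpleGraph W) (G : SimpleGraph V) (hG : TF G) (S : V → Prop)
    (m : ℕ) (D : ℝ)
    (hD : D = (Fintype.card W : ℝ) ^ 2 * (E2 G S * (Fintype.card V : ℝ) ^ Fintype.card W
          / (Fintype.card V : ℝ) ^ 2)) :
    (hm H G - D) * Fintype.card V + (∑ u, F H G u S - Fintype.card W * D) * m
      ≤ (T H * ((Fintype.card V : ℝ) + m) ^ Fintype.card W) * Fintype.card V := by
  classical
  have hb := bad_le H G S
  rw [← hD] at hb
  have h1 : hm H G ≤ hm H (del G S) + D := by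
    refine le_trans ?_ (add_le_add_right hb _)
    refine le_trans ?_ (N_or_le _ _)
    apply N_mono
    intro φ h
    by_cases hc : ∃ p : W × W, H.Adj p.1 p.2 ∧ S (φ p.1) ∧ S (φ p.2) ∧ G.Adj (φ p.1) (φ p.2)
    · exact Or.inr hc
    · left
      intro a b hab
      refine ⟨h a b hab, fun hS => hc ⟨(a, b), hab, hS.1, hS.2, h a b hab⟩⟩
  have h2 : ∀ u, F H G u S ≤ F H (del G S) u S + D := by
    intro u
    refine le_trans ?_ (add_le_add_right hb _)
    refine le_trans ?_ (N_or_le _ _)
    apply N_mono
    intro φ h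
    by_cases hc : ∃ p : W × W, H.Adj p.1 p.2 ∧ S (φ p.1) ∧ S (φ p.2) ∧ G.Adj (φ p.1) (φ p.2)
    · exact Or.inr hc
    · left
      refine ⟨?_, h.2⟩
      intro a b ha hb hab
      refine ⟨h.1 a b ha hb hab, fun hS => hc ⟨(a, b), hab, hS.1, hS.2, h.1 a b ha hb hab⟩⟩
  have h3 : ∑ u, F H G u S - Fintype.card W * D ≤ ∑ u, F H (del G S) u S := by
    have := Finset.sum_le_sum (fun u (_ : u ∈ univ) => h2 u)
    rw [Finset.sum_add_distrib, Finset.sum_const, Finset.card_univ, nsmul_eq_mul] at this
    linarith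
  refine le_trans (add_le_add ?_ ?_) (key0 H G hG S m)
  · exact mul_le_mul_of_nonneg_right (by linarith) (by positivity)
  · exact mul_le_mul_of_nonneg_right h3 (by positivity)

theorem one_add_pow_le (μ : ℝ) (h0 : 0 ≤ μ) (h1 : μ ≤ 1) (h : ℕ) :
    (1 + μ) ^ h ≤ 1 + h * μ + 4 ^ h * μ ^ 2 := by
  induction h with
  | zero => simp; positivity
  | succ k ih =>
    rw [pow_succ]
    have h4 : (k:ℝ) ≤ 4 ^ k := by
      have : k < 4 ^ k := Nat.lt_pow_self (by norm_num)
      exact_mod_cast this.le
    calc (1 + μ) ^ k * (1 + μ) ≤ (1 + k * μ + 4 ^ k * μ ^ 2) * (1 + μ) :=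
          mul_le_mul_of_nonneg_right ih (by positivity)
      _ ≤ _ := by
          push_cast
          rw [pow_succ (4:ℝ) k]
          have hk : (0:ℝ) ≤ 4 ^ k := by positivity
          nlinarith [mul_nonneg hk (mul_nonneg h0 (mul_nonneg h0 (sub_nonneg.2 h1))),
            mul_nonneg (sub_nonneg.2 h4) (mul_nonneg h0 h0), mul_nonneg hk (mul_nonneg h0 h0)]

end Pool.Agent.H53.C9
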