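import Pool.Agent.H53.C9.Count

/-! Homomorphism counts in triangle-free graphs and the limit density. -/

set_option linter.unusedSectionVars false
set_option linter.unusedSimpArgs false

open Finset

namespace Pool.Agent.H53.C9

variable {W V : Type*} [Fintype W] [Fintype V] [DecidableEq W] [DecidableEq V]

/-- triangle-free, pointwise -/
def TF {V : Type*} (G : SimpleGraph V) : Prop :=
  ∀ x y z, G.Adj x y → G.Adj y z → G.Adj x z → False

theorem TF_iff {V : Type*} (G : SimpleGraph V) : TF G ↔ G.CliqueFree 3 := by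
  classical
  constructor
  · intro h s hs
    rw [SimpleGraph.is3Clique_iff] at hs
    obtain ⟨a, b, c, hab, hac, hbc, -⟩ := hs
    exact h a b c hab hbc hac
  · intro h x y z hxy hyz hxz
    exact h {x, y, z} (SimpleGraph.is3Clique_iff.2 ⟨x, y, z, hxy, hxz, hyz, rfl⟩)

theorem TF.comap {V V' : Type*} {G : SimpleGraph V} (h : TF G) (f : V' → V) : TF (G.comap f) :=
  fun x y z h1 h2 h3 => h (f x) (f y) (f z) h1 h2 h3

/-- homomorphism -/
def hom {W V : Type*} (H : SimpleGraph W) (G : SimpleGraph V) (φ : W → V) : Prop :=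
  ∀ a b, H.Adj a b → G.Adj (φ a) (φ b)

/-- number of homomorphisms -/
noncomputable def hm (H : SimpleGraph W) (G : SimpleGraph V) : ℝ := N (fun φ : W → V => hom H G φ)

/-- number of injective homomorphisms -/
noncomputable def ij (H : SimpleGraph W) (G : SimpleGraph V) : ℝ :=
  N (fun φ : W → V => Function.Injective φ ∧ hom H G φ)

theorem ij_le_hm (H : SimpleGraph W) (G : SimpleGraph V) : ij H G ≤ hm H G :=
  N_mono fun _ h => h.2

theorem hm_le (H : SimpleGraph W) (G : SimpleGraph V) :
    hm H G ≤ (Fintype.card V : ℝ) ^ Fintype.card W := by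
  rw [← card_maps]; exact N_le_card _

theorem hm_le_ij (H : SimpleGraph W) (G : SimpleGraph V) :
    hm H G ≤ ij H G + N (fun φ : W → V => ¬ Function.Injective φ) := by
  refine le_trans ?_ (N_or_le _ _)
  apply N_mono
  intro φ h
  by_cases h1 : Function.Injective φ
  · exact Or.inl ⟨h1, h⟩
  · exact Or.inr h1

/-- the set of densities -/
def densSet (H : SimpleGraph W) : Set ℝ :=
  {r | ∃ m : ℕ, 0 < m ∧ ∃ Γ : SimpleGraph (Fin m), TF Γ ∧ r = hm H Γ / (m : ℝ) ^ Fintype.card W}

/-- the limit density -/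
noncomputable def T (H : SimpleGraph W) : ℝ := sSup (densSet H)

theorem densSet_bdd (H : SimpleGraph W) : BddAbove (densSet H) := by
  refine ⟨1, ?_⟩
  rintro r ⟨m, hm0, Γ, -, rfl⟩
  have h1 := hm_le H Γ
  rw [Fintype.card_fin] at h1
  have : (0:ℝ) < (m:ℝ) ^ Fintype.card W := by positivity
  rw [div_le_one this]; exact h1

theorem T_le_one (H : SimpleGraph W) : T H ≤ 1 := by
  apply Real.sSup_le _ zero_le_one
  rintro r ⟨m, hm0, Γ, -, rfl⟩
  have h1 := hm_le H Γ
  rw [Fintype.card_fin] at h1
  have : (0:ℝ) < (m:ℝ) ^ Fintype.card W := by positivity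
  rw [div_le_one this]; exact h1

theorem hm_comap_equiv {V' : Type*} [Fintype V'] [DecidableEq V'] (H : SimpleGraph W)
    (G : SimpleGraph V) (e : V' ≃ V) : hm H (G.comap e) = hm H G := by
  unfold hm
  rw [← N_equiv (Equiv.arrowCongr (Equiv.refl W) e)]
  apply N_congr
  intro φ
  simp [hom]

theorem hm_le_T [Nonempty V] (H : SimpleGraph W) (G : SimpleGraph V) (hG : TF G) :
    hm H G ≤ T H * (Fintype.card V : ℝ) ^ Fintype.card W := by
  have h0 : 0 < Fintype.card V := Fintype.card_pos
  have h1 : hm H G / (Fintype.card V : ℝ) ^ Fintype.card W ≤ T H := by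
    apply le_csSup (densSet_bdd H)
    refine ⟨Fintype.card V, h0, G.comap (Fintype.equivFin V).symm, hG.comap _, ?_⟩
    rw [hm_comap_equiv]
  have : (0:ℝ) < (Fintype.card V:ℝ) ^ Fintype.card W := by positivity
  rwa [div_le_iff₀ this] at h1

theorem T_ge (H : SimpleGraph W) (col : W → Bool) (hcol : ∀ a b, H.Adj a b → col a ≠ col b) :
    (1 / 2 : ℝ) ^ Fintype.card W ≤ T H := by
  have h1 : TF (⊤ : SimpleGraph Bool) := by
    intro x y z hxy hyz hxz
    simp only [SimpleGraph.top_adj] at hxy hyz hxz
    revert hxy hyz hxz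
    revert x y z
    decide
  have h2 := hm_le_T H _ h1
  have h3 : (1:ℝ) ≤ hm H (⊤ : SimpleGraph Bool) := by
    have : (1:ℝ) = N (fun φ : W → Bool => φ = col) := by
      rw [N_eq_card]
      have h : (univ.filter (fun φ : W → Bool => φ = col)) = {col} := by
        ext φ; simp
      rw [h]; simp
    rw [this]
    apply N_mono
    rintro φ rfl a b hab
    exact hcol a b hab
  rw [Fintype.card_bool] at h2
  rw [one_div, inv_pow]
  rw [inv_le_iff_one_le_mul₀ (by positivity)]
  exact_mod_cast h3.trans h2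

/-- extremal graphs -/
structure Ext (H : SimpleGraph W) (G : SimpleGraph V) : Prop where
  tf : TF G
  max : ∀ G' : SimpleGraph V, TF G' → ij H G' ≤ ij H G

theorem Ext.ij_ge [Nonempty V] {H : SimpleGraph W} {G : SimpleGraph V} (hG : Ext H G) :
    T H * N (fun φ : W → V => Function.Injective φ) ≤ ij H G := by
  classical
  have h0 : 0 < Fintype.card V := Fintype.card_pos
  -- suffices for each density
  have key : ∀ r ∈ densSet H, r * N (fun φ : W → V => Function.Injective φ) ≤ ij H G := by
    rintro r ⟨m, hm0, Γ, hΓ, rfl⟩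
    have hmR : (0:ℝ) < m := by exact_mod_cast hm0
    have h1 : ∀ φ : W → V, Function.Injective φ →
        N (fun s : V → Fin m => hom H Γ (s ∘ φ)) * (m:ℝ) ^ Fintype.card W
          = (m:ℝ) ^ Fintype.card V * hm H Γ := by
      intro φ hφ
      have := sum_comp_inj (M := Fin m) φ hφ (fun ψ => if hom H Γ ψ then (1:ℝ) else 0)
      rw [Fintype.card_fin] at this
      rw [N_eq_sum, hm, N_eq_sum]
      exact this
    have h2 : ∑ s : V → Fin m, ij H (Γ.comap s)
        = ∑ φ : W → V, if Function.Injective φ then N (fun s : V → Fin m => hom H Γ (s ∘ φ)) else 0 := by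
      simp only [ij, N_eq_sum]
      rw [Finset.sum_comm]
      apply Finset.sum_congr rfl
      intro φ _
      by_cases hφ : Function.Injective φ
      · simp only [hφ, true_and, if_true]
        rfl
      · simp [hφ]
    have h3 : ∑ s : V → Fin m, ij H (Γ.comap s) ≤ (m:ℝ) ^ Fintype.card V * ij H G := by
      have : ∑ s : V → Fin m, ij H (Γ.comap s) ≤ ∑ _s : V → Fin m, ij H G :=
        Finset.sum_le_sum (fun s _ => hG.max _ (hΓ.comap s))
      simpa using this
    have h4 : (∑ s : V → Fin m, ij H (Γ.comap s)) * (m:ℝ) ^ Fintype.card W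
        = (m:ℝ) ^ Fintype.card V * hm H Γ * N (fun φ : W → V => Function.Injective φ) := by
      rw [h2, Finset.sum_mul, N_eq_sum, Finset.mul_sum]
      apply Finset.sum_congr rfl
      intro φ _
      by_cases hφ : Function.Injective φ
      · simp only [hφ, if_true, mul_one]
        exact h1 φ hφ
      · simp [hφ]
    have h5 : (m:ℝ) ^ Fintype.card V * (hm H Γ * N (fun φ : W → V => Function.Injective φ))
        ≤ (m:ℝ) ^ Fintype.card V * (ij H G * (m:ℝ) ^ Fintype.card W) := by
      rw [← mul_assoc, ← h4]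
      calc _ ≤ ((m:ℝ) ^ Fintype.card V * ij H G) * (m:ℝ) ^ Fintype.card W :=
            mul_le_mul_of_nonneg_right h3 (by positivity)
        _ = _ := by ring
    have h6 := le_of_mul_le_mul_left h5 (by positivity)
    rw [div_mul_eq_mul_div, div_le_iff₀ (by positivity)]
    exact h6
  have hI0 : 0 ≤ N (fun φ : W → V => Function.Injective φ) := N_nonneg _
  rcases hI0.eq_or_lt with h | h
  · rw [← h, mul_zero]; exact N_nonneg _
  · rw [← le_div_iff₀ h]
    apply Real.sSup_le
    · intro r hr
      rw [le_div_iff₀ h]; exact key r hr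
    · apply div_nonneg (N_nonneg _) hI0

theorem T_nonneg (H : SimpleGraph W) : 0 ≤ T H := by
  apply Real.sSup_nonneg
  rintro r ⟨m, hm0, Γ, -, rfl⟩
  have := N_nonneg (fun φ : W → Fin m => hom H Γ φ)
  unfold hm
  positivity

/-- asymptotic form -/
theorem Ext.ij_ge' [Nonempty V] {H : SimpleGraph W} {G : SimpleGraph V} (hG : Ext H G) :
    T H * (Fintype.card V : ℝ) ^ Fintype.card W
      - (Fintype.card W : ℝ) ^ 2 * (Fintype.card V : ℝ) ^ Fintype.card W / Fintype.card V
      ≤ ij H G := by
  have h0 : (0:ℝ) < Fintype.card V := by exact_mod_cast (Fintype.card_pos (α := V))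
  have h1 := hG.ij_ge
  have h2 := N_not_inj (W := W) (V := V)
  have h3 := N_split (fun _ : W → V => True) (fun φ => Function.Injective φ)
  rw [N_true, card_maps] at h3
  simp only [true_and] at h3
  have hT := T_nonneg H
  have hT1 := T_le_one H
  rw [← le_div_iff₀ h0] at h2
  have h5 : N (fun φ : W → V => Function.Injective φ) ≥
      (Fintype.card V : ℝ) ^ Fintype.card W -
        (Fintype.card W : ℝ) ^ 2 * (Fintype.card V : ℝ) ^ Fintype.card W / Fintype.card V := by
    linarith
  have h6 : (0:ℝ) ≤ (Fintype.card W : ℝ) ^ 2 * (Fintype.card V : ℝ) ^ Fintype.card W / Fintype.card V := by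
    positivity
  nlinarith [mul_le_mul_of_nonneg_left h5 hT, mul_le_mul_of_nonneg_right hT1 h6]

end Pool.Agent.H53.C9
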