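import Pool.Agent.H53.C9.Types

/-! Extremal graphs are blow-ups of one fixed graph. -/

set_option linter.unusedSectionVars false
set_option linter.unusedSimpArgs false

open Finset

namespace Pool.Agent.H53.C9

/-- `G` is a blow-up of `G₀`: the vertex `i` of `G₀` is replaced by the set of all `x` with
`f x = i` -/
def IsBlowup {V V₀ : Type*} (G : SimpleGraph V) (G₀ : SimpleGraph V₀) : Prop :=
  ∃ f : V → V₀, ∀ x y, G.Adj x y ↔ G₀.Adj (f x) (f y)

theorem IsBlowup.of_equiv {V V₀ V₁ : Type*} {G : SimpleGraph V} {G₀ : SimpleGraph V₀}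
    (h : IsBlowup G G₀) (e : V₁ ≃ V₀) : IsBlowup G (G₀.comap e) := by
  obtain ⟨f, hf⟩ := h
  refine ⟨fun x => e.symm (f x), fun x y => ?_⟩
  rw [SimpleGraph.comap_adj, Equiv.apply_symm_apply, Equiv.apply_symm_apply]
  exact hf x y

/-- a graph with few distinct neighbourhoods is a blow-up of a small graph -/
theorem blowup_of_few {V : Type*} [Fintype V] [Nonempty V] (G : SimpleGraph V) (hG : TF G) (M : ℕ)
    (hM : Nat.card {s : V → Prop // ∃ x, s = G.Adj x} ≤ M) :
    ∃ Γ : SimpleGraph (Fin M), TF Γ ∧ IsBlowup G Γ := by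
  classical
  rw [Nat.card_eq_fintype_card] at hM
  obtain ⟨e⟩ : Nonempty ({s : V → Prop // ∃ x, s = G.Adj x} ↪ Fin M) :=
    Function.Embedding.nonempty_of_card_le (by rw [Fintype.card_fin]; exact hM)
  let f : V → Fin M := fun x => e ⟨G.Adj x, x, rfl⟩
  have hf : ∀ x y, f x = f y → ∀ z, G.Adj x z ↔ G.Adj y z := by
    intro x y h z
    have h1 := congrArg Subtype.val (e.injective h)
    simp only at h1
    rw [h1]
  let s : Fin M → V := Function.invFun f
  have hs : ∀ x, f (s (f x)) = f x := fun x => Function.invFun_eq ⟨x, rfl⟩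
  refine ⟨G.comap s, hG.comap s, f, fun x y => ?_⟩
  rw [SimpleGraph.comap_adj, hf _ _ (hs x) (s (f y)), G.adj_comm x (s (f y)),
    hf _ _ (hs y) x, G.adj_comm x y]

variable {W : Type*} [Fintype W] [DecidableEq W]

/-- bounded number of distinct neighbourhoods -/
theorem Ext.few {V : Type*} [Fintype V] [DecidableEq V] [Nonempty V] {H : SimpleGraph W}
    {G : SimpleGraph V} (hG : Ext H G)
    (col : W → Bool) (hcol : ∀ a b, H.Adj a b → col a ≠ col b)
    (u₀ v₀ c₀ : W) (huv : u₀ ≠ v₀) (hu₀ : H.Adj u₀ c₀) (hv₀ : H.Adj v₀ c₀)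
    (t : ℝ) (ht : 0 < t) (htT : t ≤ T H)
    (hb : Big (Fintype.card W) t (Fintype.card V))
    (τ : ℕ) (hτ : 8 < cs (Fintype.card W) t ^ 2 * τ) :
    Nat.card {s : V → Prop // ∃ x, s = G.Adj x} ≤ 2 ^ (τ + 1) := by
  classical
  have hW : 1 ≤ Fintype.card W := Fintype.card_pos_iff.2 ⟨u₀⟩
  rw [Nat.card_eq_fintype_card]
  apply types_bound G (fun (s : {s : V → Prop // ∃ x, s = G.Adj x}) => s.1) ?_
    (cs (Fintype.card W) t) (cs_pos _ hW t ht) ?_ τ hτ
  · rintro ⟨s, x, rfl⟩ a b ha hb' hab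
    exact hG.tf x a b ha hab hb'
  · rintro ⟨s, x, rfl⟩ ⟨s', y, rfl⟩ hne
    apply hG.sep col hcol u₀ v₀ c₀ huv hu₀ hv₀ t ht htT hb x y
    intro h
    apply hne
    apply Subtype.ext
    funext z
    exact propext (h z)

end Pool.Agent.H53.C9
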