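import Pool.Agent.H53.C9.Key

/-! Graphs of maximum degree at most one: the balanced complete bipartite graph is optimal. -/

set_option linter.unusedSectionVars false
set_option linter.unusedSimpArgs false

open Finset

namespace Pool.Agent.H53.C9

theorem mantel_real {V : Type*} [Fintype V] [DecidableEq V] (G : SimpleGraph V) (hG : TF G)
    (U : V → Prop) : 2 * E2 G U ≤ N U ^ 2 := by
  classical
  set d : V → ℝ := fun x => N (fun y => U y ∧ G.Adj x y) with hd
  have hd0 : ∀ x, 0 ≤ d x := fun x => N_nonneg _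
  have he : E2 G U = ∑ x, if U x then d x else 0 := by
    unfold E2
    rw [N_fiber]
    apply Finset.sum_congr rfl
    intro x _
    split_ifs with hx
    · apply N_congr; intro b; simp [hx]
    · rw [N_eq_sum]; simp [hx]
  have h1 : ∀ x y, G.Adj x y → d x + d y ≤ N U := by
    intro x y hxy
    apply N_add_le
    · intro z hz; exact hz.1
    · intro z hz; exact hz.1
    · intro z h1 h2
      exact hG x y z hxy h2.2 h1.2
  have h2 : ∑ x, ∑ y, (if U x ∧ U y ∧ G.Adj x y then (d x + d y) else 0)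
      ≤ E2 G U * N U := by
    have e1 : E2 G U * N U = ∑ x, ∑ y, (if U x ∧ U y ∧ G.Adj x y then N U else 0) := by
      unfold E2
      rw [N_eq_sum', Fintype.sum_prod_type, Finset.sum_mul]
      apply Finset.sum_congr rfl
      intro x _
      rw [Finset.sum_mul]
      apply Finset.sum_congr rfl
      intro y _
      split_ifs <;> simp
    rw [e1]
    apply Finset.sum_le_sum; intro x _
    apply Finset.sum_le_sum; intro y _
    split_ifs with h
    · exact h1 x y h.2.2
    · exact le_rfl
  have h3 : ∑ x, ∑ y, (if U x ∧ U y ∧ G.Adj x y then (d x + d y) else 0)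
      = 2 * ∑ x, if U x then d x ^ 2 else 0 := by
    have e1 : ∑ x, ∑ y, (if U x ∧ U y ∧ G.Adj x y then (d x + d y) else 0)
        = ∑ x, ∑ y, (if U x ∧ U y ∧ G.Adj x y then d x else 0)
          + ∑ x, ∑ y, (if U x ∧ U y ∧ G.Adj x y then d y else 0) := by
      rw [← Finset.sum_add_distrib]
      apply Finset.sum_congr rfl; intro x _
      rw [← Finset.sum_add_distrib]
      apply Finset.sum_congr rfl; intro y _
      split_ifs <;> simp
    have e2 : ∑ x, ∑ y, (if U x ∧ U y ∧ G.Adj x y then d y else 0)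
        = ∑ x, ∑ y, (if U x ∧ U y ∧ G.Adj x y then d x else 0) := by
      rw [Finset.sum_comm]
      apply Finset.sum_congr rfl; intro x _
      apply Finset.sum_congr rfl; intro y _
      have : (U y ∧ U x ∧ G.Adj y x) ↔ (U x ∧ U y ∧ G.Adj x y) := by
        rw [G.adj_comm y x]; tauto
      simp only [this]
    have e3 : ∀ x, ∑ y, (if U x ∧ U y ∧ G.Adj x y then d x else 0) = if U x then d x ^ 2 else 0 := by
      intro x
      split_ifs with hx
      · have e4 : d x = ∑ y, if U y ∧ G.Adj x y then (1:ℝ) else 0 := N_eq_sum' _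
        calc ∑ y, (if U x ∧ U y ∧ G.Adj x y then d x else 0)
            = (∑ y, if U y ∧ G.Adj x y then (1:ℝ) else 0) * d x := by
              rw [Finset.sum_mul]
              apply Finset.sum_congr rfl; intro y _
              simp only [hx, true_and]
              split_ifs <;> simp
          _ = d x ^ 2 := by rw [← e4, pow_two]
      · simp [hx]
    rw [e1, e2, Finset.sum_congr rfl (fun x _ => e3 x)]
    ring
  have h4 : (E2 G U) ^ 2 ≤ N U * ∑ x, if U x then d x ^ 2 else 0 := by
    have e1 := sq_sum_le_card_mul_sum_sq (s := univ.filter U) (f := d)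
    rw [Finset.sum_filter, Finset.sum_filter, ← N_eq_card] at e1
    rw [he]
    exact e1
  rw [h3] at h2
  have hE0 : 0 ≤ E2 G U := N_nonneg _
  have hU0 : 0 ≤ N U := N_nonneg _
  rcases hE0.eq_or_lt with h | h
  · rw [← h, mul_zero]; positivity
  · have h5 : 2 * E2 G U * E2 G U ≤ N U ^ 2 * E2 G U := by nlinarith
    exact le_of_mul_le_mul_right h5 h

theorem E2_even {n : ℕ} (G : SimpleGraph (Fin n)) (U : Fin n → Prop) :
    ∃ k : ℕ, E2 G U = 2 * k := by
  classical
  refine ⟨(univ.filter (fun p : Fin n × Fin n => (U p.1 ∧ U p.2 ∧ G.Adj p.1 p.2) ∧ p.1 < p.2)).card,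
    ?_⟩
  unfold E2
  rw [N_split _ (fun p : Fin n × Fin n => p.1 < p.2)]
  have h1 : N (fun p : Fin n × Fin n => (U p.1 ∧ U p.2 ∧ G.Adj p.1 p.2) ∧ ¬ p.1 < p.2)
      = N (fun p : Fin n × Fin n => (U p.1 ∧ U p.2 ∧ G.Adj p.1 p.2) ∧ p.1 < p.2) := by
    rw [← N_equiv (Equiv.prodComm (Fin n) (Fin n))
      (fun p : Fin n × Fin n => (U p.1 ∧ U p.2 ∧ G.Adj p.1 p.2) ∧ p.1 < p.2)]
    apply N_congr
    rintro ⟨a, b⟩
    simp only [Equiv.prodComm_apply, Prod.swap_prod_mk]
    constructor
    · rintro ⟨⟨h1, h2, h3⟩, h4⟩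
      exact ⟨⟨h2, h1, h3.symm⟩, lt_of_le_of_ne (not_lt.1 h4) h3.ne'⟩
    · rintro ⟨⟨h1, h2, h3⟩, h4⟩
      exact ⟨⟨h2, h1, h3.symm⟩, not_lt.2 h4.le⟩
  rw [h1, N_eq_card]
  ring

/-- Mantel's theorem, ordered pairs inside a set of `m` vertices -/
theorem mantel_fin {n : ℕ} (G : SimpleGraph (Fin n)) (hG : TF G) (U : Fin n → Prop) (m : ℕ)
    (hm : N U = m) : E2 G U ≤ 2 * ((m ^ 2 / 4 : ℕ) : ℝ) := by
  obtain ⟨k, hk⟩ := E2_even G U
  have h1 := mantel_real G hG U
  rw [hk, hm] at h1
  have h2 : k * 4 ≤ m ^ 2 := by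
    have : ((k * 4 : ℕ) : ℝ) ≤ ((m ^ 2 : ℕ) : ℝ) := by push_cast; linarith
    exact_mod_cast this
  have h3 : k ≤ m ^ 2 / 4 := (Nat.le_div_iff_mul_le (by norm_num)).2 h2
  rw [hk]
  have : (k : ℝ) ≤ ((m ^ 2 / 4 : ℕ) : ℝ) := by exact_mod_cast h3
  linarith

variable {W : Type*} [Fintype W] [DecidableEq W]

/-- injective homomorphism on a set of coordinates -/
def Qd {V : Type*} (H : SimpleGraph W) (G : SimpleGraph V) (D : Finset W) (φ : W → V) : Prop :=
  Set.InjOn φ D ∧ ∀ a ∈ D, ∀ b ∈ D, H.Adj a b → G.Adj (φ a) (φ b)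

theorem Qd_edge {V : Type*} [DecidableEq V] (H : SimpleGraph W) (G : SimpleGraph V)
    (hH : ∀ a b c, H.Adj a b → H.Adj a c → b = c) (D : Finset W) (a b : W)
    (ha : a ∉ D) (hb : b ∉ D) (hab : H.Adj a b) (φ : W → V) (v w : V) :
    Qd H G (insert a (insert b D)) (Function.update (Function.update φ a v) b w) ↔
      Qd H G D φ ∧ ((¬ ∃ c ∈ D, φ c = v) ∧ (¬ ∃ c ∈ D, φ c = w) ∧ G.Adj v w) := by
  have hne : a ≠ b := hab.ne
  set ψ := Function.update (Function.update φ a v) b w with hψ
  have hψb : ψ b = w := by rw [hψ, Function.update_self]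
  have hψa : ψ a = v := by rw [hψ, Function.update_of_ne hne, Function.update_self]
  have hψc : ∀ c ∈ D, ψ c = φ c := by
    intro c hc
    have h1 : c ≠ b := by rintro rfl; exact hb hc
    have h2 : c ≠ a := by rintro rfl; exact ha hc
    rw [hψ, Function.update_of_ne h1, Function.update_of_ne h2]
  constructor
  · rintro ⟨h1, h2⟩
    refine ⟨⟨?_, ?_⟩, ?_, ?_, ?_⟩
    · intro c hc d hd hcd
      rw [Finset.mem_coe] at hc hd
      apply h1 (by simp [hc]) (by simp [hd])
      rw [hψc c hc, hψc d hd, hcd]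
    · intro c hc d hd hcd
      have := h2 c (by simp [hc]) d (by simp [hd]) hcd
      rwa [hψc c hc, hψc d hd] at this
    · rintro ⟨c, hc, hcv⟩
      have : c = a := h1 (by simp [hc]) (by simp) (by rw [hψc c hc, hψa, hcv])
      exact ha (this ▸ hc)
    · rintro ⟨c, hc, hcv⟩
      have : c = b := h1 (by simp [hc]) (by simp) (by rw [hψc c hc, hψb, hcv])
      exact hb (this ▸ hc)
    · have := h2 a (by simp) b (by simp) hab
      rwa [hψa, hψb] at this
  · rintro ⟨⟨h1, h2⟩, h3, h4, h5⟩
    constructor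
    · intro c hc d hd hcd
      simp only [Finset.coe_insert, Set.mem_insert_iff, Finset.mem_coe] at hc hd
      rcases hc with rfl | rfl | hc <;> rcases hd with rfl | rfl | hd
      · rfl
      · rw [hψa, hψb] at hcd; exact (h5.ne hcd).elim
      · rw [hψa, hψc d hd] at hcd; exact (h3 ⟨d, hd, hcd.symm⟩).elim
      · rw [hψa, hψb] at hcd; exact (h5.ne hcd.symm).elim
      · rfl
      · rw [hψb, hψc d hd] at hcd; exact (h4 ⟨d, hd, hcd.symm⟩).elim
      · rw [hψa, hψc c hc] at hcd; exact (h3 ⟨c, hc, hcd⟩).elim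
      · rw [hψb, hψc c hc] at hcd; exact (h4 ⟨c, hc, hcd⟩).elim
      · rw [hψc c hc, hψc d hd] at hcd
        exact h1 hc hd hcd
    · intro c hc d hd hcd
      simp only [Finset.mem_insert] at hc hd
      rcases hc with rfl | rfl | hc
      · have : d = b := hH _ _ _ hcd hab
        rw [this, hψa, hψb]; exact h5
      · have : d = a := hH _ _ _ hcd hab.symm
        rw [this, hψa, hψb]; exact h5.symm
      · rcases hd with rfl | rfl | hd
        · have : c = b := hH _ _ _ hcd.symm hab
          exact (hb (this ▸ hc)).elim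
        · have : c = a := hH _ _ _ hcd.symm hab.symm
          exact (ha (this ▸ hc)).elim
        · rw [hψc c hc, hψc d hd]; exact h2 c hc d hd hcd

theorem Qd_iso {V : Type*} [DecidableEq V] (H : SimpleGraph W) (G : SimpleGraph V)
    (D : Finset W) (a : W) (ha : a ∉ D) (hiso : ∀ b, ¬ H.Adj a b) (φ : W → V) (v : V) :
    Qd H G (insert a D) (Function.update φ a v) ↔ Qd H G D φ ∧ ¬ ∃ c ∈ D, φ c = v := by
  set ψ := Function.update φ a v with hψ
  have hψa : ψ a = v := by rw [hψ, Function.update_self]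
  have hψc : ∀ c ∈ D, ψ c = φ c := by
    intro c hc
    have h2 : c ≠ a := by rintro rfl; exact ha hc
    rw [hψ, Function.update_of_ne h2]
  constructor
  · rintro ⟨h1, h2⟩
    refine ⟨⟨?_, ?_⟩, ?_⟩
    · intro c hc d hd hcd
      rw [Finset.mem_coe] at hc hd
      apply h1 (by simp [hc]) (by simp [hd])
      rw [hψc c hc, hψc d hd, hcd]
    · intro c hc d hd hcd
      have := h2 c (by simp [hc]) d (by simp [hd]) hcd
      rwa [hψc c hc, hψc d hd] at this
    · rintro ⟨c, hc, hcv⟩
      have : c = a := h1 (by simp [hc]) (by simp) (by rw [hψc c hc, hψa, hcv])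
      exact ha (this ▸ hc)
  · rintro ⟨⟨h1, h2⟩, h3⟩
    constructor
    · intro c hc d hd hcd
      simp only [Finset.coe_insert, Set.mem_insert_iff, Finset.mem_coe] at hc hd
      rcases hc with rfl | hc <;> rcases hd with rfl | hd
      · rfl
      · rw [hψa, hψc d hd] at hcd; exact (h3 ⟨d, hd, hcd.symm⟩).elim
      · rw [hψa, hψc c hc] at hcd; exact (h3 ⟨c, hc, hcd⟩).elim
      · rw [hψc c hc, hψc d hd] at hcd
        exact h1 hc hd hcd
    · intro c hc d hd hcd
      simp only [Finset.mem_insert] at hc hd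
      rcases hc with rfl | hc
      · exact (hiso d hcd).elim
      · rcases hd with rfl | hd
        · exact (hiso c hcd.symm).elim
        · rw [hψc c hc, hψc d hd]; exact h2 c hc d hd hcd

theorem count_edge {V : Type*} [Fintype V] [DecidableEq V] (H : SimpleGraph W) (G : SimpleGraph V)
    (hH : ∀ a b c, H.Adj a b → H.Adj a c → b = c) (D : Finset W) (a b : W)
    (ha : a ∉ D) (hb : b ∉ D) (hab : H.Adj a b) :
    (Fintype.card V : ℝ) ^ 2 * N (Qd H G (insert a (insert b D)))
      = ∑ φ : W → V, N (fun _ : Unit => Qd H G D φ) * E2 G (fun v => ¬ ∃ c ∈ D, φ c = v) := by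
  classical
  rw [N_eq_sum (Qd H G (insert a (insert b D))), pow_two, mul_assoc, ← sum_update b,
    ← sum_update a]
  apply Finset.sum_congr rfl
  intro φ _
  simp only [Qd_edge H G hH D a b ha hb hab]
  unfold E2
  by_cases h : Qd H G D φ
  · simp only [h, true_and]
    rw [N_true, Fintype.card_unit, Nat.cast_one, one_mul, N_eq_sum', Fintype.sum_prod_type]
  · simp only [h, false_and, if_false, Finset.sum_const_zero]
    have e0 : N (fun _ : Unit => False) = 0 := by rw [N_eq_sum]; simp
    rw [e0, zero_mul]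

theorem count_iso {V : Type*} [Fintype V] [DecidableEq V] (H : SimpleGraph W) (G : SimpleGraph V)
    (D : Finset W) (a : W) (ha : a ∉ D) (hiso : ∀ b, ¬ H.Adj a b) :
    (Fintype.card V : ℝ) * N (Qd H G (insert a D))
      = ∑ φ : W → V, N (fun _ : Unit => Qd H G D φ) * N (fun v => ¬ ∃ c ∈ D, φ c = v) := by
  classical
  rw [N_eq_sum (Qd H G (insert a D)), ← sum_update a]
  apply Finset.sum_congr rfl
  intro φ _
  simp only [Qd_iso H G D a ha hiso]
  by_cases h : Qd H G D φ
  · simp only [h, true_and]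
    rw [N_true, Fintype.card_unit, Nat.cast_one, one_mul, N_eq_sum']
  · simp only [h, false_and, if_false, Finset.sum_const_zero]
    have e0 : N (fun _ : Unit => False) = 0 := by rw [N_eq_sum]; simp
    rw [e0, zero_mul]

theorem N_avail {V : Type*} [Fintype V] [DecidableEq V] (D : Finset W) (φ : W → V)
    (h : Set.InjOn φ D) : N (fun v => ¬ ∃ c ∈ D, φ c = v) = ((Fintype.card V - D.card : ℕ) : ℝ) := by
  classical
  rw [N_eq_card]
  have e : (univ.filter (fun v => ¬ ∃ c ∈ D, φ c = v)) = univ \ D.image φ := by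
    ext v; simp
  rw [e, Finset.card_sdiff_of_subset (Finset.subset_univ _), Finset.card_univ,
    Finset.card_image_of_injOn h]

end Pool.Agent.H53.C9
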