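import Pool.Agent.H53.C9.Match

/-! The balanced complete bipartite graph is optimal for matchings with isolated vertices. -/

set_option linter.unusedSectionVars false
set_option linter.unusedSimpArgs false

open Finset

namespace Pool.Agent.H53.C9

/-- the balanced complete bipartite graph -/
def bip (n : ℕ) : SimpleGraph (Fin n) where
  Adj x y := ¬ ((x.val < n / 2) ↔ (y.val < n / 2))
  symm := ⟨fun _ _ h h' => h h'.symm⟩
  loopless := ⟨fun _ h => h Iff.rfl⟩

theorem bip_TF (n : ℕ) : TF (bip n) := by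
  intro x y z h1 h2 h3
  have h1' : ¬ ((x.val < n / 2) ↔ (y.val < n / 2)) := h1
  have h2' : ¬ ((y.val < n / 2) ↔ (z.val < n / 2)) := h2
  have h3' : ¬ ((x.val < n / 2) ↔ (z.val < n / 2)) := h3
  tauto

theorem card_small (n : ℕ) : (univ.filter (fun x : Fin n => x.val < n / 2)).card = n / 2 := by
  have h : n / 2 ≤ n := Nat.div_le_self n 2
  have e : (univ.filter (fun x : Fin n => x.val < n / 2)) = univ.map (Fin.castLEEmb h) := by
    ext x
    simp only [mem_filter, mem_univ, true_and, mem_map]
    constructor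
    · intro hx
      exact ⟨⟨x.val, hx⟩, by ext; simp⟩
    · rintro ⟨y, rfl⟩
      simp
  rw [e, Finset.card_map, Finset.card_univ, Fintype.card_fin]

theorem card_large (n : ℕ) :
    (univ.filter (fun x : Fin n => ¬ x.val < n / 2)).card = n - n / 2 := by
  have h := Finset.card_filter_add_card_filter_not (s := (univ : Finset (Fin n)))
    (fun x : Fin n => x.val < n / 2)
  rw [card_small, Finset.card_univ, Fintype.card_fin] at h
  omega

theorem E2_bip (n : ℕ) (U : Fin n → Prop) :
    E2 (bip n) U = 2 * (N (fun v => v.val < n / 2 ∧ U v) * N (fun v => ¬ v.val < n / 2 ∧ U v)) := by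
  have h1 : E2 (bip n) U = N (fun p : Fin n × Fin n =>
      (p.1.val < n / 2 ∧ U p.1) ∧ (¬ p.2.val < n / 2 ∧ U p.2))
      + N (fun p : Fin n × Fin n =>
      (¬ p.1.val < n / 2 ∧ U p.1) ∧ (p.2.val < n / 2 ∧ U p.2)) := by
    unfold E2
    rw [N_split _ (fun p : Fin n × Fin n => p.1.val < n / 2)]
    congr 1
    · apply N_congr
      rintro ⟨a, b⟩
      simp only [bip]
      tauto
    · apply N_congr
      rintro ⟨a, b⟩
      simp only [bip]
      tauto
  have h2 := N_prod (fun v : Fin n => v.val < n / 2 ∧ U v) (fun v : Fin n => ¬ v.val < n / 2 ∧ U v)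
  have h3 := N_prod (fun v : Fin n => ¬ v.val < n / 2 ∧ U v) (fun v : Fin n => v.val < n / 2 ∧ U v)
  rw [h1, h2, h3]
  ring

theorem floor_id (n k : ℕ) (hk : 2 * k ≤ n) :
    (n / 2 - k) * (n - n / 2 - k) = (n - 2 * k) ^ 2 / 4 := by
  obtain ⟨m, rfl⟩ : ∃ m, n = m + 2 * k := ⟨n - 2 * k, by omega⟩
  have e1 : (m + 2 * k) / 2 = m / 2 + k := by omega
  rw [e1, Nat.add_sub_cancel, Nat.add_sub_cancel]
  have e2 : m + 2 * k - (m / 2 + k) - k = m - m / 2 := by omega
  rw [e2]
  rcases Nat.even_or_odd' m with ⟨j, rfl | rfl⟩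
  · have e3 : 2 * j / 2 = j := by omega
    rw [e3]
    have e4 : 2 * j - j = j := by omega
    rw [e4]
    have e5 : (2 * j) ^ 2 = (j * j) * 4 := by ring
    rw [e5, Nat.mul_div_cancel _ (by norm_num)]
  · have e3 : (2 * j + 1) / 2 = j := by omega
    rw [e3]
    have e4 : 2 * j + 1 - j = j + 1 := by omega
    rw [e4]
    have e5 : (2 * j + 1) ^ 2 = 4 * (j * (j + 1)) + 1 := by ring
    rw [e5]
    omega

variable {W : Type*} [Fintype W] [DecidableEq W]

theorem avail_bip (H : SimpleGraph W) (hH : ∀ a b c, H.Adj a b → H.Adj a c → b = c) (n : ℕ)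
    (D : Finset W) (hD : ∀ a ∈ D, ∃ b ∈ D, H.Adj a b) (φ : W → Fin n)
    (hφ : Qd H (bip n) D φ) :
    E2 (bip n) (fun v => ¬ ∃ c ∈ D, φ c = v) = 2 * (((n - D.card) ^ 2 / 4 : ℕ) : ℝ) := by
  classical
  obtain ⟨hinj, hhom⟩ := hφ
  choose! pt hpt1 hpt2 using hD
  have hpp : ∀ a ∈ D, pt (pt a) = a := by
    intro a ha
    exact hH (pt a) _ _ (hpt2 _ (hpt1 a ha)) (hpt2 a ha).symm
  have hpar : ∀ a ∈ D, ¬ (((φ a).val < n / 2) ↔ ((φ (pt a)).val < n / 2)) := by
    intro a ha
    exact hhom a ha (pt a) (hpt1 a ha) (hpt2 a ha)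
  set A := D.filter (fun c => (φ c).val < n / 2) with hA
  set B := D.filter (fun c => ¬ (φ c).val < n / 2) with hB
  have hAB : A.card = B.card := by
    apply Finset.card_nbij' pt pt
    · intro a ha
      simp only [hA, hB, coe_filter, Set.mem_ofPred_eq] at ha ⊢
      refine ⟨hpt1 a ha.1, ?_⟩
      have := hpar a ha.1
      tauto
    · intro a ha
      simp only [hA, hB, coe_filter, Set.mem_ofPred_eq] at ha ⊢
      refine ⟨hpt1 a ha.1, ?_⟩
      have := hpar a ha.1
      tauto
    · intro a ha
      simp only [hA, coe_filter, Set.mem_ofPred_eq] at ha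
      exact hpp a ha.1
    · intro a ha
      simp only [hB, coe_filter, Set.mem_ofPred_eq] at ha
      exact hpp a ha.1
  have hsum : A.card + B.card = D.card := by
    rw [hA, hB]
    exact Finset.card_filter_add_card_filter_not _
  have hDn : D.card ≤ n := by
    have := Finset.card_image_of_injOn hinj
    rw [← this]
    have h2 := Finset.card_le_univ (D.image φ)
    rwa [Fintype.card_fin] at h2
  have hN1 : N (fun v : Fin n => v.val < n / 2 ∧ ¬ ∃ c ∈ D, φ c = v)
      = ((n / 2 - A.card : ℕ) : ℝ) := by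
    rw [N_eq_card]
    have e : (univ.filter (fun v : Fin n => v.val < n / 2 ∧ ¬ ∃ c ∈ D, φ c = v))
        = (univ.filter (fun v : Fin n => v.val < n / 2)) \ A.image φ := by
      ext v
      simp only [mem_filter, mem_univ, true_and, mem_sdiff, mem_image, hA]
      constructor
      · rintro ⟨h1, h2⟩
        exact ⟨h1, fun ⟨c, hc, hcv⟩ => h2 ⟨c, hc.1, hcv⟩⟩
      · rintro ⟨h1, h2⟩
        exact ⟨h1, fun ⟨c, hc, hcv⟩ => h2 ⟨c, ⟨hc, by rw [hcv]; exact h1⟩, hcv⟩⟩
    have hsub : A.image φ ⊆ (univ.filter (fun v : Fin n => v.val < n / 2)) := by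
      intro v hv
      simp only [mem_image, hA, mem_filter] at hv
      obtain ⟨c, hc, rfl⟩ := hv
      simp [hc.2]
    rw [e, Finset.card_sdiff_of_subset hsub, card_small, Finset.card_image_of_injOn]
    intro c hc d hd hcd
    simp only [hA, coe_filter, Set.mem_ofPred_eq] at hc hd
    exact hinj hc.1 hd.1 hcd
  have hN2 : N (fun v : Fin n => ¬ v.val < n / 2 ∧ ¬ ∃ c ∈ D, φ c = v)
      = ((n - n / 2 - A.card : ℕ) : ℝ) := by
    rw [N_eq_card]
    have e : (univ.filter (fun v : Fin n => ¬ v.val < n / 2 ∧ ¬ ∃ c ∈ D, φ c = v))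
        = (univ.filter (fun v : Fin n => ¬ v.val < n / 2)) \ B.image φ := by
      ext v
      simp only [mem_filter, mem_univ, true_and, mem_sdiff, mem_image, hB]
      constructor
      · rintro ⟨h1, h2⟩
        exact ⟨h1, fun ⟨c, hc, hcv⟩ => h2 ⟨c, hc.1, hcv⟩⟩
      · rintro ⟨h1, h2⟩
        exact ⟨h1, fun ⟨c, hc, hcv⟩ => h2 ⟨c, ⟨hc, by rw [hcv]; exact h1⟩, hcv⟩⟩
    have hsub : B.image φ ⊆ (univ.filter (fun v : Fin n => ¬ v.val < n / 2)) := by
      intro v hv
      simp only [mem_image, hB, mem_filter] at hv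
      obtain ⟨c, hc, rfl⟩ := hv
      simpa using hc.2
    rw [e, Finset.card_sdiff_of_subset hsub, card_large, Finset.card_image_of_injOn, hAB]
    intro c hc d hd hcd
    simp only [hB, coe_filter, Set.mem_ofPred_eq] at hc hd
    exact hinj hc.1 hd.1 hcd
  rw [E2_bip, hN1, hN2, ← Nat.cast_mul, floor_id n A.card (by omega)]
  have : n - 2 * A.card = n - D.card := by omega
  rw [this]

theorem opt_closed (H : SimpleGraph W) (hH : ∀ a b c, H.Adj a b → H.Adj a c → b = c) (n : ℕ)
    (hn : 0 < n) (G : SimpleGraph (Fin n)) (hG : TF G) :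
    ∀ (k : ℕ) (D : Finset W), D.card = k → (∀ a ∈ D, ∃ b ∈ D, H.Adj a b) →
      N (Qd H G D) ≤ N (Qd H (bip n) D) := by
  classical
  intro k
  induction k using Nat.strong_induction_on with
  | _ k ih =>
    intro D hDk hD
    rcases D.eq_empty_or_nonempty with rfl | ⟨a, ha⟩
    · apply N_mono
      intro φ _
      exact ⟨by simp, by simp⟩
    · obtain ⟨b, hb, hab⟩ := hD a ha
      set D' := (D.erase a).erase b with hD'
      have ha' : a ∉ D' := by simp [hD']
      have hb' : b ∉ D' := by simp [hD']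
      have hba : b ∈ D.erase a := Finset.mem_erase.2 ⟨hab.ne', hb⟩
      have hDD : insert a (insert b D') = D := by
        rw [hD', Finset.insert_erase hba, Finset.insert_erase ha]
      have hclosed : ∀ c ∈ D', ∃ d ∈ D', H.Adj c d := by
        intro c hc
        simp only [hD', Finset.mem_erase] at hc
        obtain ⟨d, hd, hcd⟩ := hD c hc.2.2
        refine ⟨d, ?_, hcd⟩
        simp only [hD', Finset.mem_erase]
        refine ⟨?_, ?_, hd⟩
        · rintro rfl
          exact hc.2.1 (hH _ _ _ hcd.symm hab.symm)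
        · rintro rfl
          exact hc.1 (hH _ _ _ hcd.symm hab)
      have hcard : D'.card < k := by
        rw [← hDk]
        have h1 := Finset.card_erase_lt_of_mem ha
        have h2 := Finset.card_erase_le (s := D.erase a) (a := b)
        rw [← hD'] at h2
        omega
      have hih := ih D'.card hcard D' rfl hclosed
      have c1 := count_edge H G hH D' a b ha' hb' hab
      have c2 := count_edge H (bip n) hH D' a b ha' hb' hab
      rw [hDD] at c1 c2
      set M : ℝ := 2 * (((n - D'.card) ^ 2 / 4 : ℕ) : ℝ) with hM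
      have hM0 : 0 ≤ M := by positivity
      have hNU : ∀ (G : SimpleGraph (Fin n)), ∑ φ : W → Fin n, N (fun _ : Unit => Qd H G D' φ) * M
          = N (Qd H G D') * M := by
        intro G
        rw [← Finset.sum_mul]
        congr 1
        rw [N_eq_sum]
        apply Finset.sum_congr rfl
        intro φ _
        rw [N_eq_sum']
        simp
      have d1 : ∑ φ : W → Fin n, N (fun _ : Unit => Qd H G D' φ)
            * E2 G (fun v => ¬ ∃ c ∈ D', φ c = v) ≤ N (Qd H G D') * M := by
        rw [← hNU G]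
        apply Finset.sum_le_sum
        intro φ _
        by_cases h : Qd H G D' φ
        · apply mul_le_mul_of_nonneg_left _ (N_nonneg _)
          apply mantel_fin G hG
          rw [N_avail D' φ h.1, Fintype.card_fin]
        · have e0 : N (fun _ : Unit => Qd H G D' φ) = 0 := by rw [N_eq_sum]; simp [h]
          rw [e0, zero_mul, zero_mul]
      have d2 : ∑ φ : W → Fin n, N (fun _ : Unit => Qd H (bip n) D' φ)
            * E2 (bip n) (fun v => ¬ ∃ c ∈ D', φ c = v) = N (Qd H (bip n) D') * M := by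
        rw [← hNU (bip n)]
        apply Finset.sum_congr rfl
        intro φ _
        by_cases h : Qd H (bip n) D' φ
        · rw [avail_bip H hH n D' hclosed φ h]
        · have e0 : N (fun _ : Unit => Qd H (bip n) D' φ) = 0 := by rw [N_eq_sum]; simp [h]
          rw [e0, zero_mul, zero_mul]
      rw [Fintype.card_fin] at c1 c2
      have hn2 : (0:ℝ) < (n:ℝ) ^ 2 := by positivity
      apply le_of_mul_le_mul_left _ hn2
      rw [c1, c2, d2]
      exact d1.trans (mul_le_mul_of_nonneg_right hih hM0)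

open Classical in
theorem opt_all (H : SimpleGraph W) (hH : ∀ a b c, H.Adj a b → H.Adj a c → b = c) (n : ℕ)
    (hn : 0 < n) (G : SimpleGraph (Fin n)) (hG : TF G) (S : Finset W)
    (hS : ∀ a ∈ S, ∀ b, ¬ H.Adj a b) :
    N (Qd H G ((univ.filter (fun a => ∃ b, H.Adj a b)) ∪ S))
      ≤ N (Qd H (bip n) ((univ.filter (fun a => ∃ b, H.Adj a b)) ∪ S)) := by
  classical
  induction S using Finset.induction_on with
  | empty =>
    rw [Finset.union_empty]
    apply opt_closed H hH n hn G hG _ _ rfl
    intro a ha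
    simp only [mem_filter, mem_univ, true_and] at ha ⊢
    obtain ⟨b, hab⟩ := ha
    exact ⟨b, ⟨a, hab.symm⟩, hab⟩
  | insert a S ha ih =>
    have hih := ih (fun b hb => hS b (by simp [hb]))
    have hiso := hS a (by simp)
    set D := (univ.filter (fun a => ∃ b, H.Adj a b)) ∪ S with hD
    have haD : a ∉ D := by
      simp only [hD, mem_union, mem_filter, mem_univ, true_and, not_or, not_exists]
      exact ⟨hiso, ha⟩
    have e : (univ.filter (fun a => ∃ b, H.Adj a b)) ∪ insert a S = insert a D := by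
      rw [hD, Finset.union_insert]
    rw [e]
    have c1 := count_iso H G D a haD hiso
    have c2 := count_iso H (bip n) D a haD hiso
    set M : ℝ := ((n - D.card : ℕ) : ℝ) with hM
    have key : ∀ (G : SimpleGraph (Fin n)), ∑ φ : W → Fin n, N (fun _ : Unit => Qd H G D φ)
          * N (fun v => ¬ ∃ c ∈ D, φ c = v) = N (Qd H G D) * M := by
      intro G
      rw [N_eq_sum (Qd H G D), Finset.sum_mul]
      apply Finset.sum_congr rfl
      intro φ _
      by_cases h : Qd H G D φ
      · rw [N_avail D φ h.1, Fintype.card_fin, N_eq_sum']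
        simp [h, hM]
      · have e0 : N (fun _ : Unit => Qd H G D φ) = 0 := by rw [N_eq_sum]; simp [h]
        rw [e0]; simp [h]
    rw [key] at c1 c2
    rw [Fintype.card_fin] at c1 c2
    have hn2 : (0:ℝ) < (n:ℝ) := by positivity
    apply le_of_mul_le_mul_left _ hn2
    rw [c1, c2]
    exact mul_le_mul_of_nonneg_right hih (by positivity)

theorem match_opt (H : SimpleGraph W) (hH : ∀ a b c, H.Adj a b → H.Adj a c → b = c) (n : ℕ)
    (hn : 0 < n) (G : SimpleGraph (Fin n)) (hG : TF G) : ij H G ≤ ij H (bip n) := by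
  classical
  have h := opt_all H hH n hn G hG (univ.filter (fun a => ∀ b, ¬ H.Adj a b)) (by simp)
  have e : (univ.filter (fun a => ∃ b, H.Adj a b)) ∪ (univ.filter (fun a => ∀ b, ¬ H.Adj a b))
      = (univ : Finset W) := by
    ext a
    simp only [mem_union, mem_filter, mem_univ, true_and, iff_true]
    by_cases h : ∃ b, H.Adj a b
    · exact Or.inl h
    · push Not at h; exact Or.inr h
  rw [e] at h
  have e2 : ∀ (G : SimpleGraph (Fin n)), N (Qd H G univ) = ij H G := by
    intro G
    apply N_congr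
    intro φ
    unfold Qd hom
    simp
  rwa [e2, e2] at h

end Pool.Agent.H53.C9
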