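import Pool.Agent.H53.C9.Main

/-! Explicit constants. -/

set_option linter.unusedSectionVars false
set_option linter.unusedSimpArgs false

open Finset

namespace Pool.Agent.H53.C9

theorem nat_le_two_pow_real (h : ℕ) : (h : ℝ) ≤ 2 ^ h := by
  exact_mod_cast (Nat.lt_two_pow_self (n := h)).le

theorem gc_ge (h : ℕ) (hh : 1 ≤ h) (γ : ℝ) (k : ℕ) (hγ : (1/2 : ℝ) ^ k ≤ γ) :
    (1/2 : ℝ) ^ (2 * k + 4 * h + 5) ≤ gc h γ := by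
  have h1 := nat_le_two_pow_real h
  have hh0 : (0:ℝ) < h := by exact_mod_cast hh
  have h2 : (h:ℝ) ^ 2 ≤ 4 ^ h := by
    calc (h:ℝ) ^ 2 ≤ (2 ^ h) ^ 2 := pow_le_pow_left₀ hh0.le h1 2
      _ = 4 ^ h := by rw [← pow_mul, mul_comm, pow_mul]; norm_num
  unfold gc
  rw [le_div_iff₀ (by positivity)]
  have h3 : 18 * (h:ℝ) ^ 2 * 4 ^ h ≤ 2 ^ (4 * h + 5) := by
    have e : (2:ℝ) ^ (4 * h + 5) = 32 * 4 ^ h * 4 ^ h := by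
      rw [pow_add, show 4 * h = 2 * h + 2 * h by ring, pow_add, pow_mul]; norm_num; ring
    rw [e]
    have : (0:ℝ) < 4 ^ h := by positivity
    nlinarith
  calc (1/2 : ℝ) ^ (2 * k + 4 * h + 5) * (18 * (h:ℝ) ^ 2 * 4 ^ h)
      ≤ (1/2 : ℝ) ^ (2 * k + 4 * h + 5) * 2 ^ (4 * h + 5) :=
        mul_le_mul_of_nonneg_left h3 (by positivity)
    _ = ((1/2 : ℝ) ^ k) ^ 2 * ((1/2 : ℝ) ^ (4 * h + 5) * 2 ^ (4 * h + 5)) := by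
        rw [show 2 * k + 4 * h + 5 = 2 * k + (4 * h + 5) by ring, pow_add, pow_mul', ← mul_assoc]
    _ = ((1/2 : ℝ) ^ k) ^ 2 := by rw [← mul_pow]; norm_num
    _ ≤ γ ^ 2 := pow_le_pow_left₀ (by positivity) hγ 2

theorem half_anti {a b : ℕ} (h : a ≤ b) : (1/2 : ℝ) ^ b ≤ (1/2 : ℝ) ^ a :=
  pow_le_pow_of_le_one (by norm_num) (by norm_num) h

theorem cr_ge (h : ℕ) (hh : 3 ≤ h) : (1/2 : ℝ) ^ (9 * h) ≤ cr h ((1/2) ^ h) := by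
  have h1 := gc_ge h (by omega) ((1/2 : ℝ) ^ h / 2) (h + 1) (by rw [pow_succ]; linarith)
  unfold cr
  have h2 : (1/2 : ℝ) ^ (9 * h) ≤ (1/2 : ℝ) ^ (2 * (h + 1) + 4 * h + 5 + 1) :=
    half_anti (by omega)
  rw [pow_succ] at h2
  linarith

theorem ck_ge (h : ℕ) (hh : 3 ≤ h) : (1/2 : ℝ) ^ (9 * h ^ 3 + 1) ≤ ck h ((1/2) ^ h) := by
  have h1 := cr_ge h hh
  have h2 := pow_le_pow_left₀ (by positivity) h1 (h ^ 2)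
  rw [← pow_mul] at h2
  have e : 9 * h * h ^ 2 = 9 * h ^ 3 := by ring
  rw [e] at h2
  unfold ck
  rw [pow_succ]
  linarith

theorem cd_ge (h : ℕ) (hh : 3 ≤ h) : (1/2 : ℝ) ^ (10 * h ^ 3) ≤ cd h ((1/2) ^ h) := by
  have h1 := ck_ge h hh
  have hh0 : (0:ℝ) < h := by exact_mod_cast (by omega : 0 < h)
  have h2 : (h:ℝ) ^ 4 ≤ 2 ^ (4 * h) := by
    calc (h:ℝ) ^ 4 ≤ (2 ^ h) ^ 4 := pow_le_pow_left₀ hh0.le (nat_le_two_pow_real h) 4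
      _ = 2 ^ (4 * h) := by rw [← pow_mul, mul_comm]
  have h3 : (1/2 : ℝ) ^ (9 * h ^ 3 + 1 + 4 * h) ≤ ck h ((1/2) ^ h) / h ^ 4 := by
    rw [le_div_iff₀ (by positivity)]
    calc (1/2 : ℝ) ^ (9 * h ^ 3 + 1 + 4 * h) * h ^ 4
        ≤ (1/2 : ℝ) ^ (9 * h ^ 3 + 1 + 4 * h) * 2 ^ (4 * h) :=
          mul_le_mul_of_nonneg_left h2 (by positivity)
      _ = (1/2 : ℝ) ^ (9 * h ^ 3 + 1) * ((1/2 : ℝ) ^ (4 * h) * 2 ^ (4 * h)) := by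
          rw [pow_add, mul_assoc]
      _ = (1/2 : ℝ) ^ (9 * h ^ 3 + 1) := by rw [← mul_pow]; norm_num
      _ ≤ _ := h1
  unfold cd
  calc (1/2 : ℝ) ^ (10 * h ^ 3) ≤ (1/2 : ℝ) ^ ((9 * h ^ 3 + 1 + 4 * h) + (h + 1)) := by
        apply half_anti
        have : 9 * h ≤ h ^ 3 := by nlinarith [Nat.mul_le_mul hh hh, Nat.mul_le_mul_left h (Nat.mul_le_mul hh hh)]
        omega
    _ = (1/2 : ℝ) ^ (9 * h ^ 3 + 1 + 4 * h) * ((1/2) ^ h / 2) := by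
        rw [pow_add _ (9 * h ^ 3 + 1 + 4 * h), pow_succ _ h]; ring
    _ ≤ _ := mul_le_mul_of_nonneg_right h3 (by positivity)

theorem cs_ge (h : ℕ) (hh : 3 ≤ h) : (1/2 : ℝ) ^ (21 * h ^ 5) ≤ cs h ((1/2) ^ h) := by
  have h1 := cd_ge h hh
  have h2 := pow_le_pow_left₀ (by positivity) h1 (h ^ 2)
  rw [← pow_mul] at h2
  have e : 10 * h ^ 3 * h ^ 2 = 10 * h ^ 5 := by ring
  rw [e] at h2
  have h3 := gc_ge h (by omega) (cd h ((1/2) ^ h) ^ (h ^ 2) / 2) (10 * h ^ 5 + 1)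
    (by rw [pow_succ]; linarith)
  unfold cs
  have h4 : (1/2 : ℝ) ^ (21 * h ^ 5) ≤ (1/2 : ℝ) ^ (2 * (10 * h ^ 5 + 1) + 4 * h + 5 + 1) := by
    apply half_anti
    have h5 : 81 * h ≤ h ^ 5 := by
      have : 3 ^ 4 ≤ h ^ 4 := Nat.pow_le_pow_left hh 4
      calc 81 * h = 3 ^ 4 * h := by norm_num
        _ ≤ h ^ 4 * h := Nat.mul_le_mul_right h this
        _ = h ^ 5 := by ring
    omega
  rw [pow_succ (1/2 : ℝ) (2 * (10 * h ^ 5 + 1) + 4 * h + 5)] at h4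
  linarith

theorem tau_ok (h : ℕ) (hh : 3 ≤ h) :
    (8:ℝ) < cs h ((1/2) ^ h) ^ 2 * ((2 ^ (42 * h ^ 5 + 4) : ℕ) : ℝ) := by
  have h1 := cs_ge h hh
  have h2 := pow_le_pow_left₀ (by positivity) h1 2
  rw [← pow_mul] at h2
  push_cast
  calc (8:ℝ) < 16 := by norm_num
    _ = ((1/2 : ℝ) ^ (21 * h ^ 5 * 2) * 2 ^ (42 * h ^ 5)) * 16 := by
        rw [show 21 * h ^ 5 * 2 = 42 * h ^ 5 by ring, ← mul_pow]; norm_num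
    _ = (1/2 : ℝ) ^ (21 * h ^ 5 * 2) * 2 ^ (42 * h ^ 5 + 4) := by
        rw [pow_add (2:ℝ) (42 * h ^ 5) 4]; ring
    _ ≤ _ := mul_le_mul_of_nonneg_right h2 (by positivity)

theorem tau_le (h : ℕ) (hh : 3 ≤ h) : 2 ^ (42 * h ^ 5 + 4) + 1 ≤ 2 ^ (43 * h ^ 5) := by
  have h5 : 5 ≤ h ^ 5 := by
    calc 5 ≤ 3 ^ 5 := by norm_num
      _ ≤ h ^ 5 := Nat.pow_le_pow_left hh 5
  calc 2 ^ (42 * h ^ 5 + 4) + 1 ≤ 2 ^ (42 * h ^ 5 + 4) + 2 ^ (42 * h ^ 5 + 4) :=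
        Nat.add_le_add_left Nat.one_le_two_pow _
    _ = 2 ^ (42 * h ^ 5 + 5) := by ring
    _ ≤ 2 ^ (43 * h ^ 5) := Nat.pow_le_pow_right (by norm_num) (by omega)

theorem big_exists (h : ℕ) (t : ℝ) : ∃ n₀ : ℕ, ∀ n : ℕ, n₀ ≤ n → Big h t n := by
  obtain ⟨n₀, hn₀⟩ := exists_nat_gt (max (8 * (h : ℝ) ^ 3 / t) (max
    (32 * 4 ^ h * (h : ℝ) ^ 2 / (t / 2) ^ 2) (max (2 * (h : ℝ) ^ 2 / cr h t ^ (h ^ 2))
    (max (4 * (h : ℝ) ^ 3 / cd h t ^ (h ^ 2))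
      (32 * 4 ^ h * (h : ℝ) ^ 2 / (cd h t ^ (h ^ 2) / 2) ^ 2)))))
  simp only [max_lt_iff] at hn₀
  refine ⟨n₀, fun n hn => ?_⟩
  have hn' : (n₀ : ℝ) ≤ n := by exact_mod_cast hn
  exact ⟨by linarith [hn₀.1], by linarith [hn₀.2.1], by linarith [hn₀.2.2.1],
    by linarith [hn₀.2.2.2.1], by linarith [hn₀.2.2.2.2]⟩

end Pool.Agent.H53.C9
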