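import Pool.Agent.H53.C9.Deg

/-! Minimum degree and rich edges. -/

set_option linter.unusedSectionVars false
set_option linter.unusedSimpArgs false

open Finset

namespace Pool.Agent.H53.C9

variable {W V : Type*} [Fintype W] [Fintype V] [DecidableEq W] [DecidableEq V]

theorem F_nonneg (H : SimpleGraph W) (G : SimpleGraph V) (u : W) (S : V → Prop) :
    0 ≤ F H G u S := N_nonneg _

theorem F_mono (H : SimpleGraph W) (G : SimpleGraph V) (u : W) {S S' : V → Prop}
    (h : ∀ x, S x → S' x) : F H G u S ≤ F H G u S' :=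
  N_mono fun _ hφ => ⟨hφ.1, fun a ha => h _ (hφ.2 a ha)⟩

theorem F_le_noniso [Nonempty V] (H : SimpleGraph W) (G : SimpleGraph V) (u c : W) (huc : H.Adj u c)
    (S : V → Prop) :
    F H G u S ≤ N S * (Fintype.card V : ℝ) ^ Fintype.card W / Fintype.card V := by
  have h0 : (0:ℝ) < Fintype.card V := by exact_mod_cast (Fintype.card_pos (α := V))
  have h1 := N_coordP (V := V) c (fun _ => True) (by simp) S
  rw [N_true, card_maps] at h1
  rw [le_div_iff₀ h0, ← h1]
  apply mul_le_mul_of_nonneg_right _ h0.le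
  apply N_mono
  intro φ h
  exact ⟨trivial, h.2 c huc⟩

theorem F_iso (H : SimpleGraph W) (G : SimpleGraph V) (u : W) (hu : ∀ c, ¬ H.Adj u c)
    (S : V → Prop) : F H G u S = hm H G := by
  apply N_congr
  intro φ
  constructor
  · intro h a b hab
    have ha : a ≠ u := by rintro rfl; exact hu b hab
    have hb : b ≠ u := by rintro rfl; exact hu a hab.symm
    exact h.1 a b ha hb hab
  · intro h
    exact ⟨fun a b _ _ hab => h a b hab, fun a ha => (hu a ha).elim⟩

theorem Ext.minDeg [Nonempty V] {H : SimpleGraph W} {G : SimpleGraph V} (hG : Ext H G)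
    (u c : W) (huc : H.Adj u c) (hT : 0 < T H)
    (hn' : 4 * (Fintype.card W : ℝ) ^ 3 / T H < Fintype.card V) (y : V) :
    T H / 2 * Fintype.card V ≤ N (G.Adj y) := by
  classical
  have hW : 1 ≤ Fintype.card W := Fintype.card_pos_iff.2 ⟨u⟩
  have h0 : (0:ℝ) < Fintype.card V := by exact_mod_cast (Fintype.card_pos (α := V))
  have hreg := hG.reg hW y
  by_contra hcon
  push Not at hcon
  set X := (Fintype.card V : ℝ) ^ Fintype.card W with hX
  set n := (Fintype.card V : ℝ) with hn
  set h := (Fintype.card W : ℝ) with hh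
  have hX0 : 0 < X := by positivity
  have hdX : N (G.Adj y) * X / n ≤ T H / 2 * X := by
    rw [div_le_iff₀ h0]
    nlinarith
  have h1 : ∀ a, F H G a (G.Adj y) ≤ T H * X := by
    intro a
    by_cases ha : ∃ b, H.Adj a b
    · obtain ⟨b, hab⟩ := ha
      have := F_le_noniso H G a b hab (G.Adj y)
      rw [← hX, ← hn] at this
      nlinarith
    · push Not at ha
      rw [F_iso H G a ha]
      exact hm_le_T H G hG.tf
  have h2 : F H G u (G.Adj y) ≤ T H / 2 * X := (F_le_noniso H G u c huc (G.Adj y)).trans hdX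
  have h3 : ∑ a, F H G a (G.Adj y) ≤ T H / 2 * X + (h - 1) * (T H * X) := by
    rw [← Finset.add_sum_erase univ _ (Finset.mem_univ u)]
    apply add_le_add h2
    have := Finset.sum_le_sum (fun a (_ : a ∈ univ.erase u) => h1 a)
    rw [Finset.sum_const, Finset.card_erase_of_mem (Finset.mem_univ u), Finset.card_univ,
      nsmul_eq_mul, Nat.cast_sub hW, Nat.cast_one] at this
    exact this
  have h4 : 2 * h ^ 3 * X / n < T H / 2 * X := by
    rw [div_lt_iff₀ hT] at hn'
    rw [div_lt_iff₀ h0]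
    nlinarith
  nlinarith

theorem F_union (H : SimpleGraph W) (G : SimpleGraph V) (hG : TF G) (u c : W) (huc : H.Adj u c)
    (x p : V) (hxp : G.Adj x p) :
    F H G u (G.Adj x) + F H G u (G.Adj p) ≤ F H G u (fun z => G.Adj x z ∨ G.Adj p z) := by
  apply N_add_le
  · intro φ h
    exact ⟨h.1, fun a ha => Or.inl (h.2 a ha)⟩
  · intro φ h
    exact ⟨h.1, fun a ha => Or.inr (h.2 a ha)⟩
  · intro φ h h'
    exact hG x p (φ c) hxp (h'.2 c huc) (h.2 c huc)

theorem Ext.union_gain [Nonempty V] {H : SimpleGraph W} {G : SimpleGraph V} (hG : Ext H G)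
    (u c : W) (huc : H.Adj u c) (hT : 0 < T H)
    (hn' : 8 * (Fintype.card W : ℝ) ^ 3 / T H ≤ Fintype.card V) (x p : V) (hxp : G.Adj x p) :
    (Fintype.card W * T H + T H / 2) * (Fintype.card V : ℝ) ^ Fintype.card W
      ≤ ∑ a, F H G a (fun z => G.Adj x z ∨ G.Adj p z) := by
  classical
  have hW : 1 ≤ Fintype.card W := Fintype.card_pos_iff.2 ⟨u⟩
  have h0 : (0:ℝ) < Fintype.card V := by exact_mod_cast (Fintype.card_pos (α := V))
  have hreg1 := hG.reg hW x
  have hreg2 := hG.reg hW p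
  set X := (Fintype.card V : ℝ) ^ Fintype.card W with hX
  set n := (Fintype.card V : ℝ) with hn
  set h := (Fintype.card W : ℝ) with hh
  have hX0 : 0 < X := by positivity
  have h1 : ∀ a, F H G a (G.Adj x) + F H G a (G.Adj p) - T H * X
      ≤ F H G a (fun z => G.Adj x z ∨ G.Adj p z) := by
    intro a
    by_cases ha : ∃ b, H.Adj a b
    · obtain ⟨b, hab⟩ := ha
      have := F_union H G hG.tf a b hab x p hxp
      have : 0 ≤ T H * X := by positivity
      linarith
    · push Not at ha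
      rw [F_iso H G a ha, F_iso H G a ha, F_iso H G a ha]
      have := hm_le_T H G hG.tf
      linarith
  have h2 := F_union H G hG.tf u c huc x p hxp
  have h3 : ∑ a, (F H G a (G.Adj x) + F H G a (G.Adj p)) - (h - 1) * (T H * X)
      ≤ ∑ a, F H G a (fun z => G.Adj x z ∨ G.Adj p z) := by
    rw [← Finset.add_sum_erase univ _ (Finset.mem_univ u),
      ← Finset.add_sum_erase univ (fun a => F H G a (fun z => G.Adj x z ∨ G.Adj p z))
        (Finset.mem_univ u)]
    have := Finset.sum_le_sum (fun a (_ : a ∈ univ.erase u) => h1 a)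
    rw [Finset.sum_sub_distrib, Finset.sum_const, Finset.card_erase_of_mem (Finset.mem_univ u),
      Finset.card_univ, nsmul_eq_mul, Nat.cast_sub hW, Nat.cast_one, ← hh] at this
    linarith
  rw [Finset.sum_add_distrib] at h3
  have h4 : 4 * h ^ 3 * X / n ≤ T H / 2 * X := by
    rw [div_le_iff₀ hT] at hn'
    rw [div_le_iff₀ h0]
    nlinarith
  have h5 : 4 * h ^ 3 * X / n = 2 * h ^ 3 * X / n + 2 * h ^ 3 * X / n := by ring
  rw [h5] at h4
  nlinarith

theorem EE_comm (G : SimpleGraph V) (A B : V → Prop) : EE G A B = EE G B A := by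
  unfold EE
  rw [← N_equiv (Equiv.prodComm V V)]
  apply N_congr
  rintro ⟨a, b⟩
  simp only [Equiv.prodComm_apply, Prod.swap_prod_mk]
  constructor
  · rintro ⟨h1, h2, h3⟩; exact ⟨h2, h1, h3.symm⟩
  · rintro ⟨h1, h2, h3⟩; exact ⟨h2, h1, h3.symm⟩

/-- edges inside the union of two neighbourhoods go across -/
theorem E2_union_le (G : SimpleGraph V) (hG : TF G) (x y : V) :
    E2 G (fun z => G.Adj x z ∨ G.Adj y z) ≤ 2 * EE G (G.Adj x) (G.Adj y) := by
  have h1 : E2 G (fun z => G.Adj x z ∨ G.Adj y z)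
      ≤ EE G (G.Adj x) (G.Adj y) + EE G (G.Adj y) (G.Adj x) := by
    unfold E2 EE
    refine le_trans (N_mono ?_) (N_or_le _ _)
    rintro ⟨a, b⟩ ⟨h1, h2, h3⟩
    simp only at h1 h2 h3
    rcases h1 with h1 | h1 <;> rcases h2 with h2 | h2
    · exact (hG x a b h1 h3 h2).elim
    · exact Or.inl ⟨h1, h2, h3⟩
    · exact Or.inr ⟨h1, h2, h3⟩
    · exact (hG y a b h1 h3 h2).elim
  rw [EE_comm G (G.Adj y)] at h1
  linarith

/-- rich edges -/
theorem Ext.rich [Nonempty V] {H : SimpleGraph W} {G : SimpleGraph V} (hG : Ext H G)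
    (u c : W) (huc : H.Adj u c) (hT : 0 < T H)
    (hn1 : 8 * (Fintype.card W : ℝ) ^ 3 / T H ≤ Fintype.card V)
    (hn2 : 32 * 4 ^ Fintype.card W * (Fintype.card W : ℝ) ^ 2 / (T H / 2) ^ 2 ≤ Fintype.card V)
    (x p : V) (hxp : G.Adj x p) :
    gc (Fintype.card W) (T H / 2) / 2 * (Fintype.card V : ℝ) ^ 2 ≤ EE G (G.Adj x) (G.Adj p) := by
  have hW : 1 ≤ Fintype.card W := Fintype.card_pos_iff.2 ⟨u⟩
  have h1 := hG.gain hW (T H / 2) (by positivity) (by have := T_le_one H; linarith) hn2 _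
    (hG.union_gain u c huc hT hn1 x p hxp)
  have h2 := E2_union_le G hG.tf x p
  linarith

end Pool.Agent.H53.C9
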