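import Pool.Agent.H53.C9.Sym2

/-! Any two different neighbourhoods of an extremal graph are far apart, with many edges between. -/

set_option linter.unusedSectionVars false
set_option linter.unusedSimpArgs false

open Finset

namespace Pool.Agent.H53.C9

variable {W V : Type*} [Fintype W] [Fintype V] [DecidableEq W] [DecidableEq V]

/-- richness constant -/
noncomputable def cr (h : ℕ) (t : ℝ) : ℝ := gc h (t / 2) / 2

/-- positivity constant -/
noncomputable def ck (h : ℕ) (t : ℝ) : ℝ := cr h t ^ (h ^ 2) / 2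

/-- density constant of the gain -/
noncomputable def cd (h : ℕ) (t : ℝ) : ℝ := ck h t / h ^ 4 * (t / 2)

/-- separation constant -/
noncomputable def cs (h : ℕ) (t : ℝ) : ℝ := gc h (cd h t ^ (h ^ 2) / 2) / 2

theorem gc_pos (h : ℕ) (hh : 1 ≤ h) (γ : ℝ) (hγ : 0 < γ) : 0 < gc h γ := by
  have : (0:ℝ) < h := by exact_mod_cast hh
  unfold gc; positivity

theorem gc_le (h : ℕ) (hh : 1 ≤ h) (γ : ℝ) (hγ : 0 < γ) (hγ1 : γ ≤ 1) : gc h γ ≤ γ := by
  have h1 : (1:ℝ) ≤ h := by exact_mod_cast hh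
  have h4 : (1:ℝ) ≤ 4 ^ h := one_le_pow₀ (by norm_num)
  unfold gc
  rw [div_le_iff₀ (by positivity)]
  have h2 : (1:ℝ) ≤ (h:ℝ) ^ 2 := one_le_pow₀ h1
  have h3 : (1:ℝ) ≤ 18 * (h:ℝ) ^ 2 * 4 ^ h := by
    nlinarith [mul_le_mul h2 h4 (by norm_num) (by positivity)]
  calc γ ^ 2 = γ * γ := by ring
    _ ≤ γ * (18 * (h:ℝ) ^ 2 * 4 ^ h) := by
        apply mul_le_mul_of_nonneg_left _ hγ.le
        linarith

theorem cr_pos (h : ℕ) (hh : 1 ≤ h) (t : ℝ) (ht : 0 < t) : 0 < cr h t := by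
  have := gc_pos h hh (t / 2) (by positivity)
  unfold cr; positivity

theorem cr_le (h : ℕ) (hh : 1 ≤ h) (t : ℝ) (ht : 0 < t) (ht1 : t ≤ 1) : cr h t ≤ 1 / 4 := by
  have := gc_le h hh (t / 2) (by positivity) (by linarith)
  unfold cr; linarith

theorem ck_pos (h : ℕ) (hh : 1 ≤ h) (t : ℝ) (ht : 0 < t) : 0 < ck h t := by
  have := cr_pos h hh t ht
  unfold ck; positivity

theorem ck_le (h : ℕ) (hh : 1 ≤ h) (t : ℝ) (ht : 0 < t) (ht1 : t ≤ 1) : ck h t ≤ 1 / 2 := by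
  have h0 := cr_pos h hh t ht
  have h1 := cr_le h hh t ht ht1
  have : cr h t ^ (h ^ 2) ≤ 1 := pow_le_one₀ h0.le (by linarith)
  unfold ck; linarith

theorem cd_pos (h : ℕ) (hh : 1 ≤ h) (t : ℝ) (ht : 0 < t) : 0 < cd h t := by
  have := ck_pos h hh t ht
  have : (0:ℝ) < h := by exact_mod_cast hh
  unfold cd; positivity

theorem cd_le (h : ℕ) (hh : 1 ≤ h) (t : ℝ) (ht : 0 < t) (ht1 : t ≤ 1) : cd h t ≤ 1 / 2 := by
  have h0 := ck_pos h hh t ht
  have h1 := ck_le h hh t ht ht1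
  have h2 : (1:ℝ) ≤ (h:ℝ) := by exact_mod_cast hh
  have h3 : (1:ℝ) ≤ (h:ℝ) ^ 4 := one_le_pow₀ h2
  have h4 : ck h t / h ^ 4 ≤ 1 / 2 := by
    rw [div_le_iff₀ (by positivity)]; nlinarith
  have h5 : 0 ≤ ck h t / h ^ 4 := by positivity
  unfold cd; nlinarith

theorem cs_pos (h : ℕ) (hh : 1 ≤ h) (t : ℝ) (ht : 0 < t) : 0 < cs h t := by
  have := cd_pos h hh t ht
  have := gc_pos h hh (cd h t ^ (h ^ 2) / 2) (by positivity)
  unfold cs; positivity

theorem gc_mono (h : ℕ) (γ γ' : ℝ) (h0 : 0 ≤ γ) (hγ : γ ≤ γ') : gc h γ ≤ gc h γ' := by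
  unfold gc
  apply div_le_div_of_nonneg_right _ (by positivity)
  exact pow_le_pow_left₀ h0 hγ 2

theorem cs_le_cr (h : ℕ) (hh : 1 ≤ h) (t : ℝ) (ht : 0 < t) (ht1 : t ≤ 1) : cs h t ≤ cr h t := by
  unfold cs cr
  have h0 := cd_pos h hh t ht
  have h1 := cd_le h hh t ht ht1
  have h2 : cd h t ^ (h ^ 2) ≤ cd h t := by
    have h2 : 1 ≤ h ^ 2 := Nat.one_le_pow _ _ (by omega)
    calc cd h t ^ (h ^ 2) ≤ cd h t ^ 1 := pow_le_pow_of_le_one h0.le (by linarith) h2
      _ = cd h t := pow_one _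
  have h3 : cd h t ≤ t := by
    have h0 := ck_pos h hh t ht
    have h1 := ck_le h hh t ht ht1
    have h2 : (1:ℝ) ≤ (h:ℝ) := by exact_mod_cast hh
    have h3 : (1:ℝ) ≤ (h:ℝ) ^ 4 := one_le_pow₀ h2
    have h4 : ck h t / h ^ 4 ≤ 1 / 2 := by
      rw [div_le_iff₀ (by positivity)]; nlinarith
    unfold cd; nlinarith
  have := gc_mono h (cd h t ^ (h ^ 2) / 2) (t / 2) (by positivity) (by linarith)
  linarith

/-- the requirements on the number of vertices -/
structure Big (h : ℕ) (t n : ℝ) : Prop where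
  b1 : 8 * (h : ℝ) ^ 3 / t < n
  b2 : 32 * 4 ^ h * (h : ℝ) ^ 2 / (t / 2) ^ 2 ≤ n
  b3 : 2 * (h : ℝ) ^ 2 / cr h t ^ (h ^ 2) ≤ n
  b4 : 4 * (h : ℝ) ^ 3 / cd h t ^ (h ^ 2) ≤ n
  b5 : 32 * 4 ^ h * (h : ℝ) ^ 2 / (cd h t ^ (h ^ 2) / 2) ^ 2 ≤ n

theorem Ext.rich' [Nonempty V] {H : SimpleGraph W} {G : SimpleGraph V} (hG : Ext H G)
    (u c : W) (huc : H.Adj u c) (t : ℝ) (ht : 0 < t) (htT : t ≤ T H)
    (hb : Big (Fintype.card W) t (Fintype.card V)) (x p : V) (hxp : G.Adj x p) :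
    cr (Fintype.card W) t * (Fintype.card V : ℝ) ^ 2 ≤ EE G (G.Adj x) (G.Adj p) := by
  have hW : 1 ≤ Fintype.card W := Fintype.card_pos_iff.2 ⟨u⟩
  have hT0 : 0 < T H := lt_of_lt_of_le ht htT
  have hT1 := T_le_one H
  have hX : 0 ≤ (Fintype.card V : ℝ) ^ Fintype.card W := by positivity
  have h1 := hG.union_gain u c huc hT0 (by
    refine le_trans ?_ hb.b1.le
    apply div_le_div_of_nonneg_left (by positivity) ht htT) x p hxp
  have h2 := hG.gain hW (t / 2) (by positivity) (by linarith) hb.b2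
    (fun z => G.Adj x z ∨ G.Adj p z) (by
      refine le_trans ?_ h1
      apply mul_le_mul_of_nonneg_right _ hX
      linarith)
  have h3 := E2_union_le G hG.tf x p
  unfold cr
  linarith

theorem Ext.minDeg' [Nonempty V] {H : SimpleGraph W} {G : SimpleGraph V} (hG : Ext H G)
    (u c : W) (huc : H.Adj u c) (t : ℝ) (ht : 0 < t) (htT : t ≤ T H)
    (hb : Big (Fintype.card W) t (Fintype.card V)) (y : V) :
    t / 2 * (Fintype.card V : ℝ) ≤ N (G.Adj y) := by
  have hW : 1 ≤ Fintype.card W := Fintype.card_pos_iff.2 ⟨u⟩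
  have hT0 : 0 < T H := lt_of_lt_of_le ht htT
  have h1 := hG.minDeg u c huc hT0 (by
    refine lt_of_le_of_lt ?_ hb.b1
    calc 4 * (Fintype.card W : ℝ) ^ 3 / T H ≤ 4 * (Fintype.card W : ℝ) ^ 3 / t :=
          div_le_div_of_nonneg_left (by positivity) ht htT
      _ ≤ 8 * (Fintype.card W : ℝ) ^ 3 / t := by
          apply div_le_div_of_nonneg_right _ ht.le
          have : 0 ≤ (Fintype.card W : ℝ) ^ 3 := by positivity
          linarith) y
  refine le_trans ?_ h1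
  apply mul_le_mul_of_nonneg_right _ (by positivity)
  linarith

theorem Ext.pos_ge [Nonempty V] {H : SimpleGraph W} {G : SimpleGraph V} (hG : Ext H G)
    (col : W → Bool) (hcol : ∀ a b, H.Adj a b → col a ≠ col b)
    (u₀ v₀ c₀ : W) (huv : u₀ ≠ v₀) (hu₀ : H.Adj u₀ c₀) (hv₀ : H.Adj v₀ c₀)
    (t : ℝ) (ht : 0 < t) (htT : t ≤ T H)
    (hb : Big (Fintype.card W) t (Fintype.card V)) (x y : V) (hxy : x ≠ y)
    (hadj : ¬ G.Adj x y) :
    N (fun p => G.Adj x p ∧ ¬ G.Adj y p) * (ck (Fintype.card W) t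
        * (Fintype.card V : ℝ) ^ Fintype.card W)
      ≤ N (PosE H G u₀ v₀ c₀ x y) * (Fintype.card V : ℝ) ^ 3 := by
  classical
  have hW : 1 ≤ Fintype.card W := Fintype.card_pos_iff.2 ⟨u₀⟩
  have hn0 : (0:ℝ) < Fintype.card V := by exact_mod_cast (Fintype.card_pos (α := V))
  have hc0 := cr_pos (Fintype.card W) hW t ht
  set κ := ck (Fintype.card W) t with hκ
  set X := (Fintype.card V : ℝ) ^ Fintype.card W with hX
  have hX0 : 0 < X := by positivity
  have h1 : ∀ p, (G.Adj x p ∧ ¬ G.Adj y p) →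
      κ * X ≤ N (fun φ => PosE H G u₀ v₀ c₀ x y φ ∧ φ c₀ = p) * (Fintype.card V : ℝ) ^ 3 := by
    intro p hp
    have h2 := pos_one H col hcol G u₀ v₀ c₀ huv hu₀ hv₀ x y hxy hadj p hp
      (cr (Fintype.card W) t) hc0.le (hG.rich' u₀ c₀ hu₀ t ht htT hb x p hp.1)
    refine le_trans ?_ h2
    apply mul_le_mul_of_nonneg_right _ hX0.le
    have h3 := hb.b3
    rw [div_le_iff₀ (by positivity)] at h3
    have h4 : (Fintype.card W : ℝ) ^ 2 / Fintype.card V ≤ cr (Fintype.card W) t ^ (Fintype.card W ^ 2) / 2 := by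
      rw [div_le_iff₀ hn0]
      linarith
    rw [hκ]
    unfold ck
    linarith
  have h2 : N (PosE H G u₀ v₀ c₀ x y) = ∑ p, N (fun φ => PosE H G u₀ v₀ c₀ x y φ ∧ φ c₀ = p) := by
    simp only [N_eq_sum]
    rw [Finset.sum_comm]
    apply Finset.sum_congr rfl
    intro φ _
    by_cases h : PosE H G u₀ v₀ c₀ x y φ
    · simp [h]
    · simp [h]
  rw [h2, Finset.sum_mul, N_eq_sum, Finset.sum_mul]
  apply Finset.sum_le_sum
  intro p _
  split_ifs with hp
  · rw [one_mul]; exact h1 p hp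
  · rw [zero_mul]
    have := N_nonneg (fun φ => PosE H G u₀ v₀ c₀ x y φ ∧ φ c₀ = p)
    positivity

theorem Ext.far [Nonempty V] {H : SimpleGraph W} {G : SimpleGraph V} (hG : Ext H G)
    (col : W → Bool) (hcol : ∀ a b, H.Adj a b → col a ≠ col b)
    (u₀ v₀ c₀ : W) (huv : u₀ ≠ v₀) (hu₀ : H.Adj u₀ c₀) (hv₀ : H.Adj v₀ c₀)
    (t : ℝ) (ht : 0 < t) (htT : t ≤ T H)
    (hb : Big (Fintype.card W) t (Fintype.card V)) (x y : V) (hxy : x ≠ y)
    (hadj : ¬ G.Adj x y) (z : V)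
    (hz : (G.Adj x z ∧ ¬ G.Adj y z) ∨ (G.Adj y z ∧ ¬ G.Adj x z)) :
    ck (Fintype.card W) t / (Fintype.card W) ^ 4 * (Fintype.card V : ℝ)
      ≤ N (fun p => G.Adj y p ∧ ¬ G.Adj x p) := by
  classical
  have hW : 1 ≤ Fintype.card W := Fintype.card_pos_iff.2 ⟨u₀⟩
  have hh0 : (0:ℝ) < Fintype.card W := by exact_mod_cast hW
  have hn0 : (0:ℝ) < Fintype.card V := by exact_mod_cast (Fintype.card_pos (α := V))
  have hκ0 := ck_pos (Fintype.card W) hW t ht
  have h1 := hG.pos_ge col hcol u₀ v₀ c₀ huv hu₀ hv₀ t ht htT hb x y hxy hadj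
  have h2 := hG.pos_ge col hcol v₀ u₀ c₀ huv.symm hv₀ hu₀ t ht htT hb y x hxy.symm
    (fun h => hadj h.symm)
  have h3 := hG.sym_ineq u₀ v₀ c₀ hu₀ hv₀ x y hxy hadj
  have h4 := neg_le (W := W) G x y hxy hadj
  set p := N (fun p => G.Adj x p ∧ ¬ G.Adj y p) with hp
  set q := N (fun p => G.Adj y p ∧ ¬ G.Adj x p) with hq
  set κ := ck (Fintype.card W) t with hκ
  set X := (Fintype.card V : ℝ) ^ Fintype.card W with hX
  set n : ℝ := (Fintype.card V : ℝ) with hn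
  set h : ℝ := (Fintype.card W : ℝ) with hh
  have hX0 : 0 < X := by positivity
  have hp0 : 0 ≤ p := N_nonneg _
  have hq0 : 0 ≤ q := N_nonneg _
  have h5 : (p + q) * (κ * n) * X ≤ (h ^ 4 * (p * q)) * X := by
    have e1 : (p * (κ * X) + q * (κ * X)) * n ≤ N (NegE (W := W) G x y) * n ^ 4 := by
      calc (p * (κ * X) + q * (κ * X)) * n
          ≤ (N (PosE H G u₀ v₀ c₀ x y) * n ^ 3 + N (PosE H G v₀ u₀ c₀ y x) * n ^ 3) * n :=
            mul_le_mul_of_nonneg_right (add_le_add h1 h2) hn0.le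
        _ = (N (PosE H G u₀ v₀ c₀ x y) + N (PosE H G v₀ u₀ c₀ y x)) * n ^ 4 := by ring
        _ ≤ _ := mul_le_mul_of_nonneg_right h3 (by positivity)
    calc (p + q) * (κ * n) * X = (p * (κ * X) + q * (κ * X)) * n := by ring
      _ ≤ _ := e1.trans h4
      _ = _ := by ring
  have h6 : (p + q) * (κ * n) ≤ h ^ 4 * (p * q) := le_of_mul_le_mul_right h5 hX0
  have hpos : ∀ P : V → Prop, (∃ z, P z) → 0 < N P := by
    rintro P ⟨z, hz⟩
    rw [N_eq_card]
    have : 0 < (univ.filter P).card := Finset.card_pos.2 ⟨z, by simp [hz]⟩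
    exact_mod_cast this
  have hκn : 0 < κ * n := by positivity
  -- p > 0
  have hp1 : 0 < p := by
    rcases hz with hz | hz
    · exact hpos _ ⟨z, hz⟩
    · have hq1 : 0 < q := hpos _ ⟨z, hz⟩
      rcases hp0.eq_or_lt with h7 | h7
      · exfalso
        rw [← h7] at h6
        nlinarith
      · exact h7
  have h7 : p * (κ * n) ≤ p * (h ^ 4 * q) := by nlinarith
  have h8 : κ * n ≤ h ^ 4 * q := le_of_mul_le_mul_left h7 hp1
  rw [div_mul_eq_mul_div, div_le_iff₀ (by positivity)]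
  linarith

/-- separation of neighbourhoods -/
theorem Ext.sep [Nonempty V] {H : SimpleGraph W} {G : SimpleGraph V} (hG : Ext H G)
    (col : W → Bool) (hcol : ∀ a b, H.Adj a b → col a ≠ col b)
    (u₀ v₀ c₀ : W) (huv : u₀ ≠ v₀) (hu₀ : H.Adj u₀ c₀) (hv₀ : H.Adj v₀ c₀)
    (t : ℝ) (ht : 0 < t) (htT : t ≤ T H)
    (hb : Big (Fintype.card W) t (Fintype.card V)) (x y : V)
    (hne : ¬ ∀ z, G.Adj x z ↔ G.Adj y z) :
    cs (Fintype.card W) t * (Fintype.card V : ℝ) ^ 2 ≤ EE G (G.Adj x) (G.Adj y) := by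
  classical
  have hW : 1 ≤ Fintype.card W := Fintype.card_pos_iff.2 ⟨u₀⟩
  have hh0 : (0:ℝ) < Fintype.card W := by exact_mod_cast hW
  have hn0 : (0:ℝ) < Fintype.card V := by exact_mod_cast (Fintype.card_pos (α := V))
  have ht1 : t ≤ 1 := htT.trans (T_le_one H)
  have hxy : x ≠ y := by rintro rfl; exact hne fun z => Iff.rfl
  by_cases hadj : G.Adj x y
  · refine le_trans ?_ (hG.rich' u₀ c₀ hu₀ t ht htT hb x y hadj)
    exact mul_le_mul_of_nonneg_right (cs_le_cr _ hW t ht ht1) (by positivity)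
  obtain ⟨z, hz⟩ : ∃ z, (G.Adj x z ∧ ¬ G.Adj y z) ∨ (G.Adj y z ∧ ¬ G.Adj x z) := by
    push Not at hne
    obtain ⟨z, hz⟩ := hne
    exact ⟨z, hz.imp_right And.symm⟩
  have h1 := hG.far col hcol u₀ v₀ c₀ huv hu₀ hv₀ t ht htT hb x y hxy hadj z hz
  set h := Fintype.card W with hh
  set n : ℝ := (Fintype.card V : ℝ) with hn
  set X := n ^ h with hX
  have hX0 : 0 < X := by positivity
  have hcd0 := cd_pos h hW t ht
  have hcd1 := cd_le h hW t ht ht1
  -- density from Q' to everything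
  have h2 : cd h t * n ^ 2 ≤ EE G (fun p => G.Adj y p ∧ ¬ G.Adj x p) (fun _ => True) := by
    unfold EE
    rw [N_fiber]
    have e : ∀ a, (if (G.Adj y a ∧ ¬ G.Adj x a) then (t / 2 * n) else 0) ≤
        N (fun b => (G.Adj y (a, b).1 ∧ ¬ G.Adj x (a, b).1) ∧ True ∧ G.Adj (a, b).1 (a, b).2) := by
      intro a
      split_ifs with ha
      · refine (hG.minDeg' u₀ c₀ hu₀ t ht htT hb a).trans (N_mono ?_)
        intro b hb
        exact ⟨ha, trivial, hb⟩
      · exact N_nonneg _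
    refine le_trans ?_ (Finset.sum_le_sum (fun a _ => e a))
    have e2 : ∑ a, (if (G.Adj y a ∧ ¬ G.Adj x a) then (t / 2 * n) else 0)
        = N (fun p => G.Adj y p ∧ ¬ G.Adj x p) * (t / 2 * n) := by
      rw [N_eq_sum', Finset.sum_mul]
      apply Finset.sum_congr rfl
      intro a _
      split_ifs <;> simp
    rw [e2]
    calc cd h t * n ^ 2 = (ck h t / h ^ 4 * n) * (t / 2 * n) := by unfold cd; ring
      _ ≤ _ := mul_le_mul_of_nonneg_right h1 (by positivity)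
  have h3 := emb_ge (W := W) G _ _ (cd h t) hcd0.le hW h2
    (fun a => col a = col c₀) (fun a => col a ≠ col c₀) (fun a h h' => h' h)
  rw [← hh, ← hn, ← hX] at h3
  have hcu : col u₀ ≠ col c₀ := hcol _ _ hu₀
  -- the gain at u₀
  have h4 : F H G u₀ (G.Adj x) + cd h t ^ (h ^ 2) * X
      ≤ F H G u₀ (fun z => G.Adj x z ∨ G.Adj y z) := by
    refine le_trans (add_le_add le_rfl h3) ?_
    apply N_add_le
    · intro φ h
      exact ⟨h.1, fun a ha => Or.inl (h.2 a ha)⟩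
    · rintro φ ⟨g1, -, g3⟩
      refine ⟨fun a b hau hbu hab => ?_, fun a ha => ?_⟩
      · by_cases hca : col a = col c₀
        · exact g3 a b hca (fun hb => hcol a b hab (hca.trans hb.symm))
        · have hcb : col b = col c₀ := by
            have := hcol a b hab
            revert hca this
            cases col a <;> cases col b <;> cases col c₀ <;> simp
          exact (g3 b a hcb hca).symm
      · have hca : col a = col c₀ := by
          have := hcol u₀ a ha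
          revert hcu this
          cases col a <;> cases col u₀ <;> cases col c₀ <;> simp
        exact Or.inr (g1 a hca).1
    · rintro φ g ⟨g1, -, -⟩
      exact (g1 c₀ rfl).2 (g.2 c₀ hu₀)
  have h5 := hG.reg hW x
  have h6 : ∑ u, F H G u (G.Adj x) + cd h t ^ (h ^ 2) * X
      ≤ ∑ u, F H G u (fun z => G.Adj x z ∨ G.Adj y z) := by
    rw [← Finset.add_sum_erase univ _ (Finset.mem_univ u₀),
      ← Finset.add_sum_erase univ (fun a => F H G a (fun z => G.Adj x z ∨ G.Adj y z))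
        (Finset.mem_univ u₀)]
    have := Finset.sum_le_sum (fun a (_ : a ∈ univ.erase u₀) =>
      F_mono H G a (S := G.Adj x) (S' := fun z => G.Adj x z ∨ G.Adj y z) (fun z hz => Or.inl hz))
    linarith
  rw [← hh, ← hn, ← hX] at h5
  have hδ0 : 0 < cd h t ^ (h ^ 2) := by positivity
  have h7 : 2 * (h:ℝ) ^ 3 * X / n ≤ cd h t ^ (h ^ 2) / 2 * X := by
    have h8 := hb.b4
    rw [div_le_iff₀ hδ0] at h8
    rw [div_le_iff₀ hn0]
    nlinarith
  have hδ1 : cd h t ^ (h ^ 2) ≤ 1 := pow_le_one₀ hcd0.le (by linarith)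
  have h9 := hG.gain hW (cd h t ^ (h ^ 2) / 2) (by positivity) (by linarith) hb.b5
    (fun z => G.Adj x z ∨ G.Adj y z) (by
      rw [← hh, ← hn, ← hX]
      nlinarith)
  have h10 := E2_union_le G hG.tf x y
  unfold cs
  rw [← hh, ← hn] at h9
  linarith

end Pool.Agent.H53.C9
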