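import Pool.Agent.H53.C9.Emb

/-! Symmetrization of two nonadjacent vertices. -/

set_option linter.unusedSectionVars false
set_option linter.unusedSimpArgs false

open Finset

namespace Pool.Agent.H53.C9

variable {W V : Type*} [Fintype W] [Fintype V] [DecidableEq W] [DecidableEq V]

/-- homomorphisms in terms of two special vertices mapped to nonadjacent vertices -/
theorem hom_two {W V : Type*} [DecidableEq W] (H : SimpleGraph W) (G : SimpleGraph V) (u v : W)
    (φ ψ : W → V) (s t : V)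
    (hst : ¬ G.Adj s t) (hψ : ∀ a, a ≠ u → a ≠ v → ψ a = φ a) (hu : ψ u = s) (hv : ψ v = t) :
    hom H G ψ ↔ (¬ H.Adj u v ∧ ∀ a b, a ≠ u → a ≠ v → b ≠ u → b ≠ v → H.Adj a b →
        G.Adj (φ a) (φ b)) ∧
      (∀ a, H.Adj u a → G.Adj s (φ a)) ∧ (∀ a, H.Adj v a → G.Adj t (φ a)) := by
  constructor
  · intro h
    have huv' : ¬ H.Adj u v := fun h1 => hst (by have := h u v h1; rwa [hu, hv] at this)
    refine ⟨⟨huv', fun a b h1 h2 h3 h4 h5 => ?_⟩, fun a ha => ?_, fun a ha => ?_⟩
    · rw [← hψ a h1 h2, ← hψ b h3 h4]; exact h a b h5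
    · have h1 : a ≠ v := by rintro rfl; exact huv' ha
      have := h u a ha
      rwa [hu, hψ a ha.ne' h1] at this
    · have h1 : a ≠ u := by rintro rfl; exact huv' ha.symm
      have := h v a ha
      rwa [hv, hψ a h1 ha.ne'] at this
  · rintro ⟨⟨huv', hJ⟩, h1, h2⟩ a b hab
    by_cases hau : a = u
    · subst hau
      have hbv : b ≠ v := by rintro rfl; exact huv' hab
      rw [hu, hψ b hab.ne' hbv]
      exact h1 b hab
    · by_cases hav : a = v
      · subst hav
        have hbu : b ≠ u := by rintro rfl; exact huv' hab.symm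
        rw [hv, hψ b hbu hab.ne']
        exact h2 b hab
      · by_cases hbu : b = u
        · subst hbu
          rw [hu, hψ a hau hav]
          exact (h1 a hab.symm).symm
        · by_cases hbv : b = v
          · subst hbv
            rw [hv, hψ a hau hav]
            exact (h2 a hab.symm).symm
          · rw [hψ a hau hav, hψ b hbu hbv]
            exact hJ a b hau hav hbu hbv hab

/-- the clone graph: `y` becomes a clone of `x` -/
def clone (G : SimpleGraph V) (x y : V) : SimpleGraph V := G.comap (Function.update id y x)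

/-- the positive event -/
def PosE (H : SimpleGraph W) (G : SimpleGraph V) (u v c : W) (x y : V) (φ : W → V) : Prop :=
  Function.Injective φ ∧ φ u = x ∧ φ v = y ∧ (G.Adj x (φ c) ∧ ¬ G.Adj y (φ c)) ∧
    hom H (clone G x y) φ

/-- the negative event -/
def NegE (G : SimpleGraph V) (x y : V) (φ : W → V) : Prop :=
  ∃ q : (W × W) × (W × W), φ q.1.1 = x ∧ φ q.1.2 = y ∧
    (G.Adj x (φ q.2.1) ∧ ¬ G.Adj y (φ q.2.1)) ∧ (G.Adj y (φ q.2.2) ∧ ¬ G.Adj x (φ q.2.2))

theorem hom_clone (H : SimpleGraph W) (G : SimpleGraph V) (x y : V) (φ : W → V) :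
    hom H (clone G x y) φ ↔ hom H G (fun a => Function.update id y x (φ a)) := Iff.rfl

open Classical in
theorem pointwise (H : SimpleGraph W) (G : SimpleGraph V) (u₀ v₀ c₀ : W) (hu₀ : H.Adj u₀ c₀)
    (hv₀ : H.Adj v₀ c₀) (x y : V) (hxy : x ≠ y) (hadj : ¬ G.Adj x y) (φ : W → V) :
    ((if Function.Injective φ ∧ hom H G φ then (1:ℝ) else 0)
      + (if Function.Injective φ ∧ hom H G (fun a => Equiv.swap x y (φ a)) then (1:ℝ) else 0)
      + (if PosE H G u₀ v₀ c₀ x y φ then (1:ℝ) else 0)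
      + (if PosE H G v₀ u₀ c₀ y x φ then (1:ℝ) else 0))
    ≤ (if Function.Injective φ ∧ hom H (clone G x y) φ then (1:ℝ) else 0)
      + (if Function.Injective φ ∧ hom H (clone G y x) φ then (1:ℝ) else 0)
      + (if NegE G x y φ then (1:ℝ) else 0) := by
  by_cases hinj : Function.Injective φ
  swap
  · have h1 : ¬ PosE H G u₀ v₀ c₀ x y φ := fun h => hinj h.1
    have h2 : ¬ PosE H G v₀ u₀ c₀ y x φ := fun h => hinj h.1
    simp only [hinj, h1, h2, false_and, if_false]
    split_ifs <;> norm_num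
  simp only [hinj, true_and]
  by_cases hy : ∃ v, φ v = y
  swap
  · -- y not hit
    have h1 : ¬ PosE H G u₀ v₀ c₀ x y φ := fun h => hy ⟨_, h.2.2.1⟩
    have h2 : ¬ PosE H G v₀ u₀ c₀ y x φ := fun h => hy ⟨_, h.2.1⟩
    push Not at hy
    have e1 : hom H (clone G x y) φ ↔ hom H G φ := by
      rw [hom_clone]
      have : (fun a => Function.update id y x (φ a)) = φ := by
        funext a; rw [Function.update_of_ne (hy a)]; rfl
      rw [this]
    have e2 : hom H (clone G y x) φ ↔ hom H G (fun a => Equiv.swap x y (φ a)) := by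
      rw [hom_clone]
      have : (fun a => Function.update id x y (φ a)) = fun a => Equiv.swap x y (φ a) := by
        funext a
        by_cases ha : φ a = x
        · rw [ha, Function.update_self, Equiv.swap_apply_left]
        · rw [Function.update_of_ne ha, Equiv.swap_apply_of_ne_of_ne ha (hy a)]; rfl
      rw [this]
    simp only [e1, e2, h1, h2, if_false, add_zero]
    have : (0:ℝ) ≤ if NegE G x y φ then (1:ℝ) else 0 := by split_ifs <;> norm_num
    linarith
  obtain ⟨v, hv⟩ := hy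
  by_cases hx : ∃ u, φ u = x
  swap
  · have h1 : ¬ PosE H G u₀ v₀ c₀ x y φ := fun h => hx ⟨_, h.2.1⟩
    have h2 : ¬ PosE H G v₀ u₀ c₀ y x φ := fun h => hx ⟨_, h.2.2.1⟩
    push Not at hx
    have e1 : hom H (clone G y x) φ ↔ hom H G φ := by
      rw [hom_clone]
      have : (fun a => Function.update id x y (φ a)) = φ := by
        funext a; rw [Function.update_of_ne (hx a)]; rfl
      rw [this]
    have e2 : hom H (clone G x y) φ ↔ hom H G (fun a => Equiv.swap x y (φ a)) := by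
      rw [hom_clone]
      have : (fun a => Function.update id y x (φ a)) = fun a => Equiv.swap x y (φ a) := by
        funext a
        by_cases ha : φ a = y
        · rw [ha, Function.update_self, Equiv.swap_apply_right]
        · rw [Function.update_of_ne ha, Equiv.swap_apply_of_ne_of_ne (hx a) ha]; rfl
      rw [this]
    simp only [e1, e2, h1, h2, if_false, add_zero]
    have : (0:ℝ) ≤ if NegE G x y φ then (1:ℝ) else 0 := by split_ifs <;> norm_num
    linarith
  obtain ⟨u, hu⟩ := hx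
  -- both hit
  have hne : u ≠ v := by rintro rfl; exact hxy (hu.symm.trans hv)
  have hoff : ∀ a, a ≠ u → a ≠ v → φ a ≠ x ∧ φ a ≠ y := by
    intro a ha hb
    exact ⟨fun h => ha (hinj (h.trans hu.symm)), fun h => hb (hinj (h.trans hv.symm))⟩
  set K : Prop := ¬ H.Adj u v ∧ ∀ a b, a ≠ u → a ≠ v → b ≠ u → b ≠ v → H.Adj a b →
        G.Adj (φ a) (φ b) with hK
  set α : Prop := ∀ a, H.Adj u a → G.Adj x (φ a) with hα
  set α' : Prop := ∀ a, H.Adj u a → G.Adj y (φ a) with hα'
  set β : Prop := ∀ a, H.Adj v a → G.Adj x (φ a) with hβ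
  set β' : Prop := ∀ a, H.Adj v a → G.Adj y (φ a) with hβ'
  have eA : hom H G φ ↔ K ∧ α ∧ β' :=
    hom_two H G u v φ φ x y hadj (fun _ _ _ => rfl) hu hv
  have eB : hom H G (fun a => Equiv.swap x y (φ a)) ↔ K ∧ α' ∧ β :=
    hom_two H G u v φ _ y x (fun h => hadj h.symm) (fun a ha hb => by
      obtain ⟨h1, h2⟩ := hoff a ha hb
      simp only [Equiv.swap_apply_of_ne_of_ne h1 h2])
      (by simp only [hu, Equiv.swap_apply_left]) (by simp only [hv, Equiv.swap_apply_right])
  have eC : hom H (clone G x y) φ ↔ K ∧ α ∧ β :=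
    (hom_clone H G x y φ).trans (hom_two H G u v φ _ x x (fun h => h.ne rfl) (fun a ha hb => by
      obtain ⟨h1, h2⟩ := hoff a ha hb
      simp only [Function.update_of_ne h2]; rfl)
      (by simp only [hu]; rw [Function.update_of_ne hxy]; rfl)
      (by simp only [hv, Function.update_self]))
  have eD : hom H (clone G y x) φ ↔ K ∧ α' ∧ β' :=
    (hom_clone H G y x φ).trans (hom_two H G u v φ _ y y (fun h => h.ne rfl) (fun a ha hb => by
      obtain ⟨h1, h2⟩ := hoff a ha hb
      simp only [Function.update_of_ne h1]; rfl)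
      (by simp only [hu, Function.update_self])
      (by simp only [hv]; rw [Function.update_of_ne hxy.symm]; rfl))
  have hneg1 : K ∧ α ∧ β' → ¬ β → ¬ α' → NegE G x y φ := by
    rintro ⟨_, h1, h2⟩ h3 h4
    simp only [hβ, hα'] at h3 h4
    push Not at h3 h4
    obtain ⟨d, hd1, hd2⟩ := h3
    obtain ⟨c, hc1, hc2⟩ := h4
    exact ⟨((u, v), (c, d)), hu, hv, ⟨h1 c hc1, hc2⟩, ⟨h2 d hd1, hd2⟩⟩
  have hneg2 : K ∧ α' ∧ β → ¬ β' → ¬ α → NegE G x y φ := by
    rintro ⟨_, h1, h2⟩ h3 h4
    simp only [hβ', hα] at h3 h4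
    push Not at h3 h4
    obtain ⟨d, hd1, hd2⟩ := h3
    obtain ⟨c, hc1, hc2⟩ := h4
    exact ⟨((u, v), (d, c)), hu, hv, ⟨h2 d hd1, hd2⟩, ⟨h1 c hc1, hc2⟩⟩
  have hp1 : PosE H G u₀ v₀ c₀ x y φ → (K ∧ α ∧ β) ∧ ¬ α' ∧ ¬ β' := by
    rintro ⟨_, h1, h2, ⟨h3, h3'⟩, h4⟩
    have e1 : u = u₀ := hinj (hu.trans h1.symm)
    have e2 : v = v₀ := hinj (hv.trans h2.symm)
    subst e1; subst e2
    exact ⟨eC.1 h4, fun h => h3' (h c₀ hu₀), fun h => h3' (h c₀ hv₀)⟩
  have hp2 : PosE H G v₀ u₀ c₀ y x φ → (K ∧ α' ∧ β') ∧ ¬ α ∧ ¬ β := by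
    rintro ⟨_, h1, h2, ⟨h3, h3'⟩, h4⟩
    have e1 : u = u₀ := hinj (hu.trans h2.symm)
    have e2 : v = v₀ := hinj (hv.trans h1.symm)
    subst e1; subst e2
    exact ⟨eD.1 h4, fun h => h3' (h c₀ hu₀), fun h => h3' (h c₀ hv₀)⟩
  simp only [eA, eB, eC, eD]
  clear_value K α α' β β'
  clear eA eB eC eD
  by_cases hN : NegE G x y φ
  · by_cases h1 : PosE H G u₀ v₀ c₀ x y φ
    · obtain ⟨⟨a1, a2, a3⟩, a4, a5⟩ := hp1 h1
      have h2 : ¬ PosE H G v₀ u₀ c₀ y x φ := fun h => (hp2 h).2.1 a2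
      simp [hN, h1, h2, a1, a2, a3, a4, a5]
    · by_cases h2 : PosE H G v₀ u₀ c₀ y x φ
      · obtain ⟨⟨a1, a2, a3⟩, a4, a5⟩ := hp2 h2
        simp [hN, h1, h2, a1, a2, a3, a4, a5]
      · simp only [hN, h1, h2, if_false, if_true, add_zero]
        by_cases hK' : K <;> by_cases h3 : α <;> by_cases h4 : α' <;> by_cases h5 : β <;>
          by_cases h6 : β' <;> simp [hK', h3, h4, h5, h6]
  · by_cases h1 : PosE H G u₀ v₀ c₀ x y φ
    · obtain ⟨⟨a1, a2, a3⟩, a4, a5⟩ := hp1 h1
      have h2 : ¬ PosE H G v₀ u₀ c₀ y x φ := fun h => (hp2 h).2.1 a2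
      simp [hN, h1, h2, a1, a2, a3, a4, a5]
    · by_cases h2 : PosE H G v₀ u₀ c₀ y x φ
      · obtain ⟨⟨a1, a2, a3⟩, a4, a5⟩ := hp2 h2
        simp [hN, h1, h2, a1, a2, a3, a4, a5]
      · simp only [hN, h1, h2, if_false, if_true, add_zero]
        by_cases hK' : K
        · by_cases h3 : α <;> by_cases h4 : α' <;> by_cases h5 : β <;>
            by_cases h6 : β'
          all_goals first
            | (simp [hK', h3, h4, h5, h6]; done)
            | (simp [hK', h3, h4, h5, h6]; norm_num; done)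
            | exact (hN (hneg1 ⟨hK', h3, h6⟩ h5 h4)).elim
            | exact (hN (hneg2 ⟨hK', h4, h5⟩ h6 h3)).elim
        · simp [hK']

end Pool.Agent.H53.C9
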