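import Pool.Agent.H53.C9.Sym

/-! Symmetrization: nonadjacent vertices with different neighbourhoods differ a lot. -/

set_option linter.unusedSectionVars false
set_option linter.unusedSimpArgs false

open Finset

namespace Pool.Agent.H53.C9

variable {W V : Type*} [Fintype W] [Fintype V] [DecidableEq W] [DecidableEq V]

theorem Ext.sym_ineq {H : SimpleGraph W} {G : SimpleGraph V} (hG : Ext H G)
    (u₀ v₀ c₀ : W) (hu₀ : H.Adj u₀ c₀) (hv₀ : H.Adj v₀ c₀) (x y : V) (hxy : x ≠ y)
    (hadj : ¬ G.Adj x y) :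
    N (PosE H G u₀ v₀ c₀ x y) + N (PosE H G v₀ u₀ c₀ y x) ≤ N (NegE (W := W) G x y) := by
  classical
  have h1 : ij H (clone G x y) ≤ ij H G := hG.max _ (hG.tf.comap _)
  have h2 : ij H (clone G y x) ≤ ij H G := hG.max _ (hG.tf.comap _)
  have h3 : N (fun φ : W → V => Function.Injective φ ∧ hom H G (fun a => Equiv.swap x y (φ a)))
      = ij H G := by
    unfold ij
    have e := N_equiv (Equiv.arrowCongr (Equiv.refl W) (Equiv.swap x y))
      (fun φ : W → V => Function.Injective φ ∧ hom H G φ)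
    rw [← e]
    apply N_congr
    intro φ
    constructor
    · rintro ⟨h1, h2⟩
      exact ⟨(Equiv.swap x y).injective.comp h1, h2⟩
    · rintro ⟨h1, h2⟩
      refine ⟨fun a b hab => h1 ?_, h2⟩
      change Equiv.swap x y (φ a) = Equiv.swap x y (φ b)
      rw [hab]
  have key := Finset.sum_le_sum (fun φ (_ : φ ∈ (univ : Finset (W → V))) =>
    pointwise H G u₀ v₀ c₀ hu₀ hv₀ x y hxy hadj φ)
  simp only [Finset.sum_add_distrib, ← N_eq_sum'] at key
  unfold ij at h1 h2 h3
  linarith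

theorem neg_le [Nonempty V] (G : SimpleGraph V) (x y : V) (hxy : x ≠ y) (hadj : ¬ G.Adj x y) :
    N (NegE (W := W) G x y) * (Fintype.card V : ℝ) ^ 4 ≤ (Fintype.card W : ℝ) ^ 4 *
      (N (fun p => G.Adj x p ∧ ¬ G.Adj y p) * N (fun p => G.Adj y p ∧ ¬ G.Adj x p)
        * (Fintype.card V : ℝ) ^ Fintype.card W) := by
  classical
  set P' : V → Prop := fun p => G.Adj x p ∧ ¬ G.Adj y p with hP'
  set Q' : V → Prop := fun p => G.Adj y p ∧ ¬ G.Adj x p with hQ'
  have h1 : N (NegE (W := W) G x y) ≤ ∑ q : (W × W) × (W × W),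
      N (fun φ : W → V => φ q.1.1 = x ∧ φ q.1.2 = y ∧ P' (φ q.2.1) ∧ Q' (φ q.2.2)) :=
    N_exists_le (fun (q : (W × W) × (W × W)) (φ : W → V) =>
      φ q.1.1 = x ∧ φ q.1.2 = y ∧ P' (φ q.2.1) ∧ Q' (φ q.2.2))
  have hxP : ¬ P' x := fun h => h.1.ne rfl
  have hxQ : ¬ Q' x := fun h => hadj h.1.symm
  have hyP : ¬ P' y := fun h => hadj h.1
  have hyQ : ¬ Q' y := fun h => h.1.ne rfl
  have hPQ : ∀ z, P' z → Q' z → False := fun z h1 h2 => h1.2 h2.1
  clear_value P' Q'
  have h2 : ∀ q : (W × W) × (W × W),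
      N (fun φ : W → V => φ q.1.1 = x ∧ φ q.1.2 = y ∧ P' (φ q.2.1) ∧ Q' (φ q.2.2))
        * (Fintype.card V : ℝ) ^ 4
      ≤ N P' * N Q' * (Fintype.card V : ℝ) ^ Fintype.card W := by
    rintro ⟨⟨u, v⟩, ⟨c, d⟩⟩
    simp only
    by_cases hex : ∃ φ : W → V, φ u = x ∧ φ v = y ∧ P' (φ c) ∧ Q' (φ d)
    · obtain ⟨φ, e1, e2, e3, e4⟩ := hex
      have huv : u ≠ v := by rintro rfl; exact hxy (e1.symm.trans e2)
      have huc : u ≠ c := by rintro rfl; exact hxP (e1 ▸ e3)
      have hud : u ≠ d := by rintro rfl; exact hxQ (e1 ▸ e4)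
      have hvc : v ≠ c := by rintro rfl; exact hyP (e2 ▸ e3)
      have hvd : v ≠ d := by rintro rfl; exact hyQ (e2 ▸ e4)
      have hcd : c ≠ d := by rintro rfl; exact hPQ _ e3 e4
      have s1 := N_coordP (V := V) c (fun _ : W → V => True) (by simp) P'
      have s2 := N_coordP (V := V) d (fun φ : W → V => True ∧ P' (φ c)) (by
        intro φ v; rw [Function.update_of_ne hcd]) Q'
      have s3 := N_coord_eq (V := V) u (fun φ : W → V => (True ∧ P' (φ c)) ∧ Q' (φ d)) (by
        intro φ v; rw [Function.update_of_ne huc.symm, Function.update_of_ne hud.symm]) x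
      have s4 := N_coord_eq (V := V) v (fun φ : W → V => ((True ∧ P' (φ c)) ∧ Q' (φ d)) ∧ φ u = x)
        (by intro φ v; rw [Function.update_of_ne hvc.symm, Function.update_of_ne hvd.symm,
          Function.update_of_ne huv]) y
      rw [N_true, card_maps] at s1
      have e : N (fun φ : W → V => φ u = x ∧ φ v = y ∧ P' (φ c) ∧ Q' (φ d))
          = N (fun φ : W → V => (((True ∧ P' (φ c)) ∧ Q' (φ d)) ∧ φ u = x) ∧ φ v = y) := by
        apply N_congr; intro φ; tauto
      apply le_of_eq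
      rw [e]
      calc N (fun φ : W → V => (((True ∧ P' (φ c)) ∧ Q' (φ d)) ∧ φ u = x) ∧ φ v = y)
            * (Fintype.card V : ℝ) ^ 4
          = (N (fun φ : W → V => (((True ∧ P' (φ c)) ∧ Q' (φ d)) ∧ φ u = x) ∧ φ v = y)
            * (Fintype.card V : ℝ)) * (Fintype.card V : ℝ) * (Fintype.card V : ℝ) *
              (Fintype.card V : ℝ) := by ring
        _ = N Q' * (N (fun φ : W → V => True ∧ P' (φ c)) * (Fintype.card V : ℝ)) := by
            rw [s4, s3, s2]; ring
        _ = _ := by rw [s1]; ring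
    · have : N (fun φ : W → V => φ u = x ∧ φ v = y ∧ P' (φ c) ∧ Q' (φ d)) = 0 := by
        rw [N_eq_sum]
        apply Finset.sum_eq_zero
        intro φ _
        rw [if_neg]
        intro h; exact hex ⟨φ, h⟩
      rw [this, zero_mul]
      have := N_nonneg P'
      have := N_nonneg Q'
      positivity
  calc N (NegE (W := W) G x y) * (Fintype.card V : ℝ) ^ 4
      ≤ (∑ q : (W × W) × (W × W),
      N (fun φ : W → V => φ q.1.1 = x ∧ φ q.1.2 = y ∧ P' (φ q.2.1) ∧ Q' (φ q.2.2)))
        * (Fintype.card V : ℝ) ^ 4 := mul_le_mul_of_nonneg_right h1 (by positivity)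
    _ = ∑ q : (W × W) × (W × W),
      N (fun φ : W → V => φ q.1.1 = x ∧ φ q.1.2 = y ∧ P' (φ q.2.1) ∧ Q' (φ q.2.2))
        * (Fintype.card V : ℝ) ^ 4 := by rw [Finset.sum_mul]
    _ ≤ ∑ _q : (W × W) × (W × W), N P' * N Q' * (Fintype.card V : ℝ) ^ Fintype.card W :=
        Finset.sum_le_sum (fun q _ => h2 q)
    _ = _ := by
        rw [Finset.sum_const, Finset.card_univ, Fintype.card_prod, Fintype.card_prod,
          nsmul_eq_mul]
        push_cast
        ring

/-- fix three coordinates -/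
def fix3 (u v c : W) (x y p : V) (ψ : W → V) : W → V := fun a =>
  if a = u then x else if a = v then y else if a = c then p else ψ a

theorem fix3_off (u v c : W) (x y p : V) (ψ : W → V) (a : W) (h1 : a ≠ u) (h2 : a ≠ v)
    (h3 : a ≠ c) : fix3 u v c x y p ψ a = ψ a := by simp [fix3, h1, h2, h3]

theorem fix3_inj_fail [Nonempty V] (u v c : W) (x y p : V) (hxy : x ≠ y)
    (hxp : x ≠ p) (hyp : y ≠ p) :
    N (fun ψ : W → V => ¬ Function.Injective (fix3 u v c x y p ψ)) * Fintype.card V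
      ≤ (Fintype.card W : ℝ) ^ 2 * (Fintype.card V : ℝ) ^ Fintype.card W := by
  classical
  have h1 : N (fun ψ : W → V => ¬ Function.Injective (fix3 u v c x y p ψ))
      ≤ N (fun ψ : W → V => ∃ q : W × W, (q.1 ≠ q.2 ∧ q.1 ≠ u ∧ q.1 ≠ v ∧ q.1 ≠ c) ∧
        ψ q.1 = fix3 u v c x y p ψ q.2) := by
    apply N_mono
    intro ψ hψ
    rw [Function.Injective] at hψ
    push Not at hψ
    obtain ⟨a, b, h, hab⟩ := hψ
    by_cases ha : a ≠ u ∧ a ≠ v ∧ a ≠ c
    · exact ⟨(a, b), ⟨hab, ha⟩, by rw [← h, fix3_off _ _ _ _ _ _ _ _ ha.1 ha.2.1 ha.2.2]⟩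
    · by_cases hb : b ≠ u ∧ b ≠ v ∧ b ≠ c
      · exact ⟨(b, a), ⟨hab.symm, hb⟩, by rw [h, fix3_off _ _ _ _ _ _ _ _ hb.1 hb.2.1 hb.2.2]⟩
      · exfalso
        simp only [fix3] at h
        by_cases a1 : a = u
        · by_cases b1 : b = u
          · exact hab (a1.trans b1.symm)
          · by_cases b2 : b = v
            · rw [if_pos a1, if_neg b1, if_pos b2] at h; exact hxy h
            · by_cases b3 : b = c
              · rw [if_pos a1, if_neg b1, if_neg b2, if_pos b3] at h; exact hxp h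
              · exact hb ⟨b1, b2, b3⟩
        · by_cases a2 : a = v
          · by_cases b1 : b = u
            · rw [if_neg a1, if_pos a2, if_pos b1] at h; exact hxy h.symm
            · by_cases b2 : b = v
              · exact hab (a2.trans b2.symm)
              · by_cases b3 : b = c
                · rw [if_neg a1, if_pos a2, if_neg b1, if_neg b2, if_pos b3] at h; exact hyp h
                · exact hb ⟨b1, b2, b3⟩
          · by_cases a3 : a = c
            · by_cases b1 : b = u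
              · rw [if_neg a1, if_neg a2, if_pos a3, if_pos b1] at h; exact hxp h.symm
              · by_cases b2 : b = v
                · rw [if_neg a1, if_neg a2, if_pos a3, if_neg b1, if_pos b2] at h
                  exact hyp h.symm
                · by_cases b3 : b = c
                  · exact hab (a3.trans b3.symm)
                  · exact hb ⟨b1, b2, b3⟩
            · exact ha ⟨a1, a2, a3⟩
  have h2 := N_exists_le (fun (q : W × W) (ψ : W → V) =>
    (q.1 ≠ q.2 ∧ q.1 ≠ u ∧ q.1 ≠ v ∧ q.1 ≠ c) ∧ ψ q.1 = fix3 u v c x y p ψ q.2)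
  have h3 : ∀ q : W × W, N (fun ψ : W → V =>
      (q.1 ≠ q.2 ∧ q.1 ≠ u ∧ q.1 ≠ v ∧ q.1 ≠ c) ∧ ψ q.1 = fix3 u v c x y p ψ q.2)
        * Fintype.card V ≤ (Fintype.card V : ℝ) ^ Fintype.card W := by
    rintro ⟨a, b⟩
    simp only
    by_cases hab : a ≠ b ∧ a ≠ u ∧ a ≠ v ∧ a ≠ c
    · have h4 := N_coord_fun (V := V) a (fun ψ => fix3 u v c x y p ψ b) (by
        intro ψ w
        simp only [fix3]
        rw [Function.update_of_ne hab.1.symm])
      rw [← h4]
      apply mul_le_mul_of_nonneg_right _ (by positivity)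
      apply N_mono
      intro φ h; exact h.2
    · have : N (fun ψ : W → V =>
          (a ≠ b ∧ a ≠ u ∧ a ≠ v ∧ a ≠ c) ∧ ψ a = fix3 u v c x y p ψ b) = 0 := by
        rw [N_eq_sum]
        apply Finset.sum_eq_zero
        intro φ _
        rw [if_neg]
        intro h; exact hab h.1
      rw [this, zero_mul]
      positivity
  calc _ ≤ (∑ q : W × W, N (fun ψ : W → V =>
      (q.1 ≠ q.2 ∧ q.1 ≠ u ∧ q.1 ≠ v ∧ q.1 ≠ c) ∧ ψ q.1 = fix3 u v c x y p ψ q.2))
        * Fintype.card V := by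
        apply mul_le_mul_of_nonneg_right (h1.trans h2) (by positivity)
    _ = ∑ q : W × W, N (fun ψ : W → V =>
      (q.1 ≠ q.2 ∧ q.1 ≠ u ∧ q.1 ≠ v ∧ q.1 ≠ c) ∧ ψ q.1 = fix3 u v c x y p ψ q.2)
        * Fintype.card V := by
        rw [Finset.sum_mul]
    _ ≤ ∑ _p : W × W, (Fintype.card V : ℝ) ^ Fintype.card W :=
        Finset.sum_le_sum (fun p _ => h3 p)
    _ = _ := by simp [pow_two]

theorem pos_one [Nonempty V] (H : SimpleGraph W) (col : W → Bool)
    (hcol : ∀ a b, H.Adj a b → col a ≠ col b) (G : SimpleGraph V)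
    (u₀ v₀ c₀ : W) (huv : u₀ ≠ v₀) (hu₀ : H.Adj u₀ c₀) (hv₀ : H.Adj v₀ c₀) (x y : V) (hxy : x ≠ y)
    (hadj : ¬ G.Adj x y) (p : V) (hp : G.Adj x p ∧ ¬ G.Adj y p) (c : ℝ) (hc : 0 ≤ c)
    (hE : c * (Fintype.card V : ℝ) ^ 2 ≤ EE G (G.Adj x) (G.Adj p)) :
    (c ^ (Fintype.card W ^ 2) - (Fintype.card W : ℝ) ^ 2 / Fintype.card V)
        * (Fintype.card V : ℝ) ^ Fintype.card W
      ≤ N (fun φ => PosE H G u₀ v₀ c₀ x y φ ∧ φ c₀ = p) * (Fintype.card V : ℝ) ^ 3 := by
  classical
  have hW : 1 ≤ Fintype.card W := Fintype.card_pos_iff.2 ⟨u₀⟩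
  have hn0 : (0:ℝ) < Fintype.card V := by exact_mod_cast (Fintype.card_pos (α := V))
  have hxp : x ≠ p := hp.1.ne
  have hyp : y ≠ p := by rintro rfl; exact hadj hp.1
  have hcu : col u₀ ≠ col c₀ := hcol _ _ hu₀
  have hcv : col v₀ ≠ col c₀ := hcol _ _ hv₀
  have h1 := emb_ge (W := W) G (G.Adj x) (G.Adj p) c hc hW hE
    (fun a => col a = col c₀) (fun a => col a ≠ col c₀) (fun a h h' => h' h)
  set good : (W → V) → Prop := fun φ => (∀ a, col a = col c₀ → G.Adj x (φ a)) ∧
    (∀ b, col b ≠ col c₀ → G.Adj p (φ b)) ∧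
        ∀ a b, col a = col c₀ → col b ≠ col c₀ → G.Adj (φ a) (φ b) with hgood
  have h2 := fix3_inj_fail (W := W) u₀ v₀ c₀ x y p hxy hxp hyp
  have h3 : N good ≤ N (fun ψ => good ψ ∧ Function.Injective (fix3 u₀ v₀ c₀ x y p ψ))
      + N (fun ψ : W → V => ¬ Function.Injective (fix3 u₀ v₀ c₀ x y p ψ)) := by
    rw [N_split good (fun ψ => Function.Injective (fix3 u₀ v₀ c₀ x y p ψ))]
    exact add_le_add le_rfl (N_mono fun ψ h => h.2)
  have h4 : N (fun ψ => good ψ ∧ Function.Injective (fix3 u₀ v₀ c₀ x y p ψ))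
      ≤ N (fun φ => PosE H G u₀ v₀ c₀ x y φ ∧ φ c₀ = p) * (Fintype.card V : ℝ) ^ 3 := by
    have e : (Fintype.card V : ℝ) ^ 3 = Fintype.card (V × V × V) := by
      rw [Fintype.card_prod, Fintype.card_prod]; push_cast; ring
    rw [e, ← N_prod_left]
    apply N_le_of_inj (fun ψ : W → V => (fix3 u₀ v₀ c₀ x y p ψ, (ψ u₀, ψ v₀, ψ c₀)))
    · rintro ψ ⟨⟨g1, g2, g3⟩, hinj⟩
      have hc₀u : c₀ ≠ u₀ := hu₀.ne'
      have hc₀v : c₀ ≠ v₀ := hv₀.ne'
      have f1 : fix3 u₀ v₀ c₀ x y p ψ u₀ = x := by simp [fix3]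
      have f2 : fix3 u₀ v₀ c₀ x y p ψ v₀ = y := by simp [fix3, huv.symm]
      have f3 : fix3 u₀ v₀ c₀ x y p ψ c₀ = p := by simp [fix3, hc₀u, hc₀v]
      refine ⟨⟨hinj, f1, f2, ?_, ?_⟩, f3⟩
      · change G.Adj x (fix3 u₀ v₀ c₀ x y p ψ c₀) ∧ ¬ G.Adj y (fix3 u₀ v₀ c₀ x y p ψ c₀)
        rw [f3]; exact hp
      · rw [hom_clone]
        -- values of the composed map
        have w1 : Function.update id y x (fix3 u₀ v₀ c₀ x y p ψ u₀) = x := by
          rw [f1, Function.update_of_ne hxy]; rfl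
        have w2 : Function.update id y x (fix3 u₀ v₀ c₀ x y p ψ v₀) = x := by
          rw [f2, Function.update_self]
        have w3 : Function.update id y x (fix3 u₀ v₀ c₀ x y p ψ c₀) = p := by
          rw [f3, Function.update_of_ne hyp.symm]; rfl
        have w4 : ∀ a, a ≠ u₀ → a ≠ v₀ → a ≠ c₀ →
            Function.update id y x (fix3 u₀ v₀ c₀ x y p ψ a) = ψ a := by
          intro a h1 h2 h3
          have : fix3 u₀ v₀ c₀ x y p ψ a ≠ y := by
            intro h
            exact h2 (hinj (h.trans f2.symm))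
          rw [Function.update_of_ne this, fix3_off _ _ _ _ _ _ _ _ h1 h2 h3]; rfl
        -- the main claim, for edges oriented from the class of `c₀`
        have main : ∀ a b, col a = col c₀ → col b ≠ col c₀ →
            G.Adj (Function.update id y x (fix3 u₀ v₀ c₀ x y p ψ a))
              (Function.update id y x (fix3 u₀ v₀ c₀ x y p ψ b)) := by
          intro a b ha hb
          have hau : a ≠ u₀ := by rintro rfl; exact hcu ha
          have hav : a ≠ v₀ := by rintro rfl; exact hcv ha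
          have hbc : b ≠ c₀ := by rintro rfl; exact hb rfl
          by_cases hac : a = c₀
          · rw [hac, w3]
            by_cases hbu : b = u₀
            · rw [hbu, w1]; exact hp.1.symm
            · by_cases hbv : b = v₀
              · rw [hbv, w2]; exact hp.1.symm
              · rw [w4 b hbu hbv hbc]; exact g2 b hb
          · rw [w4 a hau hav hac]
            by_cases hbu : b = u₀
            · rw [hbu, w1]; exact (g1 a ha).symm
            · by_cases hbv : b = v₀
              · rw [hbv, w2]; exact (g1 a ha).symm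
              · rw [w4 b hbu hbv hbc]; exact g3 a b ha hb
        intro a b hab
        by_cases ha : col a = col c₀
        · exact main a b ha (fun hb => hcol a b hab (ha.trans hb.symm))
        · have hb : col b = col c₀ := by
            have := hcol a b hab
            revert ha this
            cases col a <;> cases col b <;> cases col c₀ <;> simp
          exact (main b a hb ha).symm
    · intro ψ ψ' _ _ h
      simp only [Prod.mk.injEq] at h
      obtain ⟨e1, e2, e3, e4⟩ := h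
      funext a
      by_cases h1 : a = u₀
      · rw [h1]; exact e2
      · by_cases h2 : a = v₀
        · rw [h2]; exact e3
        · by_cases h3 : a = c₀
          · rw [h3]; exact e4
          · have := congrFun e1 a
            rwa [fix3_off _ _ _ _ _ _ _ _ h1 h2 h3, fix3_off _ _ _ _ _ _ _ _ h1 h2 h3] at this
  have h5 : (Fintype.card W : ℝ) ^ 2 / Fintype.card V * (Fintype.card V : ℝ) ^ Fintype.card W
      ≥ N (fun ψ : W → V => ¬ Function.Injective (fix3 u₀ v₀ c₀ x y p ψ)) := by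
    rw [div_mul_eq_mul_div, ge_iff_le, le_div_iff₀ hn0]
    exact h2
  have h6 : (c ^ (Fintype.card W ^ 2) - (Fintype.card W : ℝ) ^ 2 / Fintype.card V)
        * (Fintype.card V : ℝ) ^ Fintype.card W
      = c ^ (Fintype.card W ^ 2) * (Fintype.card V : ℝ) ^ Fintype.card W
        - (Fintype.card W : ℝ) ^ 2 / Fintype.card V
        * (Fintype.card V : ℝ) ^ Fintype.card W := by ring
  rw [h6]
  linarith

end Pool.Agent.H53.C9
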