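import Pool.Agent.H53.C9.Sep

/-! Bounded number of pairwise separated independent sets, by random sampling. -/

set_option linter.unusedSectionVars false
set_option linter.unusedSimpArgs false

open Finset

namespace Pool.Agent.H53.C9

variable {V : Type*} [Fintype V] [DecidableEq V]

theorem var_aux (X : V → ℝ) (hX : ∑ v, X v = 0) (τ : ℕ) :
    (∑ w : Fin τ → V, ∑ l, X (w l)) = 0 ∧
    (∑ w : Fin τ → V, (∑ l, X (w l)) ^ 2) * Fintype.card V
      = τ * (Fintype.card V : ℝ) ^ τ * ∑ v, X v ^ 2 := by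
  induction τ with
  | zero => simp
  | succ k ih =>
    obtain ⟨ih1, ih2⟩ := ih
    constructor
    · rw [← (Fin.consEquiv (fun _ => V)).sum_comp, Fintype.sum_prod_type]
      simp only [Fin.sum_univ_succ]
      simp only [Fin.consEquiv_apply, Fin.cons_zero, Fin.cons_succ]
      have : ∀ v : V, ∑ w : Fin k → V, (X v + ∑ l, X (w l)) = (Fintype.card V : ℝ) ^ k * X v := by
        intro v
        rw [Finset.sum_add_distrib, ih1, Finset.sum_const, Finset.card_univ]
        simp
      rw [Finset.sum_congr rfl (fun v _ => this v), ← Finset.mul_sum, hX, mul_zero]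
    · rw [← (Fin.consEquiv (fun _ => V)).sum_comp, Fintype.sum_prod_type]
      simp only [Fin.sum_univ_succ]
      simp only [Fin.consEquiv_apply, Fin.cons_zero, Fin.cons_succ]
      have : ∀ v : V, ∑ w : Fin k → V, (X v + ∑ l, X (w l)) ^ 2
          = (Fintype.card V : ℝ) ^ k * X v ^ 2 + ∑ w : Fin k → V, (∑ l, X (w l)) ^ 2 := by
        intro v
        have e : ∀ w : Fin k → V, (X v + ∑ l, X (w l)) ^ 2
            = X v ^ 2 + 2 * X v * (∑ l, X (w l)) + (∑ l, X (w l)) ^ 2 := by intro w; ring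
        rw [Finset.sum_congr rfl (fun w _ => e w), Finset.sum_add_distrib, Finset.sum_add_distrib,
          ← Finset.mul_sum, ih1, Finset.sum_const, Finset.card_univ]
        simp
      rw [Finset.sum_congr rfl (fun v _ => this v), Finset.sum_add_distrib, ← Finset.mul_sum,
        Finset.sum_const, Finset.card_univ, nsmul_eq_mul, add_mul]
      have e3 : (Fintype.card V : ℝ) * (∑ w : Fin k → V, (∑ l, X (w l)) ^ 2) * Fintype.card V
          = (Fintype.card V : ℝ) * ((∑ w : Fin k → V, (∑ l, X (w l)) ^ 2) * Fintype.card V) := by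
        ring
      rw [e3, ih2]
      push_cast
      ring

theorem var_bound [Nonempty V] (Q : V → Prop) (τ : ℕ) :
    ∑ w : Fin τ → V, (τ * N Q - Fintype.card V * N (fun l => Q (w l))) ^ 2
      ≤ τ * (Fintype.card V : ℝ) ^ 2 * (Fintype.card V : ℝ) ^ τ := by
  classical
  have hn0 : (0:ℝ) < Fintype.card V := by exact_mod_cast (Fintype.card_pos (α := V))
  let X : V → ℝ := fun v => N Q - Fintype.card V * (if Q v then 1 else 0)
  have hX : ∑ v, X v = 0 := by
    simp only [X]
    rw [Finset.sum_sub_distrib, ← Finset.mul_sum, ← N_eq_sum', Finset.sum_const, Finset.card_univ,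
      nsmul_eq_mul, sub_self]
  have h1 := (var_aux X hX τ).2
  have h2 : ∀ w : Fin τ → V, ∑ l, X (w l) = τ * N Q - Fintype.card V * N (fun l => Q (w l)) := by
    intro w
    simp only [X]
    rw [Finset.sum_sub_distrib, ← Finset.mul_sum, ← N_eq_sum', Finset.sum_const, Finset.card_univ,
      nsmul_eq_mul, Fintype.card_fin]
  have h3 : ∀ v, X v ^ 2 ≤ (Fintype.card V : ℝ) ^ 2 := by
    intro v
    have hQ0 : 0 ≤ N Q := N_nonneg Q
    have hQ1 : N Q ≤ Fintype.card V := N_le_card Q
    simp only [X]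
    split_ifs
    · nlinarith
    · nlinarith
  have h4 : ∑ v, X v ^ 2 ≤ Fintype.card V * (Fintype.card V : ℝ) ^ 2 := by
    refine (Finset.sum_le_sum (fun v _ => h3 v)).trans (le_of_eq ?_)
    rw [Finset.sum_const, Finset.card_univ, nsmul_eq_mul]
  simp only [h2] at h1
  have h5 : (∑ w : Fin τ → V, (τ * N Q - Fintype.card V * N (fun l => Q (w l))) ^ 2)
      * Fintype.card V ≤ (τ * (Fintype.card V : ℝ) ^ 2 * (Fintype.card V : ℝ) ^ τ)
        * Fintype.card V := by
    rw [h1]
    calc τ * (Fintype.card V : ℝ) ^ τ * ∑ v, X v ^ 2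
        ≤ τ * (Fintype.card V : ℝ) ^ τ * (Fintype.card V * (Fintype.card V : ℝ) ^ 2) :=
          mul_le_mul_of_nonneg_left h4 (by positivity)
      _ = _ := by ring
  exact le_of_mul_le_mul_right h5 hn0

theorem types_bound [Nonempty V] (G : SimpleGraph V) {ι : Type*} [Fintype ι] [DecidableEq ι]
    (Nb : ι → V → Prop)
    (hind : ∀ i a b, Nb i a → Nb i b → ¬ G.Adj a b) (c : ℝ) (hc : 0 < c)
    (hE : ∀ i j, i ≠ j → c * (Fintype.card V : ℝ) ^ 2 ≤ EE G (Nb i) (Nb j))
    (τ : ℕ) (hτ : 8 < c ^ 2 * τ) : Fintype.card ι ≤ 2 ^ (τ + 1) := by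
  classical
  have hn0 : (0:ℝ) < Fintype.card V := by exact_mod_cast (Fintype.card_pos (α := V))
  set n : ℝ := (Fintype.card V : ℝ) with hn
  have hτ0 : (0:ℝ) < τ := by
    rcases Nat.eq_zero_or_pos τ with h | h
    · rw [h] at hτ; norm_num at hτ
    · exact_mod_cast h
  -- deviations
  let D : (Fin τ → V) → ι → ℝ := fun w i => ∑ z,
    (τ * N (fun b => Nb i b ∧ G.Adj z b) - n * N (fun l => Nb i (w l) ∧ G.Adj z (w l))) ^ 2
  have hD0 : ∀ w i, 0 ≤ D w i := fun w i => Finset.sum_nonneg (fun z _ => sq_nonneg _)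
  have hsum : ∑ w : Fin τ → V, ∑ i, D w i ≤ ∑ _w : Fin τ → V, Fintype.card ι * (τ * n ^ 3) := by
    have e : ∑ w : Fin τ → V, ∑ i, D w i = ∑ i, ∑ z, ∑ w : Fin τ → V,
        (τ * N (fun b => Nb i b ∧ G.Adj z b)
          - n * N (fun l => Nb i (w l) ∧ G.Adj z (w l))) ^ 2 := by
      rw [Finset.sum_comm]
      apply Finset.sum_congr rfl
      intro i _
      simp only [D]
      rw [Finset.sum_comm]
    rw [e]
    calc _ ≤ ∑ _i : ι, ∑ _z : V, (τ * n ^ 2 * n ^ τ) :=
          Finset.sum_le_sum (fun i _ => Finset.sum_le_sum (fun z _ =>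
            var_bound (fun b => Nb i b ∧ G.Adj z b) τ))
      _ = _ := by
          simp only [Finset.sum_const, Finset.card_univ, nsmul_eq_mul, Fintype.card_pi,
            Finset.prod_const, Fintype.card_fin]
          push_cast
          rw [← hn]
          ring
  obtain ⟨w, -, hw⟩ := Finset.exists_le_of_sum_le (Finset.univ_nonempty) hsum
  -- good indices
  set I' : Finset ι := univ.filter (fun i => D w i ≤ 2 * (τ * n ^ 3)) with hI'
  have hI1 : (Fintype.card ι : ℝ) ≤ 2 * I'.card := by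
    have h1 : (∑ i ∈ univ.filter (fun i => ¬ D w i ≤ 2 * (τ * n ^ 3)), 2 * (τ * n ^ 3))
        ≤ ∑ i, D w i := by
      calc _ ≤ ∑ i ∈ univ.filter (fun i => ¬ D w i ≤ 2 * (τ * n ^ 3)), D w i := by
            apply Finset.sum_le_sum
            intro i hi
            rw [Finset.mem_filter] at hi
            exact (not_le.1 hi.2).le
        _ ≤ _ := Finset.sum_le_sum_of_subset_of_nonneg (Finset.filter_subset _ _)
            (fun i _ _ => hD0 w i)
    rw [Finset.sum_const, nsmul_eq_mul] at h1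
    have h2 := Finset.card_filter_add_card_filter_not (s := (univ : Finset ι))
      (fun i => D w i ≤ 2 * (τ * n ^ 3))
    rw [Finset.card_univ] at h2
    have h3 : (Fintype.card ι : ℝ) = I'.card
        + (univ.filter (fun i => ¬ D w i ≤ 2 * (τ * n ^ 3))).card := by
      rw [hI', ← h2]; push_cast; ring
    have h4 : ((univ.filter (fun i => ¬ D w i ≤ 2 * (τ * n ^ 3))).card : ℝ) * 2
        ≤ Fintype.card ι := by
      have h5 : ((univ.filter (fun i => ¬ D w i ≤ 2 * (τ * n ^ 3))).card : ℝ) * 2 * (τ * n ^ 3)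
          ≤ Fintype.card ι * (τ * n ^ 3) := by
        linarith
      exact le_of_mul_le_mul_right h5 (by positivity)
    linarith
  have hI2 : I'.card ≤ 2 ^ τ := by
    by_contra hcon
    push Not at hcon
    have hcard : (univ : Finset (Fin τ → Prop)).card < I'.card := by
      rw [Finset.card_univ]; simpa using hcon
    obtain ⟨i, hi, j, hj, hij, hpat⟩ := Finset.exists_ne_map_eq_of_card_lt_of_maps_to hcard
      (f := fun i l => Nb i (w l)) (fun i _ => Finset.mem_univ _)
    rw [hI', Finset.mem_filter] at hi hj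
    have hest : ∀ z, N (fun l => Nb i (w l) ∧ G.Adj z (w l))
        = N (fun l => Nb j (w l) ∧ G.Adj z (w l)) := by
      intro z
      apply N_congr
      intro l
      have h1 : Nb i (w l) = Nb j (w l) := congrFun hpat l
      rw [h1]
    -- lower bound
    have hl1 : (EE G (Nb i) (Nb j)) ^ 2 ≤ n * ∑ z, (N (fun b => Nb j b ∧ G.Adj z b)
        - N (fun b => Nb i b ∧ G.Adj z b)) ^ 2 := by
      have e1 : EE G (Nb i) (Nb j)
          = ∑ z, if Nb i z then N (fun b => Nb j b ∧ G.Adj z b) else 0 := by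
        unfold EE
        rw [N_fiber]
        apply Finset.sum_congr rfl
        intro z _
        split_ifs with hz
        · apply N_congr; intro b; simp [hz]
        · rw [N_eq_sum]; simp [hz]
      rw [e1]
      have e2 := sq_sum_le_card_mul_sum_sq (s := (univ : Finset V))
        (f := fun z => if Nb i z then N (fun b => Nb j b ∧ G.Adj z b) else 0)
      rw [Finset.card_univ] at e2
      refine e2.trans ?_
      apply mul_le_mul_of_nonneg_left _ hn0.le
      apply Finset.sum_le_sum
      intro z _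
      split_ifs with hz
      · have : N (fun b => Nb i b ∧ G.Adj z b) = 0 := by
          rw [N_eq_sum]
          apply Finset.sum_eq_zero
          intro b _
          rw [if_neg]
          rintro ⟨h1, h2⟩
          exact hind i z b hz h1 h2
        rw [this, sub_zero]
      · simp only [ne_eq, OfNat.ofNat_ne_zero, not_false_eq_true, zero_pow]
        exact sq_nonneg _
    have hu : ∑ z, τ ^ 2 * (N (fun b => Nb j b ∧ G.Adj z b)
        - N (fun b => Nb i b ∧ G.Adj z b)) ^ 2 ≤ 2 * D w i + 2 * D w j := by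
      simp only [D]
      rw [Finset.mul_sum, Finset.mul_sum, ← Finset.sum_add_distrib]
      apply Finset.sum_le_sum
      intro z _
      rw [hest z]
      set a := N (fun b => Nb i b ∧ G.Adj z b)
      set b := N (fun b => Nb j b ∧ G.Adj z b)
      set e := N (fun l => Nb j (w l) ∧ G.Adj z (w l))
      nlinarith [sq_nonneg ((τ * a - n * e) + (τ * b - n * e))]
    rw [← Finset.mul_sum] at hu
    have hE' := hE i j hij
    have hE2 : (c * n ^ 2) ^ 2 ≤ (EE G (Nb i) (Nb j)) ^ 2 :=
      pow_le_pow_left₀ (by positivity) hE' 2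
    have h6 := hE2.trans hl1
    set Sq := ∑ z, (N (fun b => Nb j b ∧ G.Adj z b) - N (fun b => Nb i b ∧ G.Adj z b)) ^ 2
    have h7 : c ^ 2 * n ^ 3 ≤ Sq := by
      have : n * (c ^ 2 * n ^ 3) ≤ n * Sq := by
        calc n * (c ^ 2 * n ^ 3) = (c * n ^ 2) ^ 2 := by ring
          _ ≤ _ := h6
      exact le_of_mul_le_mul_left this hn0
    have h8 : (τ:ℝ) ^ 2 * (c ^ 2 * n ^ 3) ≤ 8 * (τ * n ^ 3) := by
      calc (τ:ℝ) ^ 2 * (c ^ 2 * n ^ 3) ≤ τ ^ 2 * Sq :=
            mul_le_mul_of_nonneg_left h7 (by positivity)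
        _ ≤ 2 * D w i + 2 * D w j := hu
        _ ≤ _ := by linarith [hi.2, hj.2]
    have h9 : (c ^ 2 * τ) * (τ * n ^ 3) ≤ 8 * (τ * n ^ 3) := by
      calc (c ^ 2 * τ) * (τ * n ^ 3) = (τ:ℝ) ^ 2 * (c ^ 2 * n ^ 3) := by ring
        _ ≤ _ := h8
    have h10 := le_of_mul_le_mul_right h9 (by positivity)
    linarith
  have : (Fintype.card ι : ℝ) ≤ 2 ^ (τ + 1) := by
    have h : (I'.card : ℝ) ≤ 2 ^ τ := by exact_mod_cast hI2
    rw [pow_succ]; linarith
  exact_mod_cast this

end Pool.Agent.H53.C9
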