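import Pool.Agent.H53.C9.Num
import Pool.Agent.H53.C9.Match2

/-! A triangle-free graph containing all small triangle-free graphs, and copy counts. -/

set_option linter.unusedSectionVars false
set_option linter.unusedSimpArgs false

open Finset

namespace Pool.Agent.H53.C9

/-- the universal triangle-free graph: vertices are pairs `(i, A)` with `i < M` and `A` a set of
indices; `(i, A)` and `(j, B)` with `i < j` are adjacent when `i ∈ B` and `A`, `B` are disjoint -/
def uG (M : ℕ) : SimpleGraph (Fin M × Finset (Fin M)) where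
  Adj p q := Disjoint p.2 q.2 ∧ ((p.1 < q.1 ∧ p.1 ∈ q.2) ∨ (q.1 < p.1 ∧ q.1 ∈ p.2))
  symm := ⟨fun _ _ h => ⟨h.1.symm, h.2.symm⟩⟩
  loopless := ⟨fun _ h => by rcases h.2 with h | h <;> exact lt_irrefl _ h.1⟩

theorem uG_aux (M : ℕ) (p q r : Fin M × Finset (Fin M)) (h1 : p.1 < q.1) (h2 : p.1 < r.1)
    (a1 : (uG M).Adj p q) (a2 : (uG M).Adj p r) (a3 : (uG M).Adj q r) : False := by
  obtain ⟨-, a1⟩ := a1
  obtain ⟨-, a2⟩ := a2
  obtain ⟨a3, -⟩ := a3
  have b1 : p.1 ∈ q.2 := by
    rcases a1 with h | h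
    · exact h.2
    · exact absurd h.1 (not_lt.2 h1.le)
  have b2 : p.1 ∈ r.2 := by
    rcases a2 with h | h
    · exact h.2
    · exact absurd h.1 (not_lt.2 h2.le)
  exact (Finset.disjoint_left.1 a3) b1 b2

theorem uG_TF (M : ℕ) : TF (uG M) := by
  intro p q r h1 h2 h3
  have n1 : p.1 ≠ q.1 := by
    intro h; rcases h1.2 with h' | h'
    · exact absurd h'.1 (by rw [h]; exact lt_irrefl _)
    · exact absurd h'.1 (by rw [h]; exact lt_irrefl _)
  have n2 : q.1 ≠ r.1 := by
    intro h; rcases h2.2 with h' | h'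
    · exact absurd h'.1 (by rw [h]; exact lt_irrefl _)
    · exact absurd h'.1 (by rw [h]; exact lt_irrefl _)
  have n3 : p.1 ≠ r.1 := by
    intro h; rcases h3.2 with h' | h'
    · exact absurd h'.1 (by rw [h]; exact lt_irrefl _)
    · exact absurd h'.1 (by rw [h]; exact lt_irrefl _)
  rcases lt_or_gt_of_ne n1 with a | a
  · rcases lt_or_gt_of_ne n3 with b | b
    · exact uG_aux M p q r a b h1 h3 h2
    · exact uG_aux M r p q b (b.trans a) h3.symm h2.symm h1
  · rcases lt_or_gt_of_ne n2 with b | b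
    · exact uG_aux M q p r a b h1.symm h2 h3
    · exact uG_aux M r p q (b.trans a) b h3.symm h2.symm h1

theorem IsBlowup.uG {V : Type*} {M : ℕ} {G : SimpleGraph V} {Γ : SimpleGraph (Fin M)}
    (hΓ : TF Γ) (h : IsBlowup G Γ) : IsBlowup G (uG M) := by
  classical
  obtain ⟨f, hf⟩ := h
  let g : Fin M → Fin M × Finset (Fin M) := fun i => (i, univ.filter (fun j => j < i ∧ Γ.Adj i j))
  have hg : ∀ i j, Γ.Adj i j ↔ (Pool.Agent.H53.C9.uG M).Adj (g i) (g j) := by
    intro i j
    constructor
    · intro hij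
      refine ⟨?_, ?_⟩
      · rw [Finset.disjoint_left]
        intro k hk1 hk2
        simp only [g, mem_filter, mem_univ, true_and] at hk1 hk2
        exact hΓ i j k hij hk2.2 hk1.2
      · rcases lt_or_gt_of_ne hij.ne with h | h
        · left
          refine ⟨h, ?_⟩
          simp only [g, mem_filter, mem_univ, true_and]
          exact ⟨h, hij.symm⟩
        · right
          refine ⟨h, ?_⟩
          simp only [g, mem_filter, mem_univ, true_and]
          exact ⟨h, hij⟩
    · rintro ⟨-, h | h⟩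
      · have := h.2
        simp only [g, mem_filter, mem_univ, true_and] at this
        exact this.2.symm
      · have := h.2
        simp only [g, mem_filter, mem_univ, true_and] at this
        exact this.2
  refine ⟨fun x => g (f x), fun x y => ?_⟩
  rw [hf x y]
  exact hg _ _

/-- the universal graph on `Fin (M * 2 ^ M)` -/
theorem exists_univ (M : ℕ) : ∃ G₀ : SimpleGraph (Fin (M * 2 ^ M)), TF G₀ ∧
    ∀ (V : Type) (G : SimpleGraph V) (Γ : SimpleGraph (Fin M)), TF Γ → IsBlowup G Γ →
      IsBlowup G G₀ := by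
  have hc : Fintype.card (Fin M × Finset (Fin M)) = M * 2 ^ M := by
    rw [Fintype.card_prod, Fintype.card_finset, Fintype.card_fin]
  let e : Fin (M * 2 ^ M) ≃ Fin M × Finset (Fin M) :=
    (finCongr hc.symm).trans (Fintype.equivFin _).symm
  refine ⟨(uG M).comap e, (uG_TF M).comap e, fun V G Γ hΓ h => ?_⟩
  exact (h.uG hΓ).of_equiv e

theorem bip_blowup (n M : ℕ) (hM : 2 ≤ M) :
    ∃ Γ : SimpleGraph (Fin M), TF Γ ∧ IsBlowup (bip n) Γ := by
  let i0 : Fin M := ⟨0, by omega⟩
  let i1 : Fin M := ⟨1, by omega⟩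
  have h01 : i0 ≠ i1 := by
    intro h
    have := congrArg Fin.val h
    simp [i0, i1] at this
  let Γ : SimpleGraph (Fin M) :=
    { Adj := fun a b => (a = i0 ∧ b = i1) ∨ (a = i1 ∧ b = i0)
      symm := ⟨fun _ _ h => by tauto⟩
      loopless := ⟨fun a h => by
        rcases h with ⟨h1, h2⟩ | ⟨h1, h2⟩
        · exact h01 (h1.symm.trans h2)
        · exact h01 (h2.symm.trans h1)⟩ }
  refine ⟨Γ, ?_, fun x => if x.val < n / 2 then i0 else i1, ?_⟩
  · intro a b c h1 h2 h3
    have h1' : (a = i0 ∧ b = i1) ∨ (a = i1 ∧ b = i0) := h1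
    have h2' : (b = i0 ∧ c = i1) ∨ (b = i1 ∧ c = i0) := h2
    have h3' : (a = i0 ∧ c = i1) ∨ (a = i1 ∧ c = i0) := h3
    rcases h1' with ⟨rfl, rfl⟩ | ⟨rfl, rfl⟩
    · rcases h2' with ⟨h, -⟩ | ⟨-, rfl⟩
      · exact h01 h.symm
      · rcases h3' with ⟨-, h⟩ | ⟨h, -⟩
        · exact h01 h
        · exact h01 h
    · rcases h2' with ⟨-, rfl⟩ | ⟨h, -⟩
      · rcases h3' with ⟨h, -⟩ | ⟨-, h⟩
        · exact h01 h.symm
        · exact h01 h.symm
      · exact h01 h
  · intro x y
    change ¬ ((x.val < n / 2) ↔ (y.val < n / 2)) ↔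
      (((if x.val < n / 2 then i0 else i1) = i0 ∧ (if y.val < n / 2 then i0 else i1) = i1) ∨
        ((if x.val < n / 2 then i0 else i1) = i1 ∧ (if y.val < n / 2 then i0 else i1) = i0))
    by_cases hx : x.val < n / 2 <;> by_cases hy : y.val < n / 2 <;>
      simp [hx, hy, h01, h01.symm]

section copies

variable {V W : Type*}

theorem N_natCard {α : Type*} [Fintype α] (P : α → Prop) : N P = (Nat.card {a // P a} : ℝ) := by
  classical
  rw [N_eq_card, Nat.card_eq_fintype_card, Fintype.card_subtype]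

theorem ij_eq_copy [Fintype V] [Fintype W] [DecidableEq V] [DecidableEq W] (H : SimpleGraph W)
    (G : SimpleGraph V) : ij H G = (Nat.card (SimpleGraph.Copy H G) : ℝ) := by
  unfold ij
  rw [N_natCard]
  congr 1
  apply Nat.card_congr
  exact
    { toFun := fun φ => ⟨⟨φ.1, fun {a b} h => φ.2.2 a b h⟩, φ.2.1⟩
      invFun := fun f => ⟨f, f.injective, fun a b h => f.toHom.map_adj h⟩
      left_inv := fun φ => rfl
      right_inv := fun f => rfl }

/-- labelled copies with a prescribed image correspond to isomorphisms onto the image -/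
theorem card_fiber [Fintype V] [Fintype W] (G : SimpleGraph V) (H : SimpleGraph W)
    (S : G.Subgraph) (hS : Nonempty (H ≃g S.coe)) :
    Nat.card {f : SimpleGraph.Copy H G // f.toSubgraph = S} = Nat.card (H ≃g H) := by
  classical
  obtain ⟨e₀⟩ := hS
  have key : ∀ e : H ≃g S.coe,
      (⟨S.hom.comp e.toHom, SimpleGraph.Subgraph.hom_injective.comp e.injective⟩ :
        SimpleGraph.Copy H G).toSubgraph = S := by
    intro e
    simp [SimpleGraph.Copy.toSubgraph, SimpleGraph.Subgraph.map_comp]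
  let tr : (H ≃g H) → (H ≃g S.coe) := fun a => a.trans e₀
  let Φ : (H ≃g H) → {f : SimpleGraph.Copy H G // f.toSubgraph = S} := fun a =>
    ⟨⟨S.hom.comp (tr a).toHom, SimpleGraph.Subgraph.hom_injective.comp (tr a).injective⟩,
      key (tr a)⟩
  have hinj : Function.Injective Φ := by
    intro a b hab
    have h1 : ∀ x, S.hom (e₀ (a x)) = S.hom (e₀ (b x)) := by
      intro x
      have := congrArg (fun f : {f : SimpleGraph.Copy H G // f.toSubgraph = S} => f.1 x) hab
      exact this
    ext x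
    exact e₀.injective (SimpleGraph.Subgraph.hom_injective (h1 x))
  have hsurj : Function.Surjective Φ := by
    rintro ⟨f, rfl⟩
    refine ⟨f.isoToSubgraph.trans e₀.symm, ?_⟩
    apply Subtype.ext
    apply SimpleGraph.Copy.ext
    intro x
    change (f.toSubgraph).hom (e₀ (e₀.symm (f.isoToSubgraph x))) = f x
    rw [RelIso.apply_symm_apply]
    rfl
  exact (Nat.card_congr (Equiv.ofBijective Φ ⟨hinj, hsurj⟩)).symm

theorem card_copy_eq [Fintype V] [Fintype W] (G : SimpleGraph V) (H : SimpleGraph W) :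
    Nat.card (SimpleGraph.Copy H G) = Nat.card (H ≃g H) * G.copyCount H := by
  classical
  have h1 : Nat.card (SimpleGraph.Copy H G) = ∑ S : G.Subgraph,
      Nat.card {f : SimpleGraph.Copy H G // f.toSubgraph = S} := by
    rw [← Nat.card_sigma]
    exact Nat.card_congr
      (Equiv.sigmaFiberEquiv (fun f : SimpleGraph.Copy H G => f.toSubgraph)).symm
  rw [h1]
  have h2 : ∀ S : G.Subgraph, Nat.card {f : SimpleGraph.Copy H G // f.toSubgraph = S}
      = if Nonempty (H ≃g S.coe) then Nat.card (H ≃g H) else 0 := by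
    intro S
    split_ifs with h
    · exact card_fiber G H S h
    · rw [Nat.card_eq_zero]
      left
      constructor
      rintro ⟨f, hf⟩
      exact h (hf ▸ ⟨f.isoToSubgraph⟩)
  rw [Finset.sum_congr rfl (fun S _ => h2 S), ← Finset.sum_filter, Finset.sum_const, smul_eq_mul,
    mul_comm]
  congr 1

theorem aut_pos [Fintype W] (H : SimpleGraph W) : 0 < Nat.card (H ≃g H) := by
  classical
  have : Finite (H ≃g H) :=
    Finite.of_injective (fun e : H ≃g H => (e : W → W)) DFunLike.coe_injective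
  have : Nonempty (H ≃g H) := ⟨SimpleGraph.Iso.refl⟩
  exact Nat.card_pos

theorem copy_le_iff [Fintype V] [Fintype W] [DecidableEq V] [DecidableEq W] (H : SimpleGraph W)
    (G G' : SimpleGraph V) : ij H G' ≤ ij H G ↔ G'.copyCount H ≤ G.copyCount H := by
  rw [ij_eq_copy, ij_eq_copy, card_copy_eq, card_copy_eq, Nat.cast_le]
  constructor
  · intro h; exact Nat.le_of_mul_le_mul_left h (aut_pos H)
  · intro h; exact Nat.mul_le_mul_left _ h

end copies

end Pool.Agent.H53.C9
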